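import Mathlib

/-!
# The Dirichlet inverse of a sequence of Hecke eigenvalues
-/

set_option autoImplicit false

open Finset

namespace Pool.Agent.MU1

/-- The local factor of the inverse. -/
def loc (N : ℕ) (a : ℕ → ℤ) (l : ℕ) : ℕ → ℤ
  | 0 => 1
  | 1 => -a l
  | 2 => if l ∣ N then 0 else (l : ℤ)
  | _ => 0

/-- The Dirichlet inverse. -/
def inv (N : ℕ) (a : ℕ → ℤ) : ArithmeticFunction ℤ :=
  ⟨fun n => if n = 0 then 0 else n.factorization.prod (fun l k => loc N a l k), by simp⟩

/-- The sequence as an arithmetic function. -/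
def af (a : ℕ → ℤ) (ha0 : a 0 = 0) : ArithmeticFunction ℤ := ⟨a, ha0⟩

theorem inv_apply (N : ℕ) (a : ℕ → ℤ) {n : ℕ} (hn : n ≠ 0) :
    inv N a n = n.factorization.prod (fun l k => loc N a l k) := by
  simp [inv, hn]

theorem inv_mult (N : ℕ) (a : ℕ → ℤ) : (inv N a).IsMultiplicative := by
  refine ⟨?_, ?_⟩
  · rw [inv_apply N a one_ne_zero]
    simp
  · intro m n hmn
    rcases eq_or_ne m 0 with rfl | hm
    · simp
    rcases eq_or_ne n 0 with rfl | hn
    · simp
    rw [inv_apply N a (mul_ne_zero hm hn), inv_apply N a hm, inv_apply N a hn,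
      Nat.factorization_mul_of_coprime hmn]
    apply Finsupp.prod_add_index_of_disjoint
    exact hmn.disjoint_primeFactors

theorem inv_prime_pow (N : ℕ) (a : ℕ → ℤ) {l : ℕ} (hl : l.Prime) (k : ℕ) :
    inv N a (l ^ k) = loc N a l k := by
  rw [inv_apply N a (pow_ne_zero _ hl.ne_zero), hl.factorization_pow]
  rw [Finsupp.prod_single_index]
  rfl

/-- The Hecke relations. -/
def HR (N : ℕ) (a : ℕ → ℤ) : Prop := ∀ l : ℕ, l.Prime → ∀ n : ℕ,
      a (l * n) + (if l ∣ n ∧ ¬ l ∣ N then (l : ℤ) * a (n / l) else 0) = a l * a n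

/-- Prime powers split off. -/
theorem mul_prime_pow {N : ℕ} {a : ℕ → ℤ} (ha1 : a 1 = 1) (hH : HR N a) {l : ℕ} (hl : l.Prime) :
    ∀ (k n : ℕ), ¬ l ∣ n → a (l ^ k * n) = a (l ^ k) * a n := by
  intro k
  induction k using Nat.strong_induction_on with
  | _ k ih =>
    intro n hn
    match k, ih with
    | 0, _ => simp [ha1]
    | 1, _ =>
      have h := hH l hl n
      rw [if_neg (by tauto)] at h
      rw [pow_one]
      linarith
    | k + 2, ih =>
      have h1 := hH l hl (l ^ (k + 1) * n)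
      have h2 := hH l hl (l ^ (k + 1))
      have e1 : l * (l ^ (k + 1) * n) = l ^ (k + 2) * n := by ring
      have e2 : l * l ^ (k + 1) = l ^ (k + 2) := by ring
      have e3 : l ^ (k + 1) * n / l = l ^ k * n := by
        rw [pow_succ]
        rw [show l ^ k * l * n = l ^ k * n * l by ring, Nat.mul_div_cancel _ hl.pos]
      have e4 : l ^ (k + 1) / l = l ^ k := by
        rw [pow_succ, Nat.mul_div_cancel _ hl.pos]
      have d1 : l ∣ l ^ (k + 1) * n := Dvd.dvd.mul_right (dvd_pow_self _ (by omega)) _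
      have d2 : l ∣ l ^ (k + 1) := dvd_pow_self _ (by omega)
      rw [e1, e3] at h1
      rw [e2, e4] at h2
      have i1 := ih (k + 1) (by omega) n hn
      have i0 := ih k (by omega) n hn
      by_cases hlN : l ∣ N
      · rw [if_neg (by tauto)] at h1 h2
        rw [i1] at h1
        have : a (l ^ (k + 2)) = a l * a (l ^ (k + 1)) := by linarith
        rw [this]
        linarith
      · rw [if_pos ⟨d1, hlN⟩, i1, i0] at h1
        rw [if_pos ⟨d2, hlN⟩] at h2
        have : a (l ^ (k + 2)) = a l * a (l ^ (k + 1)) - l * a (l ^ k) := by linarith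
        rw [this]
        linear_combination h1

theorem af_mult {N : ℕ} {a : ℕ → ℤ} (ha0 : a 0 = 0) (ha1 : a 1 = 1) (hH : HR N a) :
    (af a ha0).IsMultiplicative := by
  refine ⟨ha1, ?_⟩
  intro m
  induction m using Nat.recOnPosPrimePosCoprime with
  | prime_pow l k hl hk =>
    intro n hmn
    have hln : ¬ l ∣ n := by
      intro h
      have := Nat.Coprime.eq_one_of_dvd (Nat.Coprime.coprime_dvd_left (dvd_pow_self l hk.ne') hmn) h
      exact hl.one_lt.ne' this
    exact mul_prime_pow ha1 hH hl k n hln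
  | zero =>
    intro n _
    simp
  | one =>
    intro n _
    change a (1 * n) = a 1 * a n
    rw [ha1]; simp
  | coprime x y hx hy hxy ihx ihy =>
    intro n hmn
    have hxn : Nat.Coprime x n := Nat.Coprime.coprime_dvd_left (dvd_mul_right x y) hmn
    have hyn : Nat.Coprime y n := Nat.Coprime.coprime_dvd_left (dvd_mul_left y x) hmn
    rw [mul_assoc, ihx (Nat.Coprime.mul_right hxy hxn), ihy hyn, ihx hxy, mul_assoc]

theorem conv_prime_pow {N : ℕ} {a : ℕ → ℤ} (ha0 : a 0 = 0) (ha1 : a 1 = 1) (hH : HR N a) {l : ℕ}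
    (hl : l.Prime) (k : ℕ) :
    (inv N a * af a ha0) (l ^ k) = (1 : ArithmeticFunction ℤ) (l ^ k) := by
  have key : (inv N a * af a ha0) (l ^ k) =
      ∑ i ∈ Finset.range (k + 1), loc N a l i * a (l ^ (k - i)) := by
    rw [ArithmeticFunction.mul_apply, Nat.sum_divisorsAntidiagonal (fun x y => inv N a x * af a ha0 y),
      Nat.sum_divisors_prime_pow hl]
    apply Finset.sum_congr rfl
    intro i hi
    have hik : i ≤ k := by
      have := Finset.mem_range.1 hi
      omega
    rw [inv_prime_pow N a hl, Nat.pow_div hik hl.pos]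
    rfl
  rw [key]
  match k with
  | 0 => simp [loc, ha1]
  | 1 =>
    rw [Finset.sum_range_succ, Finset.sum_range_one]
    simp [loc, ha1, hl.ne_one]
  | k + 2 =>
    rw [Finset.sum_range_succ', Finset.sum_range_succ', Finset.sum_range_succ']
    have hz : ∑ i ∈ Finset.range k, loc N a l (i + 1 + 1 + 1) * a (l ^ (k + 2 - (i + 1 + 1 + 1))) = 0 := by
      apply Finset.sum_eq_zero
      intro i _
      simp [loc]
    rw [hz]
    have h2 := hH l hl (l ^ (k + 1))
    have e2 : l * l ^ (k + 1) = l ^ (k + 2) := by ring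
    have e4 : l ^ (k + 1) / l = l ^ k := by
      rw [pow_succ, Nat.mul_div_cancel _ hl.pos]
    have d2 : l ∣ l ^ (k + 1) := dvd_pow_self _ (by omega)
    rw [e2, e4] at h2
    have hne : l ^ (k + 2) ≠ 1 := by
      have := Nat.one_lt_pow (n := k + 2) (by omega) hl.one_lt
      omega
    rw [ArithmeticFunction.one_apply_ne hne]
    have s1 : k + 2 - (0 + 1 + 1) = k := by omega
    have s2 : k + 2 - (0 + 1) = k + 1 := by omega
    rw [s1, s2]
    by_cases hlN : l ∣ N
    · rw [if_neg (by tauto)] at h2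
      simp [loc, hlN]
      linarith
    · rw [if_pos ⟨d2, hlN⟩] at h2
      simp [loc, hlN]
      linarith

theorem conv_eq_one {N : ℕ} {a : ℕ → ℤ} (ha0 : a 0 = 0) (ha1 : a 1 = 1) (hH : HR N a) :
    inv N a * af a ha0 = 1 := by
  rw [ArithmeticFunction.IsMultiplicative.eq_iff_eq_on_prime_powers _
    ((inv_mult N a).mul (af_mult ha0 ha1 hH)) _ ArithmeticFunction.isMultiplicative_one]
  intro p i hp
  exact conv_prime_pow ha0 ha1 hH hp i

/-- Local bound. -/
theorem loc_le (N : ℕ) {a : ℕ → ℤ} (hb : ∀ n : ℕ, |(a n : ℝ)| ≤ n.divisors.card * √n) {l : ℕ}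
    (hl : l.Prime) (k : ℕ) : |(loc N a l k : ℝ)| ≤ (k + 1) * √((l : ℝ) ^ k) := by
  match k with
  | 0 => simp [loc]
  | 1 =>
    have := hb l
    rw [hl.divisors, Finset.card_pair hl.one_lt.ne] at this
    simp [loc]
    norm_num at this ⊢
    linarith
  | 2 =>
    have h0 : (0 : ℝ) ≤ l := by positivity
    rw [Real.sqrt_sq h0]
    by_cases hlN : l ∣ N
    · simp [loc, hlN]
      positivity
    · simp [loc, hlN]
      nlinarith
  | k + 3 =>
    simp [loc]
    positivity

theorem inv_le (N : ℕ) {a : ℕ → ℤ} (hb : ∀ n : ℕ, |(a n : ℝ)| ≤ n.divisors.card * √n) (n : ℕ) :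
    |(inv N a n : ℝ)| ≤ n.divisors.card * √n := by
  rcases eq_or_ne n 0 with rfl | hn
  · simp
  rw [inv_apply N a hn, Finsupp.prod, Nat.card_divisors hn]
  rw [Int.cast_prod, Finset.abs_prod]
  have hs : √(n : ℝ) = ∏ l ∈ n.primeFactors, √((l : ℝ) ^ (n.factorization l)) := by
    rw [← Real.sqrt_prod]
    · congr 1
      conv_lhs => rw [← Nat.prod_factorization_pow_eq_self hn]
      rw [Finsupp.prod]
      push_cast
      rfl
    · intro i _
      positivity
  rw [hs, Nat.support_factorization]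
  push_cast
  rw [← Finset.prod_mul_distrib]
  apply Finset.prod_le_prod
  · intro i _
    positivity
  · intro l hl
    exact loc_le N hb (Nat.prime_of_mem_primeFactors hl) _

theorem exists_inverse {N : ℕ} (hN : N ≠ 0) {a : ℕ → ℤ} (ha0 : a 0 = 0) (ha1 : a 1 = 1)
    (hH : ∀ l : ℕ, l.Prime → ∀ n : ℕ,
      a (l * n) + (if l ∣ n ∧ ¬ l ∣ N then (l : ℤ) * a (n / l) else 0) = a l * a n)
    (hb : ∀ n : ℕ, |(a n : ℝ)| ≤ n.divisors.card * √n) :
    ∃ c : ℕ → ℤ, c 1 = 1 ∧ (∀ k : ℕ, 2 ≤ k → ∑ d ∈ k.divisors, c d * a (k / d) = 0) ∧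
      ∀ n : ℕ, |(c n : ℝ)| ≤ n.divisors.card * √n := by
  refine ⟨fun n => inv N a n, (inv_mult N a).1, ?_, fun n => inv_le N hb n⟩
  intro k hk
  have h := conv_eq_one ha0 ha1 hH
  have h2 : (inv N a * af a ha0) k = 0 := by
    rw [h, ArithmeticFunction.one_apply_ne (by omega)]
  rw [ArithmeticFunction.mul_apply, Nat.sum_divisorsAntidiagonal (fun x y => inv N a x * af a ha0 y)] at h2
  exact h2

end Pool.Agent.MU1
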