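import Pool.Agent.MU1.Defs

/-!
# The primitive of a cusp form: `q`-expansion, Fricke involution, bounds
-/

set_option autoImplicit false

open UpperHalfPlane hiding I
open Filter Topology Complex Function CongruenceSubgroup
open Matrix.SpecialLinearGroup (mapGL)
open scoped MatrixGroups Real ModularForm OnePoint ComplexConjugate

namespace Pool.Agent.MU1

open Pool.Agent.MZ Pool.Agent.MZ.Per

variable {N : ℕ} [NeZero N]

theorem norm_e (n : ℕ) (z : ℂ) : ‖cexp (2 * π * Complex.I * n * z)‖ = Real.exp (-2 * π * n * z.im) := by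
  rw [Complex.norm_exp]
  congr 1
  simp [mul_re, mul_im]

theorem summable_coeff (f : CuspForm (Gamma0 N) 2) {a : ℕ → ℂ}
    (ha : ∀ n, (qExpansion 1 f).coeff n = a n) {δ : ℝ} (hδ : 0 < δ) :
    Summable (fun n : ℕ => ‖a n‖ * Real.exp (-2 * π * n * δ)) := by
  have h1 := (hasSum_q f ha ((δ : ℂ) * Complex.I) (by simpa using hδ)).summable.norm
  refine h1.congr fun n => ?_
  rw [norm_mul, norm_e]
  simp

theorem norm_term_le (a : ℕ → ℂ) (n : ℕ) (z : ℂ) :
    ‖a n / n * cexp (2 * π * Complex.I * n * z)‖ ≤ ‖a n‖ * Real.exp (-2 * π * n * z.im) := by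
  rw [norm_mul, norm_e, norm_div]
  refine mul_le_mul_of_nonneg_right ?_ (Real.exp_pos _).le
  rcases Nat.eq_zero_or_pos n with rfl | hn
  · simp
  · have : (1 : ℝ) ≤ ‖(n : ℂ)‖ := by
      rw [Complex.norm_natCast]
      exact_mod_cast hn
    exact div_le_self (norm_nonneg _) this

/-- The series of the primitive. -/
noncomputable def Gs (a : ℕ → ℂ) (z : ℍ) : ℂ := ∑' n : ℕ, a n / n * cexp (2 * π * Complex.I * n * z)

theorem summable_G (f : CuspForm (Gamma0 N) 2) {a : ℕ → ℂ}
    (ha : ∀ n, (qExpansion 1 f).coeff n = a n) {z : ℂ} (hz : 0 < z.im) :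
    Summable (fun n : ℕ => a n / n * cexp (2 * π * Complex.I * n * z)) :=
  Summable.of_norm_bounded (summable_coeff f ha hz) fun n => norm_term_le a n z

theorem Gs_der (f : CuspForm (Gamma0 N) 2) {a : ℕ → ℂ}
    (ha : ∀ n, (qExpansion 1 f).coeff n = a n) (z : ℍ) :
    HasDerivAt (Gs a ∘ ofComplex) (2 * π * Complex.I * f z) (z : ℂ) := by
  have ha0 := coeff_zero f ha
  set δ : ℝ := z.im / 2 with hδ
  have hδ0 : 0 < δ := by have := z.im_pos; positivity
  set t : Set ℂ := {w : ℂ | δ < w.im} with ht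
  have hto : IsOpen t := isOpen_lt continuous_const Complex.continuous_im
  have htc : IsPreconnected t := (convex_halfSpace_im_gt δ).isPreconnected
  have hzt : (z : ℂ) ∈ t := by
    show δ < z.im
    rw [hδ]
    have := z.im_pos
    linarith
  have h1 := hasDerivAt_tsum_of_isPreconnected
    (g := fun (n : ℕ) (w : ℂ) => a n / n * cexp (2 * π * Complex.I * n * w))
    (g' := fun (n : ℕ) (w : ℂ) => 2 * π * Complex.I * (a n * cexp (2 * π * Complex.I * n * w)))
    (u := fun n => 2 * π * (‖a n‖ * Real.exp (-2 * π * n * δ)))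
    ((summable_coeff f ha hδ0).mul_left _) hto htc
    (by
      intro n w _
      have h2 : HasDerivAt (fun w : ℂ => cexp (2 * π * Complex.I * n * w))
          (cexp (2 * π * Complex.I * n * w) * (2 * π * Complex.I * n)) w := by
        apply HasDerivAt.cexp
        simpa using (hasDerivAt_id w).const_mul (2 * π * Complex.I * n)
      have h3 := h2.const_mul (a n / n)
      convert! h3 using 1
      rcases Nat.eq_zero_or_pos n with rfl | hn
      · simp [ha0]
      · have : (n : ℂ) ≠ 0 := by exact_mod_cast hn.ne'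
        field_simp)
    (by
      intro n w hw
      have hw' : δ < w.im := hw
      have h2 : ‖(2 * π * Complex.I : ℂ)‖ = 2 * π := by
        rw [norm_mul, norm_mul, Complex.norm_I, mul_one, Complex.norm_real,
          Real.norm_of_nonneg Real.pi_pos.le]
        simp
      rw [norm_mul (2 * π * Complex.I : ℂ), h2, norm_mul, norm_e]
      have h3 : -2 * π * n * w.im ≤ -2 * π * n * δ := by
        have : 0 ≤ 2 * π * n := by positivity
        nlinarith
      gcongr)
    hzt (summable_G f ha z.im_pos) hzt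
  have h2 : (∑' n : ℕ, 2 * π * Complex.I * (a n * cexp (2 * π * Complex.I * n * (z : ℂ)))) =
      2 * π * Complex.I * f z := by
    rw [tsum_mul_left, (hasSum_q f ha (z : ℂ) z.im_pos).tsum_eq, ofComplex_apply]
  rw [h2] at h1
  refine h1.congr_of_eventuallyEq ?_
  filter_upwards [im_pos_open.mem_nhds z.im_pos] with x hx
  simp only [comp_apply, Gs]
  rw [ofComplex_apply_of_im_pos hx]

theorem Gs_bound (f : CuspForm (Gamma0 N) 2) {a : ℕ → ℂ}
    (ha : ∀ n, (qExpansion 1 f).coeff n = a n) {z : ℍ} (hz : 1 ≤ z.im) :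
    ‖Gs a z‖ ≤ (∑' n : ℕ, ‖a n‖ * Real.exp (-2 * π * n * 1)) * Real.exp (-2 * π * (z.im - 1)) := by
  have ha0 := coeff_zero f ha
  rw [← tsum_mul_right]
  refine tsum_of_norm_bounded ((summable_coeff f ha one_pos).mul_right _).hasSum fun n => ?_
  refine (norm_term_le a n z).trans ?_
  rcases Nat.eq_zero_or_pos n with rfl | hn
  · simp [ha0]
  rw [mul_assoc ‖a n‖, ← Real.exp_add]
  refine mul_le_mul_of_nonneg_left (Real.exp_le_exp.2 ?_) (norm_nonneg _)
  have hn' : (1 : ℝ) ≤ n := by exact_mod_cast hn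
  have h1 : 0 ≤ (2 * π) * ((n - 1 : ℝ) * (z.im - 1)) := by
    have : 0 ≤ (n : ℝ) - 1 := by linarith
    have : 0 ≤ z.im - 1 := by linarith
    positivity
  have h2 : (z : ℂ).im = z.im := rfl
  rw [h2]
  nlinarith [Real.pi_pos]

theorem Gs_eq (f : CuspForm (Gamma0 N) 2) {a : ℕ → ℂ}
    (ha : ∀ n, (qExpansion 1 f).coeff n = a n) (z : ℍ) : G f z = Gs a z := by
  obtain ⟨c, hc⟩ := sub_const (prim_G f).der (Gs_der f ha)
  have hlim : Tendsto (Gs a) atImInfty (𝓝 0) := by
    rw [tendsto_zero_iff_norm_tendsto_zero]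
    have h1 : Tendsto (fun z : ℍ => (∑' n : ℕ, ‖a n‖ * Real.exp (-2 * π * n * 1)) *
        Real.exp (-2 * π * (z.im - 1))) atImInfty (𝓝 ((∑' n : ℕ, ‖a n‖ *
          Real.exp (-2 * π * n * 1)) * 0)) := by
      refine Tendsto.const_mul _ (Real.tendsto_exp_atBot.comp ?_)
      have h2 : Tendsto (fun z : ℍ => z.im) atImInfty atTop := tendsto_comap
      have h3 : Tendsto (fun y : ℝ => -2 * π * (y - 1)) atTop atBot := by
        have h4 : Tendsto (fun y : ℝ => y - 1) atTop atTop := tendsto_atTop_add_const_right _ _ tendsto_id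
        exact h4.const_mul_atTop_of_neg (by nlinarith [Real.pi_pos])
      exact h3.comp h2
    rw [mul_zero] at h1
    refine squeeze_zero' (Eventually.of_forall fun z => norm_nonneg _) ?_ h1
    have h5 : ∀ᶠ z : ℍ in atImInfty, 1 ≤ z.im := by
      rw [Filter.eventually_iff, atImInfty_mem]
      exact ⟨1, fun z hz => hz⟩
    filter_upwards [h5] with z hz
    exact Gs_bound f ha hz
  have h1 : Tendsto (fun z => Gs a z + c) atImInfty (𝓝 (0 + c)) := hlim.add_const c
  have h2 := (prim_G f).lim.congr hc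
  have h3 := tendsto_nhds_unique h1 h2
  rw [zero_add] at h3
  rw [hc z, h3, add_zero]

theorem hasSum_G (f : CuspForm (Gamma0 N) 2) {a : ℕ → ℂ}
    (ha : ∀ n, (qExpansion 1 f).coeff n = a n) (z : ℍ) :
    HasSum (fun n : ℕ => a n / n * cexp (2 * π * Complex.I * n * z)) (G f z) := by
  rw [Gs_eq f ha z]
  exact (summable_G f ha z.im_pos).hasSum

omit [NeZero N] in
theorem im_W (hN : N ≠ 0) {z : ℂ} (hz : 0 < z.im) : 0 < (-1 / ((N : ℂ) * z)).im := by
  have hN' : (0 : ℝ) < N := by exact_mod_cast Nat.pos_of_ne_zero hN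
  have h1 : (-1 / ((N : ℂ) * z)).im = ((N : ℂ) * z).im / normSq ((N : ℂ) * z) := by
    rw [neg_div, _root_.one_div, neg_im, inv_im, neg_div, neg_neg]
  have h2 : ((N : ℂ) * z).im = N * z.im := by simp
  have h3 : 0 < ((N : ℂ) * z).im := by rw [h2]; positivity
  rw [h1]
  refine div_pos h3 (normSq_pos.2 ?_)
  intro h
  rw [h] at h3
  simp at h3

theorem G_fricke (f : CuspForm (Gamma0 N) 2) {ε : ℂ} (hF : Fricke f ε) :
    ∃ c : ℂ, ∀ z : ℍ, G f (ofComplex (-1 / ((N : ℂ) * z))) = ε * G f z + c := by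
  have hN : N ≠ 0 := NeZero.ne N
  have hNc : (N : ℂ) ≠ 0 := by exact_mod_cast hN
  refine sub_const (g := fun z => ε * (2 * π * Complex.I * f z))
    (G := fun z : ℍ => G f (ofComplex (-1 / ((N : ℂ) * z)))) (H := fun z => ε * G f z) ?_ ?_
  · intro z
    have hz := im_W (N := N) hN z.im_pos
    have hz0 : (z : ℂ) ≠ 0 := z.ne_zero
    have h1 := (prim_G f).der ⟨_, hz⟩
    have h2 : HasDerivAt (fun x : ℂ => -1 / ((N : ℂ) * x)) (1 / ((N : ℂ) * (z : ℂ) ^ 2)) (z : ℂ) := by
      have h3 : HasDerivAt (fun x : ℂ => (N : ℂ) * x) ((N : ℂ) * 1) (z : ℂ) :=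
        (hasDerivAt_id (z : ℂ)).const_mul (N : ℂ)
      have h4 := (h3.inv (mul_ne_zero hNc hz0)).const_mul (-1 : ℂ)
      convert! h4 using 1
      field_simp
    have h5 := HasDerivAt.comp (z : ℂ) h1 h2
    have h6 : 2 * π * Complex.I * f ⟨_, hz⟩ * (1 / ((N : ℂ) * (z : ℂ) ^ 2)) =
        ε * (2 * π * Complex.I * f z) := by
      have h7 := hF z
      rw [ofComplex_apply_of_im_pos hz] at h7
      rw [h7]
      field_simp
    rw [h6] at h5
    refine h5.congr_of_eventuallyEq ?_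
    filter_upwards [im_pos_open.mem_nhds z.im_pos] with x hx
    simp only [comp_apply]
    rw [ofComplex_apply_of_im_pos hx]
  · intro z
    have h1 := ((prim_G f).der z).const_mul ε
    exact h1

theorem bd_eq (f : CuspForm (Gamma0 N) 2) {ε : ℂ} (hF : Fricke f ε)
    {q : ℕ} (hq : 0 < q) {b r : ℤ} (hbr : (q : ℤ) ∣ N * r * b - 1) {y : ℝ} (hy : 0 < y) :
    bd (G f) (((b : ℚ) / (q : ℚ) : ℚ) : OnePoint ℚ) =
      G f (vert ((b : ℝ) / q) y) - ε * G f (vert (-(r : ℝ) / q) (1 / (N * q ^ 2 * y))) := by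
  have hN : N ≠ 0 := NeZero.ne N
  have hNc : (N : ℂ) ≠ 0 := by exact_mod_cast hN
  have hNr : (0 : ℝ) < N := by exact_mod_cast Nat.pos_of_ne_zero hN
  have hqr : (0 : ℝ) < q := by exact_mod_cast hq
  have hqc : (q : ℂ) ≠ 0 := by exact_mod_cast hq.ne'
  obtain ⟨A', hA'⟩ := hbr
  obtain ⟨γ, h00, h01, h10, h11⟩ := exists_sl (a := -A') (b := b) (c := -(N * r)) (d := q)
    (by linear_combination hA')
  have hγ : γ ∈ Gamma0 N := by
    rw [Gamma0_mem, h10]
    push_cast
    simp
  obtain ⟨c, hc⟩ := G_fricke f hF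
  -- the two points
  have hpt : ∀ t : ℝ, 0 < t → γ • (ofComplex (-1 / ((N : ℂ) *
      (vert (-(r : ℝ) / q) (1 / (N * q ^ 2 * t)) : ℍ)))) = vert ((b : ℝ) / q) t := by
    intro t ht
    have hpos : 0 < 1 / ((N : ℝ) * q ^ 2 * t) := by positivity
    have htc : (t : ℂ) ≠ 0 := by exact_mod_cast ht.ne'
    set z' : ℍ := vert (-(r : ℝ) / q) (1 / (N * q ^ 2 * t)) with hz'
    have hz'c : (z' : ℂ) = -(r : ℂ) / q + 1 / (N * q ^ 2 * t) * Complex.I := by
      rw [hz', coe_vert hpos]
      push_cast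
      ring
    have hz'0 : (z' : ℂ) ≠ 0 := z'.ne_zero
    apply UpperHalfPlane.ext
    rw [coe_specialLinearGroup_apply, coe_vert ht, ofComplex_apply_of_im_pos (im_W hN z'.im_pos)]
    simp only [algebraMap_int_eq, eq_intCast, ofReal_intCast]
    rw [h00, h01, h10, h11]
    have hA : (A' : ℂ) * q = N * r * b - 1 := by
      have := congrArg (fun t : ℤ => (t : ℂ)) hA'
      push_cast at this
      linear_combination -this
    have hden : ((-(N * r) : ℤ) : ℂ) * (-1 / ((N : ℂ) * (z' : ℂ))) + ((q : ℤ) : ℂ) ≠ 0 := by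
      have h3 : ((-(N * r) : ℤ) : ℂ) * (-1 / ((N : ℂ) * (z' : ℂ))) + ((q : ℤ) : ℂ) =
          (r + q * z') / z' := by
        push_cast
        field_simp
      rw [h3]
      refine div_ne_zero ?_ hz'0
      rw [hz'c]
      have h4 : (r : ℂ) + q * (-(r : ℂ) / q + 1 / (N * q ^ 2 * t) * Complex.I) =
          1 / (N * q * t) * Complex.I := by
        field_simp
        ring
      rw [h4]
      exact mul_ne_zero (one_div_ne_zero (mul_ne_zero (mul_ne_zero hNc hqc) htc)) Complex.I_ne_zero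
    rw [div_eq_iff hden]
    push_cast
    have hI2 : Complex.I * Complex.I = -1 := Complex.I_mul_I
    have h5 : (z' : ℂ) * (N * q ^ 2 * t) = -(r : ℂ) * q * N * t + Complex.I := by
      rw [hz'c]
      field_simp
    have h6 : (-(A' : ℂ) * (-1 / ((N : ℂ) * (z' : ℂ))) + b) * (N * z') = A' + b * N * z' := by
      field_simp
    have h7 : (((b : ℂ) / q + t * Complex.I) * (-((N : ℂ) * r) * (-1 / ((N : ℂ) * (z' : ℂ))) + q)) * (N * z') =
        ((b : ℂ) / q + t * Complex.I) * (N * r + q * N * z') := by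
      field_simp
    have hNz : (N : ℂ) * z' ≠ 0 := mul_ne_zero hNc hz'0
    apply mul_right_cancel₀ hNz
    rw [h6, h7]
    have h8 : (q : ℂ) * t ≠ 0 := mul_ne_zero hqc htc
    apply mul_right_cancel₀ h8
    have h9 : ((b : ℂ) / q + t * Complex.I) * (N * r + q * N * z') * (q * t) =
        ((b : ℂ) + q * t * Complex.I) * (N * r * t + q * N * z' * t) := by
      field_simp
    rw [h9]
    linear_combination (t : ℂ) * hA - (t : ℂ) * Complex.I * h5 - (t : ℂ) * hI2
  set c' : ℂ := c + (G f (γ • UpperHalfPlane.I) - G f UpperHalfPlane.I) with hc'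
  have hconst : ∀ t : ℝ, 0 < t → G f (vert ((b : ℝ) / q) t) -
      ε * G f (vert (-(r : ℝ) / q) (1 / (N * q ^ 2 * t))) = c' := by
    intro t ht
    rw [← hpt t ht, G_smul f hγ, hc, hc']
    ring
  have h1 : Tendsto (fun t : ℝ => G f (vert ((b : ℝ) / q) t)) (𝓝[>] 0)
      (𝓝 (bd (G f) (((b : ℚ) / (q : ℚ) : ℚ) : OnePoint ℚ))) := by
    have h2 := tendsto_vert (lim_G f) ((b : ℚ) / (q : ℚ))
    have h3 : (((b : ℚ) / (q : ℚ) : ℚ) : ℝ) = (b : ℝ) / q := by push_cast; rfl
    rw [h3] at h2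
    exact h2
  have h2 : Tendsto (fun t : ℝ => G f (vert (-(r : ℝ) / q) (1 / (N * q ^ 2 * t)))) (𝓝[>] 0)
      (𝓝 0) := by
    refine (prim_G f).lim.comp ((vert_tendsto _).comp ?_)
    have h4 : Tendsto (fun t : ℝ => ((N : ℝ) * q ^ 2)⁻¹ * t⁻¹) (𝓝[>] 0) atTop :=
      tendsto_inv_nhdsGT_zero.const_mul_atTop (by positivity)
    refine h4.congr fun t => ?_
    rw [_root_.one_div, mul_inv ((N : ℝ) * q ^ 2)]
  have h3 := h1.sub (h2.const_mul ε)
  rw [mul_zero, sub_zero] at h3
  have h4 : Tendsto (fun t : ℝ => G f (vert ((b : ℝ) / q) t) -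
      ε * G f (vert (-(r : ℝ) / q) (1 / (N * q ^ 2 * t)))) (𝓝[>] 0) (𝓝 c') := by
    refine tendsto_const_nhds.congr' ?_
    filter_upwards [self_mem_nhdsWithin] with t ht
    exact (hconst t ht).symm
  rw [tendsto_nhds_unique h3 h4, hconst y hy]

/-- The growth of the primitive. -/
theorem G_bound (f : CuspForm (Gamma0 N) 2) : ∃ C : ℝ, 0 ≤ C ∧ ∀ x t : ℝ, 0 < t → t ≤ 1 →
    ‖G f (vert x t)‖ ≤ C * (1 + Real.log (1 / t)) := by
  obtain ⟨C, hC⟩ := CuspFormClass.exists_bound f
  have hC' : ∀ τ : ℍ, ‖f τ‖ ≤ C / τ.im := by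
    intro τ
    have := hC τ
    norm_num at this
    exact this
  have hC0 : 0 ≤ C := by
    have := (norm_nonneg _).trans (hC' UpperHalfPlane.I)
    simpa using this
  set a : ℕ → ℂ := fun n => (qExpansion 1 f).coeff n with ha
  have ha' : ∀ n, (qExpansion 1 f).coeff n = a n := fun n => rfl
  set A : ℝ := ∑' n : ℕ, ‖a n‖ * Real.exp (-2 * π * n * 1) with hA
  have hA0 : 0 ≤ A := tsum_nonneg fun n => by positivity
  have h1 : ∀ x : ℝ, ‖G f (vert x 1)‖ ≤ A := by
    intro x
    rw [Gs_eq f ha']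
    have := Gs_bound f ha' (z := vert x 1) (by rw [im_vert one_pos])
    rw [im_vert one_pos, sub_self, mul_zero, Real.exp_zero, mul_one] at this
    exact this
  refine ⟨A + 2 * π * C, by positivity, fun x t ht ht1 => ?_⟩
  have hderiv : ∀ s ∈ Set.uIcc t 1, HasDerivAt (fun s : ℝ => G f (vert x s))
      (-(2 * π) * f (vert x s)) s := by
    intro s hs
    rw [Set.uIcc_of_le ht1] at hs
    have hs' : 0 < s := ht.trans_le hs.1
    have h1 := (prim_G f).der (vert x s)
    rw [coe_vert hs'] at h1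
    have h2 : HasDerivAt (fun t : ℝ => (x : ℂ) + (t : ℂ) * Complex.I) Complex.I s := by
      have := ((hasDerivAt_id (s : ℂ)).comp_ofReal.mul_const Complex.I).const_add (x : ℂ)
      simpa using this
    have h3 := HasDerivAt.comp s (h₂ := G f ∘ ofComplex) (by simpa using h1) h2
    have h4 : (2 * π * Complex.I * f (vert x s)) * Complex.I = -(2 * π) * f (vert x s) := by
      linear_combination (2 * π * f (vert x s)) * Complex.I_mul_I
    rw [h4] at h3
    exact h3
  have hcont : ContinuousOn (fun s : ℝ => -(2 * π) * f (vert x s)) (Set.uIcc t 1) := by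
    refine continuousOn_const.mul ((continuousOn_vert f x).mono ?_)
    rw [Set.uIcc_of_le ht1]
    exact fun s hs => ht.trans_le hs.1
  have hint := intervalIntegral.integral_eq_sub_of_hasDerivAt hderiv hcont.intervalIntegrable
  have hle : ‖∫ s in t..1, -(2 * π) * f (vert x s)‖ ≤ ∫ s in t..1, 2 * π * C * (1 / s) := by
    refine intervalIntegral.norm_integral_le_of_norm_le ht1 ?_ ?_
    · refine Eventually.of_forall fun s hs => ?_
      have hs' : 0 < s := ht.trans hs.1
      have h2 := hC' (vert x s)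
      rw [im_vert hs'] at h2
      rw [norm_mul]
      have h3 : ‖(-(2 * π) : ℂ)‖ = 2 * π := by
        rw [norm_neg, norm_mul, Complex.norm_real, Real.norm_of_nonneg Real.pi_pos.le]
        simp
      rw [h3]
      calc 2 * π * ‖f (vert x s)‖ ≤ 2 * π * (C / s) := by
            have := Real.pi_pos
            gcongr
        _ = 2 * π * C * (1 / s) := by ring
    · refine ContinuousOn.intervalIntegrable ?_
      rw [Set.uIcc_of_le ht1]
      refine continuousOn_const.mul (continuousOn_const.div continuousOn_id ?_)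
      intro s hs
      exact (ht.trans_le hs.1).ne'
  rw [hint, intervalIntegral.integral_const_mul, integral_one_div_of_pos ht one_pos] at hle
  have h5 : ‖G f (vert x t)‖ ≤ ‖G f (vert x 1)‖ + ‖G f (vert x 1) - G f (vert x t)‖ := by
    have := norm_sub_le (G f (vert x 1)) (G f (vert x 1) - G f (vert x t))
    rwa [sub_sub_cancel] at this
  have hlog : 0 ≤ Real.log (1 / t) := Real.log_nonneg (by rw [le_div_iff₀ ht]; linarith)
  have h6 := h1 x
  have h7 : 0 ≤ A * Real.log (1 / t) := mul_nonneg hA0 hlog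
  have h8 : 0 ≤ 2 * π * C := by positivity
  nlinarith

theorem bd_bound (f : CuspForm (Gamma0 N) 2) {ε : ℂ} (hF : Fricke f ε)
    (hε : ‖ε‖ = 1) :
    ∃ C : ℝ, ∀ q : ℕ, 0 < q → ∀ b : ℤ, IsCoprime b (q : ℤ) → Nat.Coprime q N →
      ‖bd (G f) (((b : ℚ) / (q : ℚ) : ℚ) : OnePoint ℚ)‖ ≤ C * (1 + Real.log q) := by
  obtain ⟨C, hC0, hC⟩ := G_bound f
  have hN : N ≠ 0 := NeZero.ne N
  have hN1 : (1 : ℝ) ≤ N := by exact_mod_cast Nat.one_le_iff_ne_zero.2 hN
  have hlogN : 0 ≤ Real.log N := Real.log_nonneg hN1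
  refine ⟨C * (2 + Real.log N), fun q hq b hb hqN => ?_⟩
  have hq1 : (1 : ℝ) ≤ q := by exact_mod_cast hq
  have hq0 : (0 : ℝ) < q := by exact_mod_cast hq
  have hlogq : 0 ≤ Real.log q := Real.log_nonneg hq1
  obtain ⟨r, hr⟩ : ∃ r : ℤ, (q : ℤ) ∣ N * r * b - 1 := by
    have h1 : IsCoprime ((N : ℤ) * b) (q : ℤ) := by
      refine IsCoprime.mul_left ?_ hb
      rw [Int.isCoprime_iff_gcd_eq_one]
      exact hqN.symm
    obtain ⟨u, v, huv⟩ := h1
    exact ⟨u, -v, by linear_combination huv⟩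
  rw [bd_eq f hF hq hr (y := 1 / q) (by positivity)]
  have h1 := hC ((b : ℝ) / q) (1 / q) (by positivity) (by
    rw [div_le_one hq0]; exact hq1)
  have h2pos : 0 < 1 / ((N : ℝ) * q ^ 2 * (1 / q)) := by positivity
  have h2eq : 1 / ((N : ℝ) * q ^ 2 * (1 / q)) = 1 / (N * q) := by field_simp
  have h2 := hC (-(r : ℝ) / q) (1 / ((N : ℝ) * q ^ 2 * (1 / q))) h2pos (by
    rw [h2eq, div_le_one (by positivity)]
    nlinarith)
  have h3 : 1 / (1 / ((N : ℝ) * q ^ 2 * (1 / q))) = N * q := by field_simp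
  rw [h3, Real.log_mul (by positivity) hq0.ne'] at h2
  rw [show (1 : ℝ) / (1 / q) = q by field_simp] at h1
  refine (norm_sub_le _ _).trans ?_
  rw [norm_mul, hε, one_mul]
  have h4 : 0 ≤ C * Real.log N := mul_nonneg hC0 hlogN
  have h5 : 0 ≤ C * Real.log N * Real.log q := mul_nonneg h4 hlogq
  nlinarith

end Pool.Agent.MU1
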