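import Mathlib

/-!
# The choice of the parameters
-/

set_option autoImplicit false

open scoped Real

namespace Pool.Agent.MU1

theorem asym (B C1 : ℝ) (hB : 0 ≤ B) (hC1 : 0 ≤ C1) (N : ℕ) (hN : 1 ≤ N) :
    ∃ r : ℕ, 1 ≤ r ∧ ∀ p : ℕ, 3 ≤ p → ∀ q y Y : ℝ, ∀ k D : ℕ, k = 80 * r → D = p ^ (16 * r) →
      q = (p : ℝ) ^ (2 * k) → y = ((p : ℝ) ^ (224 * r))⁻¹ → Y = 1 / (N * q ^ 2 * y) →
      (p : ℝ) ^ 2 * q * B * (2 * π * y * D + (D : ℝ) ^ (9 / 16 - 1 : ℝ) +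
        C1 * ((p : ℝ) ^ (2 * k - 1)) ^ (9 / 16 - 1 : ℝ) *
          ((p : ℝ) ^ (2 * k - 1) * y / D) ^ (-(5 / 8) : ℝ)) +
      D * B * (p * (2 * (p : ℝ) ^ k) * (B * (C1 * Y ^ (-(5 / 8) : ℝ)))) <
      (q - (p : ℝ) ^ (2 * k - 1)) * Real.exp (-2 * π * y) := by
  have hN1 : (1 : ℝ) ≤ N := by exact_mod_cast hN
  set X : ℝ := 7 + 2 * (8 * B + B * C1 + 2 * B ^ 2 * C1 * N) with hX
  have hX0 : 7 ≤ X := by
    have : 0 ≤ 8 * B + B * C1 + 2 * B ^ 2 * C1 * N := by positivity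
    linarith
  obtain ⟨r, hr⟩ := pow_unbounded_of_one_lt X (by norm_num : (1 : ℝ) < 3)
  have hr1 : 1 ≤ r := by
    rcases Nat.eq_zero_or_pos r with rfl | h
    · norm_num at hr
      linarith
    · exact h
  refine ⟨r, hr1, fun p hp q y Y k D hk hD hq hy hY => ?_⟩
  have hp3 : (3 : ℝ) ≤ p := by exact_mod_cast hp
  have hp0 : (0 : ℝ) < p := by linarith
  have hp1 : (1 : ℝ) ≤ p := by linarith
  set P : ℝ := (p : ℝ) ^ r with hP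
  have hPX : X < P := hr.trans_le (pow_le_pow_left₀ (by norm_num) hp3 r)
  have hP0 : 0 < P := by positivity
  have hP1 : 1 ≤ P := by linarith
  have hpP : (p : ℝ) ≤ P := by
    calc (p : ℝ) = (p : ℝ) ^ 1 := (pow_one _).symm
      _ ≤ _ := pow_le_pow_right₀ hp1 hr1
  have hD' : (D : ℝ) = P ^ 16 := by
    rw [hD, hP]; push_cast; rw [← pow_mul, mul_comm]
  have hq' : q = P ^ 160 := by
    rw [hq, hk, hP, ← pow_mul]; congr 1; ring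
  have hy' : y = (P ^ 224)⁻¹ := by
    rw [hy, hP, ← pow_mul, mul_comm]
  have hk' : (p : ℝ) ^ k = P ^ 80 := by
    rw [hk, hP, ← pow_mul]; congr 1; ring
  set M : ℝ := (p : ℝ) ^ (2 * k - 1) with hM
  have hMp : M * p = q := by
    rw [hM, hq, ← pow_succ]; congr 1; omega
  have hM0 : 0 < M := by positivity
  have hMP : P ^ 159 ≤ M := by
    have h1 : P ^ 159 * P = M * p := by rw [hMp, hq']; ring
    have h2 : M * p ≤ M * P := mul_le_mul_of_nonneg_left hpP hM0.le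
    have h3 : P ^ 159 * P ≤ M * P := h1.le.trans h2
    exact le_of_mul_le_mul_right h3 hP0
  have hq0 : 0 < q := by rw [hq']; positivity
  have hy0 : 0 < y := by rw [hy']; positivity
  -- powers of `P`
  have hPm : ∀ (m : ℕ), (P ^ m)⁻¹ ≤ 1 := fun m => inv_le_one_of_one_le₀ (one_le_pow₀ hP1)
  -- the first term
  have ht1 : (p : ℝ) ^ 2 * (2 * π * y * D) ≤ 7 * P⁻¹ := by
    have h1 : (p : ℝ) ^ 2 ≤ P ^ 2 := pow_le_pow_left₀ hp0.le hpP 2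
    have h2 : 2 * π * y * D = 2 * π * (P ^ 208)⁻¹ := by
      rw [hy', hD']
      field_simp
    rw [h2]
    have hpi : 2 * π ≤ 7 := by have := Real.pi_lt_d2; linarith
    calc (p : ℝ) ^ 2 * (2 * π * (P ^ 208)⁻¹) ≤ P ^ 2 * (7 * (P ^ 208)⁻¹) := by
          gcongr
      _ = 7 * P⁻¹ * (P ^ 205)⁻¹ := by field_simp
      _ ≤ 7 * P⁻¹ * 1 := mul_le_mul_of_nonneg_left (hPm 205) (by positivity)
      _ = _ := mul_one _
  have ht2 : (p : ℝ) ^ 2 * (D : ℝ) ^ (9 / 16 - 1 : ℝ) ≤ P⁻¹ := by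
    have h1 : (p : ℝ) ^ 2 ≤ P ^ 2 := pow_le_pow_left₀ hp0.le hpP 2
    have h2 : (D : ℝ) ^ (9 / 16 - 1 : ℝ) = (P ^ 7)⁻¹ := by
      rw [hD', ← Real.rpow_natCast P 16, ← Real.rpow_mul hP0.le, ← Real.rpow_natCast P 7,
        ← Real.rpow_neg hP0.le]
      norm_num
    rw [h2]
    calc (p : ℝ) ^ 2 * (P ^ 7)⁻¹ ≤ P ^ 2 * (P ^ 7)⁻¹ := by gcongr
      _ = P⁻¹ * (P ^ 4)⁻¹ := by field_simp
      _ ≤ P⁻¹ * 1 := mul_le_mul_of_nonneg_left (hPm 4) (by positivity)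
      _ = _ := mul_one _
  have ht3 : (p : ℝ) ^ 2 * (C1 * M ^ (9 / 16 - 1 : ℝ) * (M * y / D) ^ (-(5 / 8) : ℝ)) ≤ C1 * P⁻¹ := by
    have h1 : (p : ℝ) ^ 2 ≤ P ^ 2 := pow_le_pow_left₀ hp0.le hpP 2
    have h2 : M ^ (9 / 16 - 1 : ℝ) ≤ (P ^ 159) ^ (9 / 16 - 1 : ℝ) :=
      Real.rpow_le_rpow_of_nonpos (by positivity) hMP (by norm_num)
    have hb : (P ^ 81)⁻¹ ≤ M * y / D := by
      have : (P ^ 81)⁻¹ = P ^ 159 * y / D := by
        rw [hy', hD']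
        field_simp
      rw [this]
      gcongr
    have h3 : (M * y / D) ^ (-(5 / 8) : ℝ) ≤ ((P ^ 81)⁻¹) ^ (-(5 / 8) : ℝ) :=
      Real.rpow_le_rpow_of_nonpos (by positivity) hb (by norm_num)
    have h4 : (P ^ 159) ^ (9 / 16 - 1 : ℝ) * ((P ^ 81)⁻¹) ^ (-(5 / 8) : ℝ) ≤ (P ^ 3)⁻¹ := by
      have e1 : (P ^ 159) ^ (9 / 16 - 1 : ℝ) = P ^ (159 * (9 / 16 - 1) : ℝ) := by
        rw [← Real.rpow_natCast P 159, ← Real.rpow_mul hP0.le]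
        norm_num
      have e2 : ((P ^ 81)⁻¹) ^ (-(5 / 8) : ℝ) = P ^ (81 * (5 / 8) : ℝ) := by
        rw [← Real.rpow_natCast P 81, ← Real.rpow_neg hP0.le, ← Real.rpow_mul hP0.le]
        norm_num
      have e3 : (P ^ 3)⁻¹ = P ^ (-3 : ℝ) := by
        rw [Real.rpow_neg hP0.le]
        norm_cast
      rw [e1, e2, e3, ← Real.rpow_add hP0]
      exact Real.rpow_le_rpow_of_exponent_le hP1 (by norm_num)
    calc (p : ℝ) ^ 2 * (C1 * M ^ (9 / 16 - 1 : ℝ) * (M * y / D) ^ (-(5 / 8) : ℝ))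
        ≤ P ^ 2 * (C1 * (P ^ 159) ^ (9 / 16 - 1 : ℝ) * ((P ^ 81)⁻¹) ^ (-(5 / 8) : ℝ)) := by
          gcongr
      _ = P ^ 2 * C1 * ((P ^ 159) ^ (9 / 16 - 1 : ℝ) * ((P ^ 81)⁻¹) ^ (-(5 / 8) : ℝ)) := by ring
      _ ≤ P ^ 2 * C1 * (P ^ 3)⁻¹ := mul_le_mul_of_nonneg_left h4 (by positivity)
      _ = C1 * P⁻¹ := by field_simp
  have ht4 : D * B * (p * (2 * (p : ℝ) ^ k) * (B * (C1 * Y ^ (-(5 / 8) : ℝ)))) ≤
      q * (2 * B ^ 2 * C1 * N * P⁻¹) := by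
    have hYv : Y = (N * P ^ 96)⁻¹ := by
      rw [hY, hy', hq']
      field_simp
    have h1 : Y ^ (-(5 / 8) : ℝ) ≤ N * P ^ 60 := by
      have hNP : 0 < (N : ℝ) * P ^ 96 := by positivity
      have e1 : Y ^ (-(5 / 8) : ℝ) = ((N : ℝ) * P ^ 96) ^ (5 / 8 : ℝ) := by
        rw [hYv, Real.inv_rpow hNP.le, ← Real.rpow_neg hNP.le, neg_neg]
      have e2 : (P ^ 96) ^ (5 / 8 : ℝ) = P ^ 60 := by
        rw [← Real.rpow_natCast P 96, ← Real.rpow_mul hP0.le, ← Real.rpow_natCast P 60]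
        norm_num
      have e3 : (N : ℝ) ^ (5 / 8 : ℝ) ≤ N := by
        calc (N : ℝ) ^ (5 / 8 : ℝ) ≤ (N : ℝ) ^ (1 : ℝ) :=
              Real.rpow_le_rpow_of_exponent_le hN1 (by norm_num)
          _ = N := Real.rpow_one _
      rw [e1, Real.mul_rpow (by positivity) (by positivity), e2]
      gcongr
    have hY0 : 0 ≤ Y ^ (-(5 / 8) : ℝ) := by
      have : 0 < Y := by rw [hYv]; positivity
      positivity
    rw [hD', hk', hq']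
    calc P ^ 16 * B * (p * (2 * P ^ 80) * (B * (C1 * Y ^ (-(5 / 8) : ℝ))))
        ≤ P ^ 16 * B * (P * (2 * P ^ 80) * (B * (C1 * (N * P ^ 60)))) := by gcongr
      _ = P ^ 160 * (2 * B ^ 2 * C1 * N * P⁻¹) * (P ^ 2)⁻¹ := by field_simp
      _ ≤ P ^ 160 * (2 * B ^ 2 * C1 * N * P⁻¹) * 1 :=
          mul_le_mul_of_nonneg_left (hPm 2) (mul_nonneg (pow_nonneg hP0.le 160) (by positivity))
      _ = P ^ 160 * (2 * B ^ 2 * C1 * N * P⁻¹) := by rw [mul_one]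
  have hL : q * ((2 / 3) * (1 - 7 * P⁻¹)) ≤ (q - M) * Real.exp (-2 * π * y) := by
    have h1 : (2 / 3) * q ≤ q - M := by
      have : M * 3 ≤ q := by rw [← hMp]; exact mul_le_mul_of_nonneg_left hp3 hM0.le
      linarith
    have h2 : 1 - 7 * P⁻¹ ≤ Real.exp (-2 * π * y) := by
      have h3 := Real.add_one_le_exp (-2 * π * y)
      have h4 : y ≤ P⁻¹ := by
        rw [hy']
        have : P ≤ P ^ 224 := le_self_pow₀ hP1 (by norm_num)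
        exact inv_anti₀ hP0 this
      have h5 : 2 * π ≤ 7 := by have := Real.pi_lt_d2; linarith
      have h6 : 2 * π * y ≤ 7 * P⁻¹ := mul_le_mul h5 h4 hy0.le (by norm_num)
      linarith
    have h7 : 0 ≤ 1 - 7 * P⁻¹ := by
      rw [sub_nonneg, ← div_eq_mul_inv, div_le_one hP0]
      linarith
    calc q * ((2 / 3) * (1 - 7 * P⁻¹)) = ((2 / 3) * q) * (1 - 7 * P⁻¹) := by ring
      _ ≤ (q - M) * Real.exp (-2 * π * y) := mul_le_mul h1 h2 h7 (by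
          have : 0 ≤ (2 / 3) * q := by positivity
          linarith)
  have hsum : (p : ℝ) ^ 2 * q * B * (2 * π * y * D + (D : ℝ) ^ (9 / 16 - 1 : ℝ) +
        C1 * M ^ (9 / 16 - 1 : ℝ) * (M * y / D) ^ (-(5 / 8) : ℝ)) ≤ q * B * (8 * P⁻¹ + C1 * P⁻¹) := by
    calc (p : ℝ) ^ 2 * q * B * (2 * π * y * D + (D : ℝ) ^ (9 / 16 - 1 : ℝ) +
        C1 * M ^ (9 / 16 - 1 : ℝ) * (M * y / D) ^ (-(5 / 8) : ℝ)) =
        q * B * ((p : ℝ) ^ 2 * (2 * π * y * D) + (p : ℝ) ^ 2 * (D : ℝ) ^ (9 / 16 - 1 : ℝ) +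
          (p : ℝ) ^ 2 * (C1 * M ^ (9 / 16 - 1 : ℝ) * (M * y / D) ^ (-(5 / 8) : ℝ))) := by ring
      _ ≤ q * B * (7 * P⁻¹ + P⁻¹ + C1 * P⁻¹) :=
          mul_le_mul_of_nonneg_left (add_le_add (add_le_add ht1 ht2) ht3) (by positivity)
      _ = _ := by ring
  refine lt_of_le_of_lt (add_le_add hsum ht4) (lt_of_lt_of_le ?_ hL)
  have hfin : 8 * B * P⁻¹ + B * C1 * P⁻¹ + 2 * B ^ 2 * C1 * N * P⁻¹ < (2 / 3) * (1 - 7 * P⁻¹) := by
    have h1 : (8 * B + B * C1 + 2 * B ^ 2 * C1 * N) = (X - 7) / 2 := by rw [hX]; ring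
    have h2 : 8 * B * P⁻¹ + B * C1 * P⁻¹ + 2 * B ^ 2 * C1 * N * P⁻¹ = (X - 7) / 2 * P⁻¹ := by
      rw [← h1]; ring
    rw [h2]
    have h3 : X * P⁻¹ < 1 := by
      rw [← div_eq_mul_inv, div_lt_one hP0]
      exact hPX
    have h4 : 7 * P⁻¹ ≤ X * P⁻¹ := mul_le_mul_of_nonneg_right hX0 (by positivity)
    nlinarith
  calc q * B * (8 * P⁻¹ + C1 * P⁻¹) + q * (2 * B ^ 2 * C1 * N * P⁻¹) =
      q * (8 * B * P⁻¹ + B * C1 * P⁻¹ + 2 * B ^ 2 * C1 * N * P⁻¹) := by ring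
    _ < q * ((2 / 3) * (1 - 7 * P⁻¹)) := mul_lt_mul_of_pos_left hfin hq0

end Pool.Agent.MU1
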