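import Pool.Agent.MU1.Defs
import Pool.Agent.MZ.Branch

/-!
# Ramanujan sums and roots of unity modulo prime powers
-/

set_option autoImplicit false

namespace Pool.Agent.MU1

/-- the Ramanujan sum -/
noncomputable def RR (q : ℕ) [NeZero q] (y : ZMod q) : ℂ :=
  ∑ b : (ZMod q)ˣ, ZMod.stdAddChar (y * (b : ZMod q))

theorem RR_norm_le (q : ℕ) [NeZero q] (y : ZMod q) : ‖RR q y‖ ≤ q := by
  rw [RR]
  refine (norm_sum_le _ _).trans ?_
  have h1 : ∀ b ∈ (Finset.univ : Finset (ZMod q)ˣ),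
      ‖(ZMod.stdAddChar (y * (b : ZMod q)) : ℂ)‖ ≤ 1 := fun b _ => (AddChar.norm_apply _ _).le
  refine (Finset.sum_le_sum h1).trans ?_
  rw [Finset.sum_const, Finset.card_univ, ZMod.card_units_eq_totient, nsmul_eq_mul, mul_one]
  exact_mod_cast Nat.totient_le q

theorem RR_zero (q : ℕ) [NeZero q] : RR q 0 = (q.totient : ℂ) := by
  rw [RR]
  simp only [zero_mul, AddChar.map_zero_eq_one]
  rw [Finset.sum_const, Finset.card_univ, ZMod.card_units_eq_totient, nsmul_eq_mul, mul_one]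

/-- the Ramanujan sum vanishes unless `p y = 0` -/
theorem RR_eq_zero {p : ℕ} (hp : p.Prime) {n q : ℕ} [NeZero q] (hq : q = p ^ (n + 1))
    (y : ZMod q) (hy : (p : ZMod q) * y ≠ 0) : RR q y = 0 := by
  -- translation of the units by a multiple of `p`
  have hprim : (ZMod.stdAddChar (N := q)).IsPrimitive := ZMod.isPrimitive_stdAddChar q
  have h1 := hprim hy
  obtain ⟨t, ht⟩ : ∃ t : ZMod q, (ZMod.stdAddChar ((p : ZMod q) * y * t) : ℂ) ≠ 1 := by
    by_contra hcon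
    push Not at hcon
    apply h1
    ext t
    rw [AddChar.mulShift_apply, hcon t, AddChar.one_apply]
  have hunit : ∀ b : ZMod q, IsUnit b → IsUnit (b + (p : ZMod q) * t) := by
    intro b hb
    have hnil : IsNilpotent ((p : ZMod q) * t) := by
      refine ⟨n + 1, ?_⟩
      rw [mul_pow]
      have : (p : ZMod q) ^ (n + 1) = 0 := by
        rw [← Nat.cast_pow, ← hq, ZMod.natCast_self]
      rw [this, zero_mul]
    exact hnil.isUnit_add_left_of_commute hb (Commute.all _ _)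
  have hunit' : ∀ b : ZMod q, IsUnit b → IsUnit (b - (p : ZMod q) * t) := by
    intro b hb
    have hnil : IsNilpotent (-((p : ZMod q) * t)) := by
      refine ⟨n + 1, ?_⟩
      rw [neg_pow, mul_pow]
      have : (p : ZMod q) ^ (n + 1) = 0 := by
        rw [← Nat.cast_pow, ← hq, ZMod.natCast_self]
      rw [this, zero_mul, mul_zero]
    rw [sub_eq_add_neg]
    exact hnil.isUnit_add_left_of_commute hb (Commute.all _ _)
  have h2 : RR q y = ZMod.stdAddChar ((p : ZMod q) * y * t) * RR q y := by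
    conv_lhs => rw [RR]
    rw [RR, Finset.mul_sum]
    symm
    refine Finset.sum_bij' (fun b _ => (hunit b b.isUnit).unit) (fun b _ => (hunit' b b.isUnit).unit)
      ?_ ?_ ?_ ?_ ?_
    · intro b _
      exact Finset.mem_univ _
    · intro b _
      exact Finset.mem_univ _
    · intro b _
      apply Units.ext
      rw [IsUnit.unit_spec, IsUnit.unit_spec]
      ring
    · intro b _
      apply Units.ext
      rw [IsUnit.unit_spec, IsUnit.unit_spec]
      ring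
    · intro b _
      rw [IsUnit.unit_spec, ← AddChar.map_add_eq_mul]
      congr 1
      ring
  have h3 : (ZMod.stdAddChar ((p : ZMod q) * y * t) - 1 : ℂ) * RR q y = 0 := by
    linear_combination -h2
  exact (mul_eq_zero.1 h3).resolve_left (sub_ne_zero.2 ht)

theorem WW_eq_RR (p q : ℕ) [NeZero q] (x : ZMod q) :
    WW p q x = ∑ ζ ∈ HH p q, RR q (x - (ζ : ZMod q)) := rfl

theorem resid_inj {p : ℕ} (hp : p.Prime) {n M : ℕ} [NeZero M] (hM : M = p ^ (n + 1))
    {x y : ZMod M} (hx : x ^ (p - 1) = 1) (hy : y ^ (p - 1) = 1)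
    (hxy : ((x.val : ℕ) : ZMod p) = ((y.val : ℕ) : ZMod p)) : x = y := by
  have hnd : ∀ z : ZMod M, z ^ (p - 1) = 1 → ¬ p ∣ z.val := by
    intro z hz hd
    have h1 : (z.val) ^ (p - 1) ≡ 1 [MOD p ^ (n + 1)] := by
      rw [← hM, ← ZMod.natCast_eq_natCast_iff]
      push_cast
      rw [ZMod.natCast_zmod_val, hz]
    have h2 : (z.val) ^ (p - 1) ≡ 1 [MOD p] := h1.of_dvd (dvd_pow_self p (Nat.succ_ne_zero n))
    have h3 : (z.val) ^ (p - 1) ≡ 0 [MOD p] := by
      rw [Nat.modEq_zero_iff_dvd]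
      exact hd.trans (dvd_pow_self _ (by have := hp.two_le; omega))
    have h4 := (Nat.modEq_iff_dvd' (Nat.zero_le 1)).1 (h3.symm.trans h2)
    simp only [Nat.sub_zero] at h4
    exact hp.one_lt.ne' (Nat.dvd_one.1 h4)
  have hpow : ∀ z : ZMod M, z ^ (p - 1) = 1 → (z.val) ^ (p - 1) ≡ 1 [MOD p ^ (n + 1)] := by
    intro z hz
    rw [← hM, ← ZMod.natCast_eq_natCast_iff]
    push_cast
    rw [ZMod.natCast_zmod_val, hz]
  have h1 := Pool.Agent.MZ.eq_of_log hp (hnd x hx) (hnd y hy)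
    ((hpow x hx).trans (hpow y hy).symm) hxy
  rw [← hM] at h1
  exact ZMod.val_injective _ (Nat.ModEq.eq_of_lt_of_lt h1 (ZMod.val_lt _) (ZMod.val_lt _))

/-- number of solutions of `x ^ (p - 1) = 1` modulo `p ^ n`. -/
theorem card_sol {p : ℕ} (hp : p.Prime) (hp2 : p ≠ 2) {n M : ℕ} [NeZero M] (hn : 1 ≤ n)
    (hM : M = p ^ n) :
    (Finset.univ.filter (fun x : ZMod M => x ^ (p - 1) = 1)).card ≤ p - 1 := by
  have hF : Fact p.Prime := ⟨hp⟩
  obtain ⟨n, rfl⟩ : ∃ m, n = m + 1 := ⟨n - 1, by omega⟩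
  have hcard : ((Finset.univ : Finset (ZMod p)).erase 0).card = p - 1 := by
    rw [Finset.card_erase_of_mem (Finset.mem_univ _), Finset.card_univ, ZMod.card]
  refine le_trans ?_ hcard.le
  refine Finset.card_le_card_of_injOn (fun x => ((x.val : ℕ) : ZMod p)) ?_ ?_
  · intro x hx
    rw [Finset.mem_coe, Finset.mem_filter] at hx
    rw [Finset.mem_coe, Finset.mem_erase]
    refine ⟨?_, Finset.mem_univ _⟩
    intro h0
    -- `x = 0 mod p` contradicts `x ^ (p - 1) = 1`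
    have h1 : (x.val) ^ (p - 1) ≡ 1 [MOD p ^ (n + 1)] := by
      rw [← hM, ← ZMod.natCast_eq_natCast_iff]
      push_cast
      rw [ZMod.natCast_zmod_val, hx.2]
    have h2 : (x.val) ^ (p - 1) ≡ 1 [MOD p] := h1.of_dvd (dvd_pow_self p (Nat.succ_ne_zero n))
    rw [← ZMod.natCast_eq_natCast_iff] at h2
    push_cast at h2
    have h3 : ((x.val : ℕ) : ZMod p) = 0 := h0
    rw [h3, zero_pow (by have := hp.two_le; omega)] at h2
    exact zero_ne_one h2
  · intro x hx y hy hxy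
    rw [Finset.mem_coe, Finset.mem_filter] at hx hy
    exact resid_inj hp hM hx.2 hy.2 hxy

theorem card_HH {p : ℕ} (hp : p.Prime) (hp2 : p ≠ 2) {n q : ℕ} [NeZero q]
    (hq : q = p ^ n) : (HH p q).card ≤ p - 1 := by
  rcases Nat.eq_zero_or_pos n with h0 | hpos
  · subst h0
    rw [pow_zero] at hq
    subst hq
    refine (Finset.card_le_univ _).trans ?_
    rw [ZMod.card_units_eq_totient, Nat.totient_one]
    have := hp.two_le
    omega
  · refine le_trans ?_ (card_sol hp hp2 hpos hq)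
    refine Finset.card_le_card_of_injOn (fun ζ => (ζ : ZMod q)) ?_ ?_
    · intro ζ hζ
      rw [Finset.mem_coe, HH, Finset.mem_filter] at hζ
      rw [Finset.mem_coe, Finset.mem_filter]
      refine ⟨Finset.mem_univ _, ?_⟩
      rw [← Units.val_pow_eq_pow_val, hζ.2, Units.val_one]
    · intro ζ _ ζ' _ h
      exact Units.ext h

theorem WW_norm_le {p : ℕ} (hp : p.Prime) (hp2 : p ≠ 2) {n q : ℕ} [NeZero q] (hn : 1 ≤ n)
    (hq : q = p ^ (n + 1)) (x : ZMod q) : ‖WW p q x‖ ≤ (p - 1 : ℝ) * q := by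
  rw [WW_eq_RR]
  refine (norm_sum_le _ _).trans ?_
  have h0 : ∑ ζ ∈ HH p q, ‖RR q (x - (ζ : ZMod q))‖ ≤ ∑ _ζ ∈ HH p q, (q : ℝ) :=
    Finset.sum_le_sum fun ζ _ => RR_norm_le q (x - (ζ : ZMod q))
  refine h0.trans ?_
  rw [Finset.sum_const, nsmul_eq_mul]
  have h1 : ((HH p q).card : ℝ) ≤ p - 1 := by
    have h2 := card_HH hp hp2 hq
    have h3 : ((p - 1 : ℕ) : ℝ) = (p : ℝ) - 1 := by
      rw [Nat.cast_sub hp.one_lt.le, Nat.cast_one]
    rw [← h3]
    exact_mod_cast h2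
  exact mul_le_mul_of_nonneg_right h1 (Nat.cast_nonneg _)

theorem WW_one {p : ℕ} (hp : p.Prime) (hp2 : p ≠ 2) {n q : ℕ} [NeZero q] (hn : 1 ≤ n)
    (hq : q = p ^ (n + 1)) : WW p q 1 = (q : ℂ) - (p : ℂ) ^ n := by
  have hF : Fact p.Prime := ⟨hp⟩
  rw [WW_eq_RR, Finset.sum_eq_single 1]
  · rw [Units.val_one, sub_self, RR_zero, hq, Nat.totient_prime_pow_succ hp, Nat.cast_mul,
      Nat.cast_sub hp.one_lt.le]
    push_cast
    ring
  · intro ζ hζ hne
    rw [HH, Finset.mem_filter] at hζ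
    apply RR_eq_zero hp hq
    -- `1 - ζ` is a unit
    intro h0
    apply hne
    have hmod : ((p : ZMod q)) * (1 - (ζ : ZMod q)) = 0 := h0
    have h1 : ((q : ℕ) : ℤ) ∣ (p : ℤ) * (1 - ((ζ : ZMod q).val : ℤ)) := by
      rw [← ZMod.intCast_zmod_eq_zero_iff_dvd]
      push_cast
      rw [ZMod.natCast_zmod_val]
      exact hmod
    have hqp : ((q : ℕ) : ℤ) = (p : ℤ) * (p : ℤ) ^ n := by rw [hq]; push_cast; ring
    have hp0 : (p : ℤ) ≠ 0 := by exact_mod_cast hp.ne_zero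
    rw [hqp, mul_dvd_mul_iff_left hp0] at h1
    have h2 : (p : ℤ) ∣ (1 - ((ζ : ZMod q).val : ℤ)) := (dvd_pow_self _ (by omega)).trans h1
    have h3 : ((((ζ : ZMod q).val : ℕ)) : ZMod p) = (((1 : ZMod q).val : ℕ) : ZMod p) := by
      have hq1 : Fact (1 < q) := ⟨by rw [hq]; exact Nat.one_lt_pow (by omega) hp.one_lt⟩
      rw [ZMod.val_one]
      have h4 := (ZMod.intCast_eq_intCast_iff_dvd_sub ((ζ : ZMod q).val : ℤ) 1 p).2 h2
      push_cast at h4
      rw [h4, Nat.cast_one]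
    have h5 := resid_inj hp hq (x := (ζ : ZMod q)) (y := 1)
      (by rw [← Units.val_pow_eq_pow_val, hζ.2, Units.val_one]) (one_pow _) h3
    exact Units.ext h5
  · intro h
    exfalso
    apply h
    rw [HH, Finset.mem_filter]
    exact ⟨Finset.mem_univ _, one_pow _⟩

theorem WW_eq_zero {p : ℕ} (hp : p.Prime) (hp2 : p ≠ 2) {n q : ℕ} [NeZero q] (hn : 1 ≤ n)
    (hq : q = p ^ (n + 1)) (m : ℕ) (hm : ((m : ZMod (p ^ n))) ^ (p - 1) ≠ 1) :
    WW p q (m : ZMod q) = 0 := by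
  rw [WW_eq_RR]
  refine Finset.sum_eq_zero fun ζ hζ => ?_
  rw [HH, Finset.mem_filter] at hζ
  apply RR_eq_zero hp hq
  intro h0
  apply hm
  have h1 : ((q : ℕ) : ℤ) ∣ (p : ℤ) * ((m : ℤ) - ((ζ : ZMod q).val : ℤ)) := by
    rw [← ZMod.intCast_zmod_eq_zero_iff_dvd]
    push_cast
    rw [ZMod.natCast_zmod_val]
    exact h0
  have hqp : ((q : ℕ) : ℤ) = (p : ℤ) * (p : ℤ) ^ n := by rw [hq]; push_cast; ring
  have hp0 : (p : ℤ) ≠ 0 := by exact_mod_cast hp.ne_zero
  rw [hqp, mul_dvd_mul_iff_left hp0] at h1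
  have h2 : ((((ζ : ZMod q).val : ℕ)) : ZMod (p ^ n)) = (m : ZMod (p ^ n)) := by
    have h3 := (ZMod.intCast_eq_intCast_iff_dvd_sub ((ζ : ZMod q).val : ℤ) (m : ℤ) (p ^ n)).2
      (by exact_mod_cast h1)
    push_cast at h3
    exact h3
  have h4 : ((ζ : ZMod q).val) ^ (p - 1) ≡ 1 [MOD p ^ (n + 1)] := by
    rw [← hq, ← ZMod.natCast_eq_natCast_iff]
    push_cast
    rw [ZMod.natCast_zmod_val, ← Units.val_pow_eq_pow_val, hζ.2, Units.val_one]
  have h5 := h4.of_dvd (pow_dvd_pow p (Nat.le_succ n))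
  rw [← ZMod.natCast_eq_natCast_iff] at h5
  push_cast at h5
  rw [h2] at h5
  exact h5

end Pool.Agent.MU1
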