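import Pool.Agent.MU1.Kl
import Pool.Agent.MU1.Kl2

/-!
# The finite Fourier part of the argument
-/

set_option autoImplicit false

open Filter Topology Complex Function Finset
open scoped Real

namespace Pool.Agent.MU1

section vanish

variable {p n q : ℕ} [NeZero q]

/-- the unit `b + t p^n` -/
noncomputable def shift (hn : 1 ≤ n) (hq : q = p ^ (n + 1)) (b : (ZMod q)ˣ) (t : ZMod q) : (ZMod q)ˣ :=
  IsUnit.unit (a := (b : ZMod q) + t * (p : ZMod q) ^ n) (by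
    have hnil : IsNilpotent (t * (p : ZMod q) ^ n) := by
      refine ⟨2, ?_⟩
      rw [mul_pow, ← pow_mul]
      have h1 : ((p : ZMod q)) ^ (n + 1) = 0 := by
        rw [← Nat.cast_pow, ← hq]
        exact ZMod.natCast_self q
      have h2 : n * 2 = (n + 1) + (n - 1) := by omega
      rw [h2, pow_add, h1, zero_mul, mul_zero]
    exact hnil.isUnit_add_left_of_commute b.isUnit (Commute.all _ _))

theorem coe_shift (hn : 1 ≤ n) (hq : q = p ^ (n + 1)) (b : (ZMod q)ˣ) (t : ZMod q) :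
    ((shift hn hq b t : (ZMod q)ˣ) : ZMod q) = b + t * (p : ZMod q) ^ n := IsUnit.unit_spec _

theorem pow_ne (hp : p.Prime) (hq : q = p ^ (n + 1)) : (p : ZMod q) ^ n ≠ 0 := by
  rw [← Nat.cast_pow, Ne, ZMod.natCast_eq_zero_iff, hq]
  intro h
  have h1 := Nat.le_of_dvd (pow_pos hp.pos n) h
  have h2 : p ^ n < p ^ (n + 1) := Nat.pow_lt_pow_right hp.one_lt (Nat.lt_succ_self n)
  omega

/-- If `T(b)` only depends on `b` modulo `p^n` then its Fourier coefficients of conductor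
`q = p^(n+1)` vanish. -/
theorem fourier_zero (hp : p.Prime) (hn : 1 ≤ n) (hq : q = p ^ (n + 1)) (T : (ZMod q)ˣ → ℂ)
    (hT : ∀ b b' : (ZMod q)ˣ, (∃ t : ZMod q, (b' : ZMod q) = b + t * (p : ZMod q) ^ n) → T b = T b')
    (u : (ZMod q)ˣ) : ∑ b : (ZMod q)ˣ, ZMod.stdAddChar (-((u : ZMod q) * (b : ZMod q))) * T b = 0 := by
  set S := ∑ b : (ZMod q)ˣ, ZMod.stdAddChar (-((u : ZMod q) * (b : ZMod q))) * T b with hS
  have h1 : S = ∑ b : (ZMod q)ˣ, ZMod.stdAddChar (-((u : ZMod q) *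
      ((shift hn hq b 1 : (ZMod q)ˣ) : ZMod q))) * T (shift hn hq b 1) := by
    rw [hS]
    symm
    refine Finset.sum_bij' (fun b _ => shift hn hq b 1) (fun b _ => shift hn hq b (-1)) ?_ ?_ ?_ ?_ ?_
    · intro b _; exact mem_univ _
    · intro b _; exact mem_univ _
    · intro b _
      ext
      rw [coe_shift, coe_shift]
      ring
    · intro b _
      ext
      rw [coe_shift, coe_shift]
      ring
    · intro b _
      rfl
  have h2 : S = ZMod.stdAddChar (-((u : ZMod q) * (p : ZMod q) ^ n)) * S := by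
    conv_lhs => rw [h1]
    rw [hS, mul_sum]
    refine sum_congr rfl fun b _ => ?_
    rw [← hT b (shift hn hq b 1) ⟨1, coe_shift hn hq b 1⟩, coe_shift, ← mul_assoc,
      ← AddChar.map_add_eq_mul]
    congr 2
    ring
  have h3 : (ZMod.stdAddChar (-((u : ZMod q) * (p : ZMod q) ^ n)) : ℂ) ≠ 1 := by
    intro h
    rw [← AddChar.map_zero_eq_one (ZMod.stdAddChar (N := q))] at h
    have h4 := ZMod.injective_stdAddChar h
    rw [neg_eq_zero] at h4
    have h5 := (Units.mul_right_eq_zero u).1 h4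
    exact pow_ne hp hq h5
  have h4 : (1 - (ZMod.stdAddChar (-((u : ZMod q) * (p : ZMod q) ^ n)) : ℂ)) * S = 0 := by
    rw [sub_mul, one_mul, ← h2, sub_self]
  rcases mul_eq_zero.1 h4 with h5 | h5
  · exact absurd (sub_eq_zero.1 h5).symm h3
  · exact h5

theorem sum_HH_inv (p : ℕ) (g : (ZMod q)ˣ → ℂ) : ∑ ζ ∈ HH p q, g ζ⁻¹ = ∑ ζ ∈ HH p q, g ζ := by
  refine Finset.sum_bij' (fun ζ _ => ζ⁻¹) (fun ζ _ => ζ⁻¹) ?_ ?_ ?_ ?_ ?_
  · intro ζ hζ
    simp only [HH, mem_filter, mem_univ, true_and] at hζ ⊢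
    rw [inv_pow, hζ, inv_one]
  · intro ζ hζ
    simp only [HH, mem_filter, mem_univ, true_and] at hζ ⊢
    rw [inv_pow, hζ, inv_one]
  · intro ζ _; exact inv_inv ζ
  · intro ζ _; exact inv_inv ζ
  · intro ζ _; rfl

theorem norm_E (x : ZMod q) : ‖(ZMod.stdAddChar x : ℂ)‖ = 1 := by
  rw [ZMod.stdAddChar_apply]
  exact Circle.norm_coe _

/-- The main relation for one `d`. -/
theorem relation (hp : p.Prime) (hp2 : p ≠ 2) {k : ℕ} (hk : 1 ≤ k) (hqk : q = p ^ (2 * k))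
    (α β : ℕ → ℂ) (hα : Summable fun m => ‖α m‖) (hβ : Summable fun m => ‖β m‖)
    (J : (ZMod q)ˣ → ℂ) (w : (ZMod q)ˣ) (ε : ℂ) (hε : ‖ε‖ = 1)
    (hJ : ∀ b : (ZMod q)ˣ, J b =
      ∑' m : ℕ, α m * ZMod.stdAddChar ((m : ZMod q) * (b : ZMod q)) -
      ε * ∑' m : ℕ, β m * ZMod.stdAddChar (-(m : ZMod q) * (((w * b)⁻¹ : (ZMod q)ˣ) : ZMod q)))
    (hT : ∀ b b' : (ZMod q)ˣ, (∃ t : ZMod q, (b' : ZMod q) = b + t * (p : ZMod q) ^ (2 * k - 1)) →
      ∑ ζ ∈ HH p q, J (ζ * b) = ∑ ζ ∈ HH p q, J (ζ * b'))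
    (d : (ZMod q)ˣ) :
    ‖∑' m : ℕ, α m * WW p q ((d : ZMod q) * (m : ZMod q))‖ ≤
      p * (2 * (p : ℝ) ^ k) * ∑' m : ℕ, ‖β m‖ := by
  have hn : 1 ≤ 2 * k - 1 := by omega
  have hq : q = p ^ ((2 * k - 1) + 1) := by rw [hqk]; congr 1; omega
  set E : AddChar (ZMod q) ℂ := ZMod.stdAddChar with hE
  -- Fourier coefficients of `J`
  set R : ZMod q → ℂ := fun x => ∑ b : (ZMod q)ˣ, E (x * (b : ZMod q)) with hR
  set K : ℕ → (ZMod q)ˣ → ℂ := fun m v => ∑ b : (ZMod q)ˣ, E (-((v : ZMod q) * (b : ZMod q)) +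
    -(m : ZMod q) * (((w * b)⁻¹ : (ZMod q)ˣ) : ZMod q)) with hK
  have hRle : ∀ x, ‖R x‖ ≤ Fintype.card (ZMod q)ˣ := by
    intro x
    refine (norm_sum_le _ _).trans ?_
    simp only [hE, norm_E, sum_const, nsmul_eq_mul, mul_one, card_univ]
    exact le_rfl
  have hKle : ∀ m v, ‖K m v‖ ≤ 2 * (p : ℝ) ^ k := by
    intro m v
    have h1 := kloosterman_le hp hp2 hk hqk (-(v : ZMod q)) (-(m : ZMod q) * ((w⁻¹ : (ZMod q)ˣ) : ZMod q))
      v.isUnit.neg
    convert! h1 using 3 with b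
    congr 1
    rw [mul_inv, Units.val_mul]
    ring
  have hαs : Summable α := hα.of_norm
  have hβs : Summable β := hβ.of_norm
  have hαE : ∀ x : ℕ → ZMod q, Summable fun m => α m * E (x m) := by
    intro x
    refine Summable.of_norm ?_
    refine hα.congr fun m => ?_
    rw [norm_mul, hE, norm_E, mul_one]
  have hβE : ∀ x : ℕ → ZMod q, Summable fun m => β m * E (x m) := by
    intro x
    refine Summable.of_norm ?_
    refine hβ.congr fun m => ?_
    rw [norm_mul, hE, norm_E, mul_one]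
  have hA : ∀ v : (ZMod q)ˣ, ∑ b : (ZMod q)ˣ, E (-((v : ZMod q) * (b : ZMod q))) * J b =
      ∑' m : ℕ, α m * R (m - v) - ε * ∑' m : ℕ, β m * K m v := by
    intro v
    have h1 : ∀ b : (ZMod q)ˣ, E (-((v : ZMod q) * (b : ZMod q))) * J b =
        ∑' m : ℕ, α m * E (((m : ZMod q) - v) * (b : ZMod q)) -
        ε * ∑' m : ℕ, β m * E (-((v : ZMod q) * (b : ZMod q)) +
          -(m : ZMod q) * (((w * b)⁻¹ : (ZMod q)ˣ) : ZMod q)) := by
      intro b
      rw [hJ b, mul_sub, ← tsum_mul_left, mul_left_comm, ← tsum_mul_left]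
      congr 1
      · refine tsum_congr fun m => ?_
        rw [mul_left_comm, ← AddChar.map_add_eq_mul]
        congr 2
        ring
      · congr 1
        refine tsum_congr fun m => ?_
        rw [mul_left_comm, ← AddChar.map_add_eq_mul]
    rw [sum_congr rfl fun b _ => h1 b, sum_sub_distrib, ← mul_sum]
    congr 1
    · rw [← Summable.tsum_finsetSum fun b _ => hαE _]
      refine tsum_congr fun m => ?_
      rw [hR, mul_sum]
    · congr 1
      rw [← Summable.tsum_finsetSum fun b _ => hβE _]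
      refine tsum_congr fun m => ?_
      rw [hK, mul_sum]
  -- summation over `H`
  have h0 := fourier_zero hp hn hq (fun b => ∑ ζ ∈ HH p q, J (ζ * b)) hT d⁻¹
  have h1 : ∑ ζ ∈ HH p q, ∑ b : (ZMod q)ˣ, E (-(((d⁻¹ * ζ : (ZMod q)ˣ) : ZMod q) * (b : ZMod q))) * J b
      = 0 := by
    rw [← h0, ← sum_HH_inv]
    simp only [mul_sum]
    rw [sum_comm (s := univ)]
    refine sum_congr rfl fun ζ _ => ?_
    rw [← Equiv.sum_comp (Equiv.mulLeft ζ)]
    refine sum_congr rfl fun b _ => ?_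
    rw [Equiv.coe_mulLeft, ← Units.val_mul, ← Units.val_mul]
    congr 4
    rw [mul_assoc, inv_mul_cancel_left]
  have h2 : ∑ ζ ∈ HH p q, (∑' m : ℕ, α m * R (m - ((d⁻¹ * ζ : (ZMod q)ˣ) : ZMod q)) -
      ε * ∑' m : ℕ, β m * K m (d⁻¹ * ζ)) = 0 := by
    rw [← h1]
    exact sum_congr rfl fun ζ _ => (hA _).symm
  rw [sum_sub_distrib, ← mul_sum, sub_eq_zero] at h2
  have hαR : ∀ x : ℕ → ZMod q, Summable fun m => α m * R (x m) := by
    intro x
    refine Summable.of_norm_bounded (hα.mul_right (Fintype.card (ZMod q)ˣ : ℝ)) fun m => ?_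
    rw [norm_mul]
    exact mul_le_mul_of_nonneg_left (hRle _) (norm_nonneg _)
  have h3 : ∑ ζ ∈ HH p q, ∑' m : ℕ, α m * R (m - ((d⁻¹ * ζ : (ZMod q)ˣ) : ZMod q)) =
      ∑' m : ℕ, α m * WW p q ((d : ZMod q) * (m : ZMod q)) := by
    rw [← Summable.tsum_finsetSum fun b _ => hαR _]
    refine tsum_congr fun m => ?_
    rw [← mul_sum]
    congr 1
    rw [WW]
    refine sum_congr rfl fun ζ _ => ?_
    rw [hR]
    simp only
    rw [← Equiv.sum_comp (Equiv.mulLeft d)]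
    refine sum_congr rfl fun b _ => ?_
    rw [Equiv.coe_mulLeft]
    congr 1
    rw [Units.val_mul, Units.val_mul]
    have : (d : ZMod q) * ((d⁻¹ : (ZMod q)ˣ) : ZMod q) = 1 := by
      rw [← Units.val_mul, mul_inv_cancel, Units.val_one]
    linear_combination (-(ζ : ZMod q) * b) * this
  rw [← h3, h2, norm_mul, hε, one_mul]
  refine (norm_sum_le _ _).trans ?_
  have h4 : ∀ ζ ∈ HH p q, ‖∑' m : ℕ, β m * K m (d⁻¹ * ζ)‖ ≤ 2 * (p : ℝ) ^ k * ∑' m : ℕ, ‖β m‖ := by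
    intro ζ _
    rw [← tsum_mul_left]
    refine tsum_of_norm_bounded (hβ.mul_left _).hasSum fun m => ?_
    rw [norm_mul, mul_comm]
    exact mul_le_mul_of_nonneg_right (hKle _ _) (norm_nonneg _)
  refine (sum_le_card_nsmul _ _ _ h4).trans ?_
  rw [nsmul_eq_mul]
  have h5 : ((HH p q).card : ℝ) ≤ p := by
    have := card_HH hp hp2 hqk
    have h6 : (HH p q).card ≤ p := this.trans (Nat.sub_le _ _)
    exact_mod_cast h6
  have h6 : 0 ≤ 2 * (p : ℝ) ^ k * ∑' m : ℕ, ‖β m‖ := by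
    have : 0 ≤ ∑' m : ℕ, ‖β m‖ := tsum_nonneg fun _ => norm_nonneg _
    positivity
  calc ((HH p q).card : ℝ) * (2 * (p : ℝ) ^ k * ∑' m : ℕ, ‖β m‖)
      ≤ p * (2 * (p : ℝ) ^ k * ∑' m : ℕ, ‖β m‖) := mul_le_mul_of_nonneg_right h5 h6
    _ = _ := by ring

end vanish

end Pool.Agent.MU1
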