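import Pool.Agent.MU1.Core1

/-!
# The main sum
-/

set_option autoImplicit false

open Filter Topology Complex Function Finset
open scoped Real

namespace Pool.Agent.MU1

/-- the basic weight -/
noncomputable def gg (t : ℝ) (m : ℕ) : ℝ := (m : ℝ) ^ (9 / 16 - 1 : ℝ) * Real.exp (-2 * π * m * t)

theorem gg_nonneg (t : ℝ) (m : ℕ) : 0 ≤ gg t m := by
  unfold gg
  positivity

theorem gg_zero (t : ℝ) : gg t 0 = 0 := by
  unfold gg
  rw [Nat.cast_zero, Real.zero_rpow (by norm_num), zero_mul]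

theorem summable_gg {t : ℝ} (ht : 0 < t) : Summable (gg t) := by
  refine Summable.of_nonneg_of_le (gg_nonneg t) (fun m => ?_)
    (summable_geometric_of_lt_one (Real.exp_pos (-2 * π * t)).le
      (by rw [← Real.exp_zero]; exact Real.exp_lt_exp.2 (by nlinarith [mul_pos Real.pi_pos ht])))
  unfold gg
  have h1 : (m : ℝ) ^ (9 / 16 - 1 : ℝ) ≤ 1 := by
    rcases Nat.eq_zero_or_pos m with rfl | hm
    · rw [Nat.cast_zero, Real.zero_rpow (by norm_num)]
      exact zero_le_one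
    · exact Real.rpow_le_one_of_one_le_of_nonpos (by exact_mod_cast hm) (by norm_num)
  have h2 : Real.exp (-2 * π * m * t) = Real.exp (-2 * π * t) ^ m := by
    rw [← Real.exp_nat_mul]
    congr 1
    ring
  rw [h2]
  exact mul_le_of_le_one_left (by positivity) h1

theorem coeff_le {a : ℕ → ℝ} {B : ℝ} (ha : ∀ m : ℕ, |a m| ≤ B * (m : ℝ) ^ (9 / 16 : ℝ)) (t : ℝ)
    (m : ℕ) : |a m / m * Real.exp (-2 * π * m * t)| ≤ B * gg t m := by
  unfold gg
  rw [abs_mul, abs_of_pos (Real.exp_pos _), ← mul_assoc]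
  refine mul_le_mul_of_nonneg_right ?_ (Real.exp_pos _).le
  rcases Nat.eq_zero_or_pos m with rfl | hm
  · rw [Nat.cast_zero, div_zero, abs_zero, Real.zero_rpow (by norm_num), mul_zero]
  · have hm' : (0 : ℝ) < m := by exact_mod_cast hm
    rw [abs_div, abs_of_pos hm', div_le_iff₀ hm', mul_assoc, ← Real.rpow_add_one hm'.ne']
    have : (9 / 16 - 1 + 1 : ℝ) = 9 / 16 := by norm_num
    rw [this]
    exact ha m

section

variable {p n q : ℕ} [NeZero q] (a c : ℕ → ℝ) (y : ℝ)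

/-- the contribution of `d` -/
noncomputable def Fd (d k : ℕ) : ℝ :=
  if d ∣ k then c d * a (k / d) * Real.exp (-2 * π * (k / d : ℕ) * y) / k else 0

theorem Fd_mul {d : ℕ} (hd : 1 ≤ d) (m : ℕ) :
    Fd a c y d (d * m) = c d / d * (a m / m * Real.exp (-2 * π * m * y)) := by
  rw [Fd, if_pos (Dvd.intro m rfl), Nat.mul_div_cancel_left m hd]
  push_cast
  rcases Nat.eq_zero_or_pos m with rfl | hm
  · simp
  · have : (m : ℝ) ≠ 0 := by exact_mod_cast hm.ne'
    have : (d : ℝ) ≠ 0 := by exact_mod_cast (by omega : d ≠ 0)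
    field_simp

variable (p) in
/-- the total weight -/
noncomputable def hh (D k : ℕ) : ℝ := ∑ d ∈ (Icc 1 D).filter (fun d => ¬ p ∣ d), Fd a c y d k

theorem hh_le {B : ℝ}
    (hacb : ∀ m : ℕ, ∑ d ∈ m.divisors, |c d| * |a (m / d)| ≤ B * (m : ℝ) ^ (9 / 16 : ℝ))
    (hy : 0 < y) {D : ℕ} (hD : 1 ≤ D) {k : ℕ} (hk : 1 ≤ k) : |hh p a c y D k| ≤ B * gg (y / D) k := by
  have hk' : (0 : ℝ) < k := by exact_mod_cast hk
  have hD' : (0 : ℝ) < D := by exact_mod_cast hD
  have h1 : |hh p a c y D k| ≤ ∑ d ∈ k.divisors, |c d| * |a (k / d)| *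
      (Real.exp (-2 * π * k * (y / D)) / k) := by
    unfold hh
    refine (abs_sum_le_sum_abs _ _).trans ?_
    have h2 : ∑ d ∈ (Icc 1 D).filter (fun d => ¬ p ∣ d), |Fd a c y d k| =
        ∑ d ∈ ((Icc 1 D).filter (fun d => ¬ p ∣ d)).filter (fun d => d ∣ k), |Fd a c y d k| := by
      rw [sum_filter (fun d => d ∣ k)]
      refine sum_congr rfl fun d _ => ?_
      by_cases h : d ∣ k
      · rw [if_pos h]
      · rw [if_neg h, Fd, if_neg h, abs_zero]
    rw [h2]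
    refine (sum_le_sum (g := fun d => |c d| * |a (k / d)| *
      (Real.exp (-2 * π * k * (y / D)) / k)) ?_).trans ?_
    · intro d hd
      simp only [mem_filter, mem_Icc] at hd
      obtain ⟨⟨⟨hd1, hdD⟩, -⟩, hdk⟩ := hd
      rw [Fd, if_pos hdk, abs_div, abs_mul, abs_mul, abs_of_pos (Real.exp_pos _), abs_of_pos hk',
        mul_div_assoc]
      refine mul_le_mul_of_nonneg_left ?_ (by positivity)
      refine div_le_div_of_nonneg_right (Real.exp_le_exp.2 ?_) hk'.le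
      have h3 : (k : ℝ) / D ≤ ((k / d : ℕ) : ℝ) := by
        rw [Nat.cast_div hdk (by exact_mod_cast (by omega : d ≠ 0))]
        have hd1' : (0 : ℝ) < d := by exact_mod_cast hd1
        have hdD' : (d : ℝ) ≤ D := by exact_mod_cast hdD
        exact div_le_div_of_nonneg_left hk'.le hd1' hdD'
      have h4 : (k : ℝ) * (y / D) ≤ ((k / d : ℕ) : ℝ) * y := by
        calc (k : ℝ) * (y / D) = k / D * y := by ring
          _ ≤ _ := mul_le_mul_of_nonneg_right h3 hy.le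
      nlinarith [Real.pi_pos]
    · refine sum_le_sum_of_subset_of_nonneg ?_ fun d _ _ => by positivity
      intro d hd
      simp only [mem_filter, mem_Icc] at hd
      exact Nat.mem_divisors.2 ⟨hd.2, by omega⟩
  refine h1.trans ?_
  rw [← sum_mul, gg]
  have h2 : B * ((k : ℝ) ^ (9 / 16 - 1 : ℝ) * Real.exp (-2 * π * k * (y / D))) =
      B * (k : ℝ) ^ (9 / 16 : ℝ) * (Real.exp (-2 * π * k * (y / D)) / k) := by
    rw [Real.rpow_sub_one hk'.ne']
    ring
  rw [h2]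
  exact mul_le_mul_of_nonneg_right (hacb k) (by positivity)

theorem hh_small {B : ℝ} (hB : 0 ≤ B)
    (hac : ∀ m : ℕ, 2 ≤ m → ∑ d ∈ m.divisors, c d * a (m / d) = 0)
    (hacb : ∀ m : ℕ, ∑ d ∈ m.divisors, |c d| * |a (m / d)| ≤ B * (m : ℝ) ^ (9 / 16 : ℝ))
    (hy : 0 < y) {D k : ℕ} (hk : 2 ≤ k) (hkD : k ≤ D) (hpk : ¬ p ∣ k) :
    |hh p a c y D k| ≤ B * (2 * π * y * D) := by
  have hk' : (0 : ℝ) < k := by exact_mod_cast (by omega : 0 < k)
  have h1 : hh p a c y D k = ∑ d ∈ k.divisors, c d * a (k / d) *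
      (Real.exp (-2 * π * (k / d : ℕ) * y) - 1) / k := by
    have h2 : hh p a c y D k = ∑ d ∈ k.divisors, c d * a (k / d) *
      Real.exp (-2 * π * (k / d : ℕ) * y) / k := by
      unfold hh
      have h3 : k.divisors = ((Icc 1 D).filter (fun d => ¬ p ∣ d)).filter (fun d => d ∣ k) := by
        ext d
        simp only [mem_filter, mem_Icc, Nat.mem_divisors]
        constructor
        · rintro ⟨h, h0⟩
          exact ⟨⟨⟨Nat.pos_of_dvd_of_pos h (by omega), (Nat.le_of_dvd (by omega) h).trans hkD⟩,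
            fun hp => hpk (hp.trans h)⟩, h⟩
        · rintro ⟨-, h⟩
          exact ⟨h, by omega⟩
      rw [h3, sum_filter (fun d => d ∣ k)]
      refine sum_congr rfl fun d _ => ?_
      rw [Fd]
    rw [h2]
    have h3 := hac k hk
    have h4 : ∑ d ∈ k.divisors, c d * a (k / d) * (Real.exp (-2 * π * (k / d : ℕ) * y) - 1) / k =
        ∑ d ∈ k.divisors, c d * a (k / d) * Real.exp (-2 * π * (k / d : ℕ) * y) / k -
          (∑ d ∈ k.divisors, c d * a (k / d)) / k := by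
      rw [sum_div, ← sum_sub_distrib]
      refine sum_congr rfl fun d _ => by ring
    rw [h4, h3, zero_div, sub_zero]
  rw [h1]
  refine (abs_sum_le_sum_abs _ _).trans ?_
  have h5 : ∀ d ∈ k.divisors, |c d * a (k / d) * (Real.exp (-2 * π * (k / d : ℕ) * y) - 1) / k| ≤
      |c d| * |a (k / d)| * (2 * π * y) := by
    intro d hd
    rw [abs_div, abs_mul, abs_mul, abs_of_pos hk', mul_div_assoc]
    refine mul_le_mul_of_nonneg_left ?_ (by positivity)
    have h6 : ((k / d : ℕ) : ℝ) ≤ k := by exact_mod_cast Nat.div_le_self k d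
    have h7 : 0 ≤ 2 * π * ((k / d : ℕ) : ℝ) * y := by positivity
    have h8 : |Real.exp (-2 * π * (k / d : ℕ) * y) - 1| ≤ 2 * π * ((k / d : ℕ) : ℝ) * y := by
      rw [abs_le]
      constructor
      · have := Real.add_one_le_exp (-2 * π * ((k / d : ℕ) : ℝ) * y)
        linarith
      · have : Real.exp (-2 * π * ((k / d : ℕ) : ℝ) * y) ≤ 1 := Real.exp_le_one_iff.2 (by linarith)
        linarith
    rw [div_le_iff₀ hk']
    refine h8.trans ?_
    have : 0 ≤ 2 * π * y := by positivity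
    nlinarith
  refine (sum_le_sum h5).trans ?_
  rw [← sum_mul]
  refine (mul_le_mul_of_nonneg_right (hacb k) (by positivity)).trans ?_
  have h9 : (k : ℝ) ^ (9 / 16 : ℝ) ≤ D := by
    have h10 : (k : ℝ) ^ (9 / 16 : ℝ) ≤ (k : ℝ) ^ (1 : ℝ) :=
      Real.rpow_le_rpow_of_exponent_le (by exact_mod_cast (by omega : 1 ≤ k)) (by norm_num)
    rw [Real.rpow_one] at h10
    exact h10.trans (by exact_mod_cast hkD)
  have h10 : 0 ≤ B * (2 * π * y) := by positivity
  calc B * (k : ℝ) ^ (9 / 16 : ℝ) * (2 * π * y) = B * (2 * π * y) * (k : ℝ) ^ (9 / 16 : ℝ) := by ring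
    _ ≤ B * (2 * π * y) * D := mul_le_mul_of_nonneg_left h9 h10
    _ = _ := by ring

theorem hh_zero (D : ℕ) : hh p a c y D 0 = 0 := by
  unfold hh
  refine sum_eq_zero fun d _ => ?_
  rw [Fd, if_pos (dvd_zero d)]
  simp

theorem hh_one (hp : p.Prime) (ha1 : a 1 = 1) (hc1 : c 1 = 1) {D : ℕ} (hD : 1 ≤ D) :
    hh p a c y D 1 = Real.exp (-2 * π * y) := by
  unfold hh
  rw [sum_eq_single 1]
  · rw [Fd, if_pos (dvd_refl 1)]
    simp [ha1, hc1]
  · intro d _ hd1
    rw [Fd, if_neg]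
    intro h
    exact hd1 (Nat.dvd_one.1 h)
  · intro h
    exfalso
    apply h
    rw [mem_filter, mem_Icc]
    exact ⟨⟨le_rfl, hD⟩, fun h => hp.one_lt.ne' (Nat.dvd_one.1 h)⟩

theorem summable_Fd {B : ℝ} (ha : ∀ m : ℕ, |a m| ≤ B * (m : ℝ) ^ (9 / 16 : ℝ)) (hy : 0 < y)
    {d : ℕ} (hd : 1 ≤ d) : Summable (Fd a c y d) := by
  have hinj : Function.Injective (fun m : ℕ => d * m) := fun x z h => by
    exact Nat.eq_of_mul_eq_mul_left hd h
  have hsupp : ∀ x ∉ Set.range (fun m : ℕ => d * m), Fd a c y d x = 0 := by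
    intro x hx
    rw [Fd, if_neg]
    rintro ⟨m, rfl⟩
    exact hx ⟨m, rfl⟩
  rw [← hinj.summable_iff hsupp]
  refine Summable.of_norm_bounded (((summable_gg hy).mul_left B).mul_left |c d / d|) fun m => ?_
  simp only [comp_apply]
  rw [Fd_mul a c y hd, Real.norm_eq_abs, abs_mul]
  exact mul_le_mul_of_nonneg_left (coeff_le ha y m) (abs_nonneg _)

theorem tsum_Fd {B : ℝ} (ha : ∀ m : ℕ, |a m| ≤ B * (m : ℝ) ^ (9 / 16 : ℝ)) (hy : 0 < y)
    {d : ℕ} (hd : 1 ≤ d) (W : ℕ → ℂ) {A : ℝ} (hW : ∀ k, ‖W k‖ ≤ A) :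
    Summable (fun k : ℕ => ((Fd a c y d k : ℝ) : ℂ) * W k) ∧
    ∑' k : ℕ, ((Fd a c y d k : ℝ) : ℂ) * W k =
      ((c d / d : ℝ) : ℂ) * ∑' m : ℕ, ((a m / m * Real.exp (-2 * π * m * y) : ℝ) : ℂ) * W (d * m) := by
  have hinj : Function.Injective (fun m : ℕ => d * m) := fun x z h => by
    exact Nat.eq_of_mul_eq_mul_left hd h
  constructor
  · refine Summable.of_norm_bounded ((summable_Fd a c y ha hy hd).norm.mul_right A) fun k => ?_
    rw [norm_mul, Complex.norm_real]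
    exact mul_le_mul_of_nonneg_left (hW k) (norm_nonneg _)
  · rw [← hinj.tsum_eq, ← tsum_mul_left]
    · refine tsum_congr fun m => ?_
      rw [Fd_mul a c y hd]
      push_cast
      ring
    · intro x hx
      by_contra h
      apply hx
      simp only
      rw [Fd, if_neg]
      · simp
      · rintro ⟨m, rfl⟩
        exact h ⟨m, rfl⟩

theorem summable_hh {B : ℝ} (ha : ∀ m : ℕ, |a m| ≤ B * (m : ℝ) ^ (9 / 16 : ℝ)) (hy : 0 < y)
    (D : ℕ) : Summable (hh p a c y D) := by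
  unfold hh
  refine summable_sum fun d hd => ?_
  rw [mem_filter, mem_Icc] at hd
  exact summable_Fd a c y ha hy hd.1.1

theorem tsum_hh {B : ℝ} (ha : ∀ m : ℕ, |a m| ≤ B * (m : ℝ) ^ (9 / 16 : ℝ)) (hy : 0 < y)
    (D : ℕ) (W : ℕ → ℂ) {A : ℝ} (hW : ∀ k, ‖W k‖ ≤ A) :
    ∑' k : ℕ, ((hh p a c y D k : ℝ) : ℂ) * W k =
      ∑ d ∈ (Icc 1 D).filter (fun d => ¬ p ∣ d), ((c d / d : ℝ) : ℂ) *
        ∑' m : ℕ, ((a m / m * Real.exp (-2 * π * m * y) : ℝ) : ℂ) * W (d * m) := by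
  have h1 : ∀ d ∈ (Icc 1 D).filter (fun d => ¬ p ∣ d), ((c d / d : ℝ) : ℂ) *
        ∑' m : ℕ, ((a m / m * Real.exp (-2 * π * m * y) : ℝ) : ℂ) * W (d * m) =
        ∑' k : ℕ, ((Fd a c y d k : ℝ) : ℂ) * W k := by
    intro d hd
    rw [mem_filter, mem_Icc] at hd
    exact (tsum_Fd a c y ha hy hd.1.1 W hW).2.symm
  rw [sum_congr rfl h1, ← Summable.tsum_finsetSum]
  · refine tsum_congr fun k => ?_
    rw [hh]
    push_cast
    rw [sum_mul]
  · intro d hd
    rw [mem_filter, mem_Icc] at hd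
    exact (tsum_Fd a c y ha hy hd.1.1 W hW).1

/-- The sum over the residue classes. -/
theorem tail_bound (hp : p.Prime) (hp2 : p ≠ 2) {M : ℕ} [NeZero M] (hn : 1 ≤ n) (hM : M = p ^ n)
    {B : ℝ} (hB : 0 ≤ B)
    (ha : ∀ m : ℕ, |a m| ≤ B * (m : ℝ) ^ (9 / 16 : ℝ))
    (hac : ∀ m : ℕ, 2 ≤ m → ∑ d ∈ m.divisors, c d * a (m / d) = 0)
    (hacb : ∀ m : ℕ, ∑ d ∈ m.divisors, |c d| * |a (m / d)| ≤ B * (m : ℝ) ^ (9 / 16 : ℝ))
    (hy : 0 < y) {D : ℕ} (hD : 1 ≤ D) (C1 : ℝ)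
    (hC1 : ∀ t : ℝ, 0 < t → ∑' m : ℕ, gg t m ≤ C1 * t ^ (-(5 / 8) : ℝ)) :
    ∑' k : ℕ, (if 2 ≤ k ∧ (k : ZMod M) ^ (p - 1) = 1 then |hh p a c y D k| else 0) ≤
      p * (B * (2 * π * y * D + (D : ℝ) ^ (9 / 16 - 1 : ℝ) +
        C1 * (M : ℝ) ^ (9 / 16 - 1 : ℝ) * ((M : ℝ) * y / D) ^ (-(5 / 8) : ℝ))) := by
  have hD' : (0 : ℝ) < D := by exact_mod_cast hD
  have hM0 : 0 < M := by rw [hM]; exact pow_pos hp.pos n
  have hM' : (0 : ℝ) < M := by exact_mod_cast hM0
  set u : ℕ → ℝ := fun k => if 2 ≤ k ∧ (k : ZMod M) ^ (p - 1) = 1 then |hh p a c y D k| else 0 with hu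
  have hu0 : ∀ k, 0 ≤ u k := by
    intro k
    rw [hu]
    simp only
    split_ifs
    · exact abs_nonneg _
    · exact le_rfl
  have hus : Summable u := by
    refine Summable.of_nonneg_of_le hu0 (fun k => ?_) (summable_hh (p := p) a c y ha hy D).norm
    rw [hu]
    simp only
    split_ifs
    · exact le_rfl
    · exact norm_nonneg _
  set X : ℝ := B * (2 * π * y * D + (D : ℝ) ^ (9 / 16 - 1 : ℝ) +
        C1 * (M : ℝ) ^ (9 / 16 - 1 : ℝ) * ((M : ℝ) * y / D) ^ (-(5 / 8) : ℝ)) with hX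
  have hfirst : ∀ k : ℕ, u k ≤ B * (2 * π * y * D + (D : ℝ) ^ (9 / 16 - 1 : ℝ)) := by
    intro k
    have hpos : 0 ≤ B * (2 * π * y * D + (D : ℝ) ^ (9 / 16 - 1 : ℝ)) := by positivity
    rw [hu]
    simp only
    split_ifs with h
    · obtain ⟨h2, h3⟩ := h
      have hpk : ¬ p ∣ k := by
        intro h4
        have h5 : IsUnit (k : ZMod M) := by
          refine IsUnit.of_mul_eq_one ((k : ZMod M) ^ (p - 2)) ?_
          rw [← pow_succ']
          have : p - 2 + 1 = p - 1 := by have := hp.two_le; omega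
          rw [this, h3]
        rw [ZMod.isUnit_iff_coprime, hM] at h5
        have h6 := Nat.Coprime.coprime_dvd_right (dvd_pow_self p (by omega : n ≠ 0)) h5
        have h7 := Nat.Coprime.eq_one_of_dvd h6.symm h4
        exact hp.one_lt.ne' h7
      by_cases hkD : k ≤ D
      · refine (hh_small a c y hB hac hacb hy h2 hkD hpk).trans ?_
        refine mul_le_mul_of_nonneg_left ?_ hB
        have : 0 ≤ (D : ℝ) ^ (9 / 16 - 1 : ℝ) := by positivity
        linarith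
      · refine (hh_le a c y hacb hy hD (by omega : 1 ≤ k)).trans ?_
        refine mul_le_mul_of_nonneg_left ?_ hB
        have h4 : gg (y / D) k ≤ (D : ℝ) ^ (9 / 16 - 1 : ℝ) := by
          unfold gg
          have h5 : (k : ℝ) ^ (9 / 16 - 1 : ℝ) ≤ (D : ℝ) ^ (9 / 16 - 1 : ℝ) :=
            Real.rpow_le_rpow_of_nonpos hD' (by exact_mod_cast (by omega : D ≤ k)) (by norm_num)
          have h6 : Real.exp (-2 * π * k * (y / D)) ≤ 1 := Real.exp_le_one_iff.2 (by
            have : 0 ≤ 2 * π * k * (y / D) := by positivity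
            linarith)
          calc (k : ℝ) ^ (9 / 16 - 1 : ℝ) * Real.exp (-2 * π * k * (y / D)) ≤
              (k : ℝ) ^ (9 / 16 - 1 : ℝ) * 1 := mul_le_mul_of_nonneg_left h6 (by positivity)
            _ ≤ _ := by rw [mul_one]; exact h5
        have : 0 ≤ 2 * π * y * D := by positivity
        linarith
    · exact hpos
  have hrest : ∀ (j m : ℕ), u (j + M * (m + 1)) ≤
      B * (M : ℝ) ^ (9 / 16 - 1 : ℝ) * gg ((M : ℝ) * y / D) (m + 1) := by
    intro j m
    have hm : (0 : ℝ) < ((m + 1 : ℕ) : ℝ) := by positivity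
    have hpos : 0 ≤ B * (M : ℝ) ^ (9 / 16 - 1 : ℝ) * gg ((M : ℝ) * y / D) (m + 1) :=
      mul_nonneg (by positivity) (gg_nonneg _ _)
    rw [hu]
    simp only
    split_ifs with h
    · have hk1 : 1 ≤ j + M * (m + 1) := by
        have : 1 ≤ M * (m + 1) := Nat.mul_pos hM0 (Nat.succ_pos m)
        omega
      refine (hh_le a c y hacb hy hD hk1).trans ?_
      rw [mul_assoc]
      refine mul_le_mul_of_nonneg_left ?_ hB
      unfold gg
      have h1 : (M : ℝ) * ((m + 1 : ℕ) : ℝ) ≤ ((j + M * (m + 1) : ℕ) : ℝ) := by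
        push_cast
        have : (0 : ℝ) ≤ j := Nat.cast_nonneg j
        linarith
      have h2 : ((j + M * (m + 1) : ℕ) : ℝ) ^ (9 / 16 - 1 : ℝ) ≤
          (M : ℝ) ^ (9 / 16 - 1 : ℝ) * ((m + 1 : ℕ) : ℝ) ^ (9 / 16 - 1 : ℝ) := by
        rw [← Real.mul_rpow hM'.le hm.le]
        exact Real.rpow_le_rpow_of_nonpos (by positivity) h1 (by norm_num)
      have h3 : Real.exp (-2 * π * ((j + M * (m + 1) : ℕ) : ℝ) * (y / D)) ≤
          Real.exp (-2 * π * ((m + 1 : ℕ) : ℝ) * ((M : ℝ) * y / D)) := by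
        refine Real.exp_le_exp.2 ?_
        have h4 : ((m + 1 : ℕ) : ℝ) * ((M : ℝ) * y / D) ≤ ((j + M * (m + 1) : ℕ) : ℝ) * (y / D) := by
          calc ((m + 1 : ℕ) : ℝ) * ((M : ℝ) * y / D) = (M : ℝ) * ((m + 1 : ℕ) : ℝ) * (y / D) := by ring
            _ ≤ _ := mul_le_mul_of_nonneg_right h1 (by positivity)
        nlinarith [Real.pi_pos]
      calc ((j + M * (m + 1) : ℕ) : ℝ) ^ (9 / 16 - 1 : ℝ) *
            Real.exp (-2 * π * ((j + M * (m + 1) : ℕ) : ℝ) * (y / D))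
          ≤ ((M : ℝ) ^ (9 / 16 - 1 : ℝ) * ((m + 1 : ℕ) : ℝ) ^ (9 / 16 - 1 : ℝ)) *
            Real.exp (-2 * π * ((m + 1 : ℕ) : ℝ) * ((M : ℝ) * y / D)) :=
            mul_le_mul h2 h3 (Real.exp_pos _).le (by positivity)
        _ = _ := by ring
    · exact hpos
  have hclass : ∀ j : ZMod M, ∑' m : ℕ, u (j.val + M * m) ≤ if j ^ (p - 1) = 1 then X else 0 := by
    intro j
    have hcast : ∀ m : ℕ, ((j.val + M * m : ℕ) : ZMod M) = j := by
      intro m
      push_cast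
      rw [ZMod.natCast_self, zero_mul, add_zero, ZMod.natCast_val, ZMod.cast_id', id]
    split_ifs with h
    · have hs : Summable fun m : ℕ => u (j.val + M * m) := by
        refine hus.comp_injective ?_
        intro x z hxz
        simp only at hxz
        exact Nat.eq_of_mul_eq_mul_left hM0 (by omega)
      rw [hs.tsum_eq_zero_add]
      have h1 : ∑' m : ℕ, u (j.val + M * (m + 1)) ≤
          B * (M : ℝ) ^ (9 / 16 - 1 : ℝ) * (C1 * ((M : ℝ) * y / D) ^ (-(5 / 8) : ℝ)) := by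
        have ht : 0 < (M : ℝ) * y / D := by positivity
        have hgs := summable_gg ht
        have h2 : ∑' m : ℕ, gg ((M : ℝ) * y / D) (m + 1) ≤ C1 * ((M : ℝ) * y / D) ^ (-(5 / 8) : ℝ) := by
          refine le_trans (le_of_eq ?_) (hC1 _ ht)
          rw [hgs.tsum_eq_zero_add, gg_zero, zero_add]
        calc ∑' m : ℕ, u (j.val + M * (m + 1)) ≤
            ∑' m : ℕ, B * (M : ℝ) ^ (9 / 16 - 1 : ℝ) * gg ((M : ℝ) * y / D) (m + 1) := by
              refine Summable.tsum_le_tsum (fun m => hrest _ m) ?_ ?_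
              · exact (summable_nat_add_iff (f := fun m : ℕ => u (j.val + M * m)) 1).2 hs
              · exact ((summable_nat_add_iff (f := gg ((M : ℝ) * y / D)) 1).2 hgs).mul_left _
          _ = B * (M : ℝ) ^ (9 / 16 - 1 : ℝ) * ∑' m : ℕ, gg ((M : ℝ) * y / D) (m + 1) :=
              tsum_mul_left
          _ ≤ _ := mul_le_mul_of_nonneg_left h2 (by positivity)
      have h2 := hfirst (j.val + M * 0)
      rw [hX]
      calc u (j.val + M * 0) + ∑' m : ℕ, u (j.val + M * (m + 1)) ≤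
          B * (2 * π * y * D + (D : ℝ) ^ (9 / 16 - 1 : ℝ)) +
          B * (M : ℝ) ^ (9 / 16 - 1 : ℝ) * (C1 * ((M : ℝ) * y / D) ^ (-(5 / 8) : ℝ)) := add_le_add h2 h1
        _ = _ := by ring
    · refine le_of_eq ?_
      rw [← tsum_zero (α := ℝ) (β := ℕ)]
      refine tsum_congr fun m => ?_
      rw [hu]
      simp only
      rw [if_neg]
      rintro ⟨-, h3⟩
      rw [hcast] at h3
      exact h h3
  rw [Nat.sumByResidueClasses hus M]
  refine (sum_le_sum fun j _ => hclass j).trans ?_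
  rw [← sum_filter, sum_const, nsmul_eq_mul]
  have hX0 : 0 ≤ X := by
    have h1 := hC1 1 one_pos
    have h2 : 0 ≤ ∑' m : ℕ, gg 1 m := tsum_nonneg (gg_nonneg 1)
    rw [Real.one_rpow, mul_one] at h1
    have h3 : 0 ≤ C1 := h2.trans h1
    rw [hX]
    positivity
  have h1 : (((univ.filter (fun x : ZMod M => x ^ (p - 1) = 1)).card : ℕ) : ℝ) ≤ p := by
    have := card_sol hp hp2 hn hM
    have h6 := this.trans (Nat.sub_le p 1)
    exact_mod_cast h6
  exact mul_le_mul_of_nonneg_right h1 hX0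

end

end Pool.Agent.MU1
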