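import Pool.Agent.MU1.Core2

/-!
# The basic inequality
-/

set_option autoImplicit false

open Filter Topology Complex Function Finset
open scoped Real

namespace Pool.Agent.MU1

theorem core {p : ℕ} (hp : p.Prime) (hp2 : p ≠ 2) {k q : ℕ} [NeZero q] (hk : 1 ≤ k)
    (hq : q = p ^ (2 * k)) (a c : ℕ → ℝ) {B : ℝ} (hB : 0 ≤ B)
    (ha1 : a 1 = 1) (hc1 : c 1 = 1)
    (hac : ∀ m : ℕ, 2 ≤ m → ∑ d ∈ m.divisors, c d * a (m / d) = 0)
    (ha : ∀ m : ℕ, |a m| ≤ B * (m : ℝ) ^ (9 / 16 : ℝ))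
    (hc : ∀ m : ℕ, |c m| ≤ B * (m : ℝ) ^ (9 / 16 : ℝ))
    (hacb : ∀ m : ℕ, ∑ d ∈ m.divisors, |c d| * |a (m / d)| ≤ B * (m : ℝ) ^ (9 / 16 : ℝ))
    (J : (ZMod q)ˣ → ℂ) (w : (ZMod q)ˣ) (ε : ℂ) (hε : ‖ε‖ = 1) {y Y : ℝ} (hy : 0 < y) (hY : 0 < Y)
    (hJ : ∀ b : (ZMod q)ˣ, J b =
      ∑' m : ℕ, ((a m / m * Real.exp (-2 * π * m * y) : ℝ) : ℂ) *
        ZMod.stdAddChar ((m : ZMod q) * (b : ZMod q)) -
      ε * ∑' m : ℕ, ((a m / m * Real.exp (-2 * π * m * Y) : ℝ) : ℂ) *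
        ZMod.stdAddChar (-(m : ZMod q) * (((w * b)⁻¹ : (ZMod q)ˣ) : ZMod q)))
    (hT : ∀ b b' : (ZMod q)ˣ, (∃ t : ZMod q, (b' : ZMod q) = b + t * (p : ZMod q) ^ (2 * k - 1)) →
      ∑ ζ ∈ HH p q, J (ζ * b) = ∑ ζ ∈ HH p q, J (ζ * b'))
    {D : ℕ} (hD : 1 ≤ D) (C1 : ℝ)
    (hC1 : ∀ t : ℝ, 0 < t → ∑' m : ℕ, gg t m ≤ C1 * t ^ (-(5 / 8) : ℝ)) :
    ((q : ℝ) - (p : ℝ) ^ (2 * k - 1)) * Real.exp (-2 * π * y) ≤
      (p : ℝ) ^ 2 * q * B * (2 * π * y * D + (D : ℝ) ^ (9 / 16 - 1 : ℝ) +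
        C1 * ((p : ℝ) ^ (2 * k - 1)) ^ (9 / 16 - 1 : ℝ) *
          ((p : ℝ) ^ (2 * k - 1) * y / D) ^ (-(5 / 8) : ℝ)) +
      D * B * (p * (2 * (p : ℝ) ^ k) * (B * (C1 * Y ^ (-(5 / 8) : ℝ)))) := by
  set n : ℕ := 2 * k - 1 with hn
  have hn1 : 1 ≤ n := by omega
  have hqn : q = p ^ (n + 1) := by rw [hq]; congr 1; omega
  have hp1 : (1 : ℝ) ≤ p := by exact_mod_cast hp.one_lt.le
  have hNZ : NeZero (p ^ n) := ⟨pow_ne_zero _ hp.ne_zero⟩
  have hq0 : (0 : ℝ) ≤ q := Nat.cast_nonneg q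
  -- the weights
  set α : ℕ → ℂ := fun m => ((a m / m * Real.exp (-2 * π * m * y) : ℝ) : ℂ) with hα
  set β : ℕ → ℂ := fun m => ((a m / m * Real.exp (-2 * π * m * Y) : ℝ) : ℂ) with hβ
  have hαs : Summable fun m => ‖α m‖ := by
    refine Summable.of_nonneg_of_le (fun _ => norm_nonneg _) (fun m => ?_) ((summable_gg hy).mul_left B)
    rw [hα, Complex.norm_real, Real.norm_eq_abs]
    exact coeff_le ha y m
  have hβle : ∀ m, ‖β m‖ ≤ B * gg Y m := by
    intro m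
    rw [hβ, Complex.norm_real, Real.norm_eq_abs]
    exact coeff_le ha Y m
  have hβs : Summable fun m => ‖β m‖ :=
    Summable.of_nonneg_of_le (fun _ => norm_nonneg _) hβle ((summable_gg hY).mul_left B)
  have hβsum : ∑' m, ‖β m‖ ≤ B * (C1 * Y ^ (-(5 / 8) : ℝ)) := by
    calc ∑' m, ‖β m‖ ≤ ∑' m, B * gg Y m := hβs.tsum_le_tsum hβle ((summable_gg hY).mul_left B)
      _ = B * ∑' m, gg Y m := tsum_mul_left
      _ ≤ _ := mul_le_mul_of_nonneg_left (hC1 Y hY) hB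
  have hrel := relation hp hp2 hk hq α β hαs hβs J w ε hε hJ hT
  have hWle : ∀ m : ℕ, ‖WW p q (m : ZMod q)‖ ≤ (p - 1 : ℝ) * q := fun m => WW_norm_le hp hp2 hn1 hqn _
  -- the combination
  have hsum := tsum_hh (p := p) a c y ha hy D (fun m => WW p q (m : ZMod q)) hWle
  have hcomb : ‖∑' m : ℕ, ((hh p a c y D m : ℝ) : ℂ) * WW p q (m : ZMod q)‖ ≤
      D * B * (p * (2 * (p : ℝ) ^ k) * (B * (C1 * Y ^ (-(5 / 8) : ℝ)))) := by
    rw [hsum]
    have hX : 0 ≤ p * (2 * (p : ℝ) ^ k) * (B * (C1 * Y ^ (-(5 / 8) : ℝ))) := by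
      have : 0 ≤ B * (C1 * Y ^ (-(5 / 8) : ℝ)) := (tsum_nonneg fun _ => norm_nonneg _).trans hβsum
      positivity
    have h1 : ∀ d ∈ (Icc 1 D).filter (fun d => ¬ p ∣ d), ‖((c d / d : ℝ) : ℂ) *
        ∑' m : ℕ, ((a m / m * Real.exp (-2 * π * m * y) : ℝ) : ℂ) * WW p q ((d * m : ℕ) : ZMod q)‖ ≤
        B * (p * (2 * (p : ℝ) ^ k) * (B * (C1 * Y ^ (-(5 / 8) : ℝ)))) := by
      intro d hd
      rw [mem_filter, mem_Icc] at hd
      obtain ⟨⟨hd1, -⟩, hpd⟩ := hd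
      have hcop : Nat.Coprime d q := by
        rw [hqn]
        exact (Nat.Coprime.pow_right _ ((Nat.Prime.coprime_iff_not_dvd hp).2 hpd).symm)
      set δ : (ZMod q)ˣ := ZMod.unitOfCoprime d hcop with hδ
      have hδv : ((δ : (ZMod q)ˣ) : ZMod q) = (d : ZMod q) := ZMod.coe_unitOfCoprime d hcop
      have h2 := hrel δ
      rw [norm_mul]
      have h3 : ‖((c d / d : ℝ) : ℂ)‖ ≤ B := by
        rw [Complex.norm_real, Real.norm_eq_abs, abs_div, abs_of_nonneg (show (0 : ℝ) ≤ (d : ℝ) from Nat.cast_nonneg d)]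
        have hd' : (1 : ℝ) ≤ d := by exact_mod_cast hd1
        rw [div_le_iff₀ (by linarith)]
        refine (hc d).trans (mul_le_mul_of_nonneg_left ?_ hB)
        calc (d : ℝ) ^ (9 / 16 : ℝ) ≤ (d : ℝ) ^ (1 : ℝ) :=
              Real.rpow_le_rpow_of_exponent_le hd' (by norm_num)
          _ = d := Real.rpow_one _
      refine mul_le_mul h3 ?_ (norm_nonneg _) hB
      have h4 : ∑' m : ℕ, ((a m / m * Real.exp (-2 * π * m * y) : ℝ) : ℂ) *
          WW p q ((d * m : ℕ) : ZMod q) = ∑' m : ℕ, α m * WW p q ((δ : ZMod q) * (m : ZMod q)) := by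
        refine tsum_congr fun m => ?_
        rw [hδv, Nat.cast_mul]
      rw [h4]
      refine h2.trans ?_
      exact mul_le_mul_of_nonneg_left hβsum (by positivity)
    refine (norm_sum_le _ _).trans ((sum_le_card_nsmul _ _ _ h1).trans ?_)
    rw [nsmul_eq_mul, mul_assoc (D : ℝ)]
    refine mul_le_mul_of_nonneg_right ?_ (mul_nonneg hB hX)
    have h2 : ((Icc 1 D).filter (fun d => ¬ p ∣ d)).card ≤ D := by
      refine (card_filter_le _ _).trans ?_
      simp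
    exact_mod_cast h2
  -- isolate the first term
  set U : ℕ → ℝ := fun m => if 2 ≤ m ∧ (m : ZMod (p ^ n)) ^ (p - 1) = 1 then |hh p a c y D m| else 0
    with hU
  have hUs : Summable U := by
    refine Summable.of_nonneg_of_le (fun m => ?_) (fun m => ?_) (summable_hh (p := p) a c y ha hy D).norm
    · rw [hU]
      simp only
      split_ifs
      · exact abs_nonneg _
      · exact le_rfl
    · rw [hU]
      simp only
      split_ifs
      · exact le_rfl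
      · exact norm_nonneg _
  have hHs : Summable fun m : ℕ => ((hh p a c y D m : ℝ) : ℂ) * WW p q (m : ZMod q) := by
    refine Summable.of_norm_bounded ((summable_hh (p := p) a c y ha hy D).norm.mul_right
      ((p - 1 : ℝ) * q)) fun m => ?_
    rw [norm_mul, Complex.norm_real]
    exact mul_le_mul_of_nonneg_left (hWle m) (norm_nonneg _)
  have hsplit := hHs.tsum_eq_add_tsum_ite 1
  have htail := tail_bound a c y hp hp2 hn1 rfl hB ha hac hacb hy hD C1 hC1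
  have hrest : ‖∑' m : ℕ, (if m = 1 then 0 else ((hh p a c y D m : ℝ) : ℂ) * WW p q (m : ZMod q))‖ ≤
      ((p - 1 : ℝ) * q) * ∑' m, U m := by
    rw [← tsum_mul_left]
    refine tsum_of_norm_bounded (hUs.mul_left _).hasSum fun m => ?_
    have hpq : 0 ≤ (p - 1 : ℝ) * q := mul_nonneg (by linarith) hq0
    split_ifs with h1
    · rw [norm_zero]
      refine mul_nonneg hpq ?_
      rw [hU]
      simp only
      split_ifs
      · exact abs_nonneg _
      · exact le_rfl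
    · by_cases h2 : 2 ≤ m
      · by_cases h3 : (m : ZMod (p ^ n)) ^ (p - 1) = 1
        · rw [hU]
          simp only
          rw [if_pos ⟨h2, h3⟩, norm_mul, Complex.norm_real, mul_comm, Real.norm_eq_abs]
          exact mul_le_mul_of_nonneg_right (hWle m) (abs_nonneg _)
        · rw [WW_eq_zero hp hp2 hn1 hqn m h3, mul_zero, norm_zero]
          refine mul_nonneg hpq ?_
          rw [hU]
          simp only
          split_ifs
          · exact abs_nonneg _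
          · exact le_rfl
      · have h3 : m = 0 := by omega
        rw [h3, hh_zero]
        simp only [ofReal_zero, zero_mul, norm_zero]
        refine mul_nonneg hpq ?_
        rw [hU]
        simp only
        split_ifs
        · exact abs_nonneg _
        · exact le_rfl
  have hfirst : ((hh p a c y D 1 : ℝ) : ℂ) * WW p q ((1 : ℕ) : ZMod q) =
      ((((q : ℝ) - (p : ℝ) ^ n) * Real.exp (-2 * π * y) : ℝ) : ℂ) := by
    rw [hh_one a c y hp ha1 hc1 hD, Nat.cast_one, WW_one hp hp2 hn1 hqn]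
    push_cast
    ring
  rw [hfirst] at hsplit
  have h5 : ‖((((q : ℝ) - (p : ℝ) ^ n) * Real.exp (-2 * π * y) : ℝ) : ℂ)‖ ≤
      ‖∑' m : ℕ, ((hh p a c y D m : ℝ) : ℂ) * WW p q (m : ZMod q)‖ +
      ‖∑' m : ℕ, (if m = 1 then 0 else ((hh p a c y D m : ℝ) : ℂ) * WW p q (m : ZMod q))‖ := by
    have h6 := norm_sub_le (∑' m : ℕ, ((hh p a c y D m : ℝ) : ℂ) * WW p q (m : ZMod q))
      (∑' m : ℕ, (if m = 1 then 0 else ((hh p a c y D m : ℝ) : ℂ) * WW p q (m : ZMod q)))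
    convert! h6 using 2
    rw [hsplit]
    ring
  have hqn' : (q : ℝ) - (p : ℝ) ^ n ≥ 0 := by
    rw [hqn]
    push_cast
    rw [pow_succ]
    have : 0 ≤ (p : ℝ) ^ n := by positivity
    nlinarith
  rw [Complex.norm_real, Real.norm_of_nonneg (mul_nonneg hqn' (Real.exp_pos _).le)] at h5
  refine h5.trans ?_
  rw [add_comm]
  refine add_le_add (hrest.trans ?_) hcomb
  have hU0 : 0 ≤ ∑' m, U m := by
    refine tsum_nonneg fun m => ?_
    rw [hU]
    simp only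
    split_ifs
    · exact abs_nonneg _
    · exact le_rfl
  push_cast at htail
  set Z : ℝ := 2 * π * y * D + (D : ℝ) ^ (9 / 16 - 1 : ℝ) +
    C1 * ((p : ℝ) ^ n) ^ (9 / 16 - 1 : ℝ) * ((p : ℝ) ^ n * y / D) ^ (-(5 / 8) : ℝ) with hZ
  calc ((p - 1 : ℝ) * q) * ∑' m, U m ≤ ((p : ℝ) * q) * ∑' m, U m := by
        refine mul_le_mul_of_nonneg_right ?_ hU0
        exact mul_le_mul_of_nonneg_right (by linarith) hq0
    _ ≤ ((p : ℝ) * q) * (p * (B * Z)) := mul_le_mul_of_nonneg_left htail (by positivity)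
    _ = _ := by ring

end Pool.Agent.MU1
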