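import Pool.Agent.MZ.PerN
import Pool.Agent.K3N.Div

/-!
# Definitions for the bound `μ(L_p) ≤ 1`
-/

set_option autoImplicit false

open Filter Topology Complex Function CongruenceSubgroup
open Matrix.SpecialLinearGroup (mapGL)
open scoped MatrixGroups Real ModularForm OnePoint ComplexConjugate

namespace Pool.Agent.MU1

open Pool.Agent.MZ Pool.Agent.MZ.Per

/-- `H`: the units `ζ` with `ζ^(p-1) = 1`. -/
def HH (p q : ℕ) [NeZero q] : Finset (ZMod q)ˣ := Finset.univ.filter (fun ζ => ζ ^ (p - 1) = 1)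

/-- The sum `W(x) = ∑_{ζ ∈ H} ∑_b e((x - ζ) b / q)`. -/
noncomputable def WW (p q : ℕ) [NeZero q] (x : ZMod q) : ℂ :=
  ∑ ζ ∈ HH p q, ∑ b : (ZMod q)ˣ, ZMod.stdAddChar ((x - (ζ : ZMod q)) * (b : ZMod q))

/-- `T(b) = ∑_{ζ ∈ H} S(ζ b / q)`. -/
noncomputable def TT {N : ℕ} [NeZero N] (f : CuspForm (Gamma0 N) 2) (p q : ℕ) [NeZero q]
    (b : (ZMod q)ˣ) : ℝ :=
  ∑ ζ ∈ HH p q, S f (((((ζ * b : (ZMod q)ˣ) : ZMod q).val : ℚ) / (q : ℚ) : ℚ) : OnePoint ℚ)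

/-- Fricke: `f (-1/(N z)) = ε N z² f (z)`. -/
def Fricke {N : ℕ} [NeZero N] (f : CuspForm (Gamma0 N) 2) (ε : ℂ) : Prop :=
  ∀ z : UpperHalfPlane, f (UpperHalfPlane.ofComplex (-1 / (N * (z : ℂ)))) = ε * N * (z : ℂ) ^ 2 * f z

end Pool.Agent.MU1
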