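import Pool.Agent.MU1.An1
import Pool.Agent.MU1.Core3

/-!
# Preparation of the data
-/

set_option autoImplicit false

open UpperHalfPlane hiding I
open Filter Topology Complex Function CongruenceSubgroup Finset
open Matrix.SpecialLinearGroup (mapGL)
open scoped MatrixGroups Real ModularForm OnePoint ComplexConjugate

namespace Pool.Agent.MU1

open Pool.Agent.MZ Pool.Agent.MZ.Per

theorem exists_C1 : ∃ C1 : ℝ, 0 ≤ C1 ∧ ∀ t : ℝ, 0 < t → ∑' m : ℕ, gg t m ≤ C1 * t ^ (-(5 / 8) : ℝ) := by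
  have hs : Summable fun m : ℕ => (m : ℝ) ^ (-(17 / 16) : ℝ) :=
    Real.summable_nat_rpow.2 (by norm_num)
  refine ⟨∑' m : ℕ, (m : ℝ) ^ (-(17 / 16) : ℝ), tsum_nonneg fun m => by positivity, fun t ht => ?_⟩
  rw [← tsum_mul_right]
  refine (summable_gg ht).tsum_le_tsum (fun m => ?_) (hs.mul_right _)
  rcases Nat.eq_zero_or_pos m with rfl | hm
  · rw [gg_zero]
    positivity
  have hm' : (0 : ℝ) < m := by exact_mod_cast hm
  have hx : 0 < (m : ℝ) * t := by positivity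
  have h1 : ((m : ℝ) * t) ^ (5 / 8 : ℝ) ≤ Real.exp (2 * π * m * t) := by
    have h2 : ((m : ℝ) * t) ^ (5 / 8 : ℝ) ≤ 1 + m * t := by
      rcases le_or_gt ((m : ℝ) * t) 1 with h | h
      · have := Real.rpow_le_one hx.le h (by norm_num : (0 : ℝ) ≤ 5 / 8)
        linarith
      · have := Real.rpow_le_rpow_of_exponent_le h.le (by norm_num : (5 / 8 : ℝ) ≤ 1)
        rw [Real.rpow_one] at this
        linarith
    have h3 : 1 + (m : ℝ) * t ≤ Real.exp (m * t) := by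
      have := Real.add_one_le_exp ((m : ℝ) * t)
      linarith
    refine h2.trans (h3.trans (Real.exp_le_exp.2 ?_))
    have : 1 ≤ 2 * π := by have := Real.pi_gt_three; linarith
    nlinarith
  have h4 : Real.exp (-2 * π * m * t) ≤ ((m : ℝ) * t) ^ (-(5 / 8) : ℝ) := by
    rw [Real.rpow_neg hx.le, show (-2 * π * m * t : ℝ) = -(2 * π * m * t) by ring, Real.exp_neg]
    exact inv_anti₀ (by positivity) h1
  unfold gg
  calc (m : ℝ) ^ (9 / 16 - 1 : ℝ) * Real.exp (-2 * π * m * t)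
      ≤ (m : ℝ) ^ (9 / 16 - 1 : ℝ) * ((m : ℝ) * t) ^ (-(5 / 8) : ℝ) :=
        mul_le_mul_of_nonneg_left h4 (by positivity)
    _ = (m : ℝ) ^ (-(17 / 16) : ℝ) * t ^ (-(5 / 8) : ℝ) := by
        rw [Real.mul_rpow hm'.le ht.le, ← mul_assoc, ← Real.rpow_add hm']
        norm_num

theorem exists_B {a c : ℕ → ℝ} (hb : ∀ n : ℕ, |a n| ≤ n.divisors.card * √n)
    (hcb : ∀ n : ℕ, |c n| ≤ n.divisors.card * √n) :
    ∃ B : ℝ, 0 ≤ B ∧ (∀ m : ℕ, |a m| ≤ B * (m : ℝ) ^ (9 / 16 : ℝ)) ∧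
      (∀ m : ℕ, |c m| ≤ B * (m : ℝ) ^ (9 / 16 : ℝ)) ∧
      ∀ m : ℕ, ∑ d ∈ m.divisors, |c d| * |a (m / d)| ≤ B * (m : ℝ) ^ (9 / 16 : ℝ) := by
  obtain ⟨C, hC1, hC⟩ := Pool.Agent.K3N.card_divisors_le (1 / 48) (by norm_num)
  have hC0 : 0 ≤ C := by linarith
  have hC3 : C ≤ C ^ 3 := by
    have : C ^ 1 ≤ C ^ 3 := pow_le_pow_right₀ hC1 (by norm_num)
    rwa [pow_one] at this
  have hone : ∀ (g : ℕ → ℝ), (∀ n : ℕ, |g n| ≤ n.divisors.card * √n) → ∀ m : ℕ,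
      |g m| ≤ C ^ 3 * (m : ℝ) ^ (9 / 16 : ℝ) := by
    intro g hg m
    refine (hg m).trans ?_
    rcases Nat.eq_zero_or_pos m with rfl | hm
    · simp
    · have hm1 : (1 : ℝ) ≤ m := by exact_mod_cast hm
      have hm0 : (0 : ℝ) < m := by linarith
      have h1 := hC m hm.ne'
      rw [Real.sqrt_eq_rpow]
      calc (m.divisors.card : ℝ) * (m : ℝ) ^ (1 / 2 : ℝ) ≤
          (C * (m : ℝ) ^ (1 / 48 : ℝ)) * (m : ℝ) ^ (1 / 2 : ℝ) :=
            mul_le_mul_of_nonneg_right h1 (by positivity)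
        _ = C * (m : ℝ) ^ (25 / 48 : ℝ) := by
            rw [mul_assoc, ← Real.rpow_add hm0]
            norm_num
        _ ≤ C ^ 3 * (m : ℝ) ^ (9 / 16 : ℝ) := by
            refine mul_le_mul hC3 ?_ (by positivity) (by positivity)
            exact Real.rpow_le_rpow_of_exponent_le hm1 (by norm_num)
  refine ⟨C ^ 3, by positivity, hone a hb, hone c hcb, fun m => ?_⟩
  rcases Nat.eq_zero_or_pos m with rfl | hm
  · simp
  have hm1 : (1 : ℝ) ≤ m := by exact_mod_cast hm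
  have hm0 : (0 : ℝ) < m := by linarith
  have h1 := hC m hm.ne'
  have hcard0 : (0 : ℝ) ≤ m.divisors.card := Nat.cast_nonneg _
  have h2 : ∀ d ∈ m.divisors, |c d| * |a (m / d)| ≤ (m.divisors.card : ℝ) ^ 2 * (m : ℝ) ^ (1 / 2 : ℝ) := by
    intro d hd
    have hdm := Nat.dvd_of_mem_divisors hd
    have hd' : m / d ∣ m := Nat.div_dvd_of_dvd hdm
    have h3 : ((d.divisors.card : ℕ) : ℝ) ≤ m.divisors.card := by
      exact_mod_cast card_le_card (Nat.divisors_subset_of_dvd hm.ne' hdm)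
    have h4 : (((m / d).divisors.card : ℕ) : ℝ) ≤ m.divisors.card := by
      exact_mod_cast card_le_card (Nat.divisors_subset_of_dvd hm.ne' hd')
    have h5 : √(d : ℝ) * √((m / d : ℕ) : ℝ) = (m : ℝ) ^ (1 / 2 : ℝ) := by
      rw [← Real.sqrt_mul (Nat.cast_nonneg d), ← Nat.cast_mul, Nat.mul_div_cancel' hdm,
        Real.sqrt_eq_rpow]
    calc |c d| * |a (m / d)| ≤ (m.divisors.card * √(d : ℝ)) * (m.divisors.card * √((m / d : ℕ) : ℝ)) := by
          refine mul_le_mul ?_ ?_ (abs_nonneg _) (by positivity)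
          · exact (hcb d).trans (mul_le_mul_of_nonneg_right h3 (Real.sqrt_nonneg _))
          · exact (hb (m / d)).trans (mul_le_mul_of_nonneg_right h4 (Real.sqrt_nonneg _))
      _ = (m.divisors.card : ℝ) ^ 2 * (√(d : ℝ) * √((m / d : ℕ) : ℝ)) := by ring
      _ = _ := by rw [h5]
  refine (sum_le_card_nsmul _ _ _ h2).trans ?_
  rw [nsmul_eq_mul]
  calc (m.divisors.card : ℝ) * ((m.divisors.card : ℝ) ^ 2 * (m : ℝ) ^ (1 / 2 : ℝ))
      = (m.divisors.card : ℝ) ^ 3 * (m : ℝ) ^ (1 / 2 : ℝ) := by ring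
    _ ≤ (C * (m : ℝ) ^ (1 / 48 : ℝ)) ^ 3 * (m : ℝ) ^ (1 / 2 : ℝ) := by
        gcongr
    _ = C ^ 3 * (m : ℝ) ^ (9 / 16 : ℝ) := by
        rw [_root_.mul_pow, ← Real.rpow_natCast ((m : ℝ) ^ (1 / 48 : ℝ)) 3, ← Real.rpow_mul hm0.le, mul_assoc,
          ← Real.rpow_add hm0]
        norm_num

variable {N : ℕ} [NeZero N]

/-- The values `J(b)`. -/
noncomputable def JJ (f : CuspForm (Gamma0 N) 2) (q : ℕ) [NeZero q] (b : (ZMod q)ˣ) : ℂ :=
  bd (G f) ((((b : ZMod q).val : ℚ) / (q : ℚ) : ℚ) : OnePoint ℚ)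

theorem G_vert (f : CuspForm (Gamma0 N) 2) {a : ℕ → ℤ}
    (ha : ∀ n, (qExpansion 1 f).coeff n = a n) (q : ℕ) [NeZero q] (z : ℤ) {t : ℝ} (ht : 0 < t) :
    G f (vert ((z : ℝ) / q) t) = ∑' m : ℕ, (((a m : ℝ) / m * Real.exp (-2 * π * m * t) : ℝ) : ℂ) *
        ZMod.stdAddChar ((m : ZMod q) * (z : ZMod q)) := by
  rw [← (hasSum_G f (a := fun n => ((a n : ℤ) : ℂ)) ha _).tsum_eq]
  refine tsum_congr fun m => ?_
  rw [coe_vert ht]
  have h1 : ((m : ZMod q) * (z : ZMod q)) = (((m : ℤ) * z : ℤ) : ZMod q) := by push_cast; rfl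
  rw [h1, ZMod.stdAddChar_coe]
  have h2 : cexp (2 * π * Complex.I * m * (((z : ℝ) / q : ℝ) + (t : ℂ) * Complex.I)) =
      cexp (2 * π * Complex.I * ((m : ℤ) * z : ℤ) / q) * (Real.exp (-2 * π * m * t) : ℂ) := by
    rw [ofReal_exp, ← Complex.exp_add]
    congr 1
    push_cast
    linear_combination (2 * π * m * t) * Complex.I_mul_I
  rw [h2]
  push_cast
  ring

theorem JJ_eq (f : CuspForm (Gamma0 N) 2) {ε : ℂ} (hF : Fricke f ε) {a : ℕ → ℤ}
    (ha : ∀ n, (qExpansion 1 f).coeff n = a n) {q : ℕ} [NeZero q] (hqN : Nat.Coprime N q) {y : ℝ}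
    (hy : 0 < y) (b : (ZMod q)ˣ) :
    JJ f q b = ∑' m : ℕ, (((a m : ℝ) / m * Real.exp (-2 * π * m * y) : ℝ) : ℂ) *
        ZMod.stdAddChar ((m : ZMod q) * (b : ZMod q)) -
      ε * ∑' m : ℕ, (((a m : ℝ) / m * Real.exp (-2 * π * m * (1 / (N * q ^ 2 * y))) : ℝ) : ℂ) *
        ZMod.stdAddChar (-(m : ZMod q) * (((ZMod.unitOfCoprime N hqN * b)⁻¹ : (ZMod q)ˣ) : ZMod q)) := by
  have hN : N ≠ 0 := NeZero.ne N
  have hNr : (0 : ℝ) < N := by exact_mod_cast Nat.pos_of_ne_zero hN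
  have hq : 0 < q := Nat.pos_of_ne_zero (NeZero.ne q)
  have hqr : (0 : ℝ) < q := by exact_mod_cast hq
  set w := ZMod.unitOfCoprime N hqN with hw
  set r : ℤ := ((((w * b)⁻¹ : (ZMod q)ˣ) : ZMod q).val : ℤ) with hr
  have hrc : ((r : ℤ) : ZMod q) = (((w * b)⁻¹ : (ZMod q)ˣ) : ZMod q) := by
    rw [hr]
    push_cast
    rw [ZMod.natCast_val, ZMod.cast_id', id]
  have hbc : ((((b : ZMod q).val : ℤ) : ℤ) : ZMod q) = (b : ZMod q) := by
    push_cast
    rw [ZMod.natCast_val, ZMod.cast_id', id]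
  have hdvd : (q : ℤ) ∣ N * r * ((b : ZMod q).val : ℤ) - 1 := by
    rw [← ZMod.intCast_zmod_eq_zero_iff_dvd]
    have h1 : (N : ZMod q) = (w : ZMod q) := (ZMod.coe_unitOfCoprime N hqN).symm
    rw [Int.cast_sub, Int.cast_mul, Int.cast_mul, hrc, hbc, Int.cast_natCast, h1, Int.cast_one]
    have h2 : ((w * b : (ZMod q)ˣ) : ZMod q) * (((w * b)⁻¹ : (ZMod q)ˣ) : ZMod q) = 1 := by
      rw [← Units.val_mul, mul_inv_cancel, Units.val_one]
    rw [Units.val_mul] at h2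
    linear_combination h2
  have h := bd_eq f hF hq hdvd hy
  have hpos : 0 < 1 / ((N : ℝ) * q ^ 2 * y) := by positivity
  rw [G_vert f ha q _ hy, hbc] at h
  have h2 : -(r : ℝ) / q = ((-r : ℤ) : ℝ) / q := by push_cast; rfl
  rw [h2, G_vert f ha q _ hpos] at h
  have h3 : JJ f q b = bd (G f) (((((b : ZMod q).val : ℤ) : ℚ) / (q : ℚ) : ℚ) : OnePoint ℚ) := by
    rw [JJ, Int.cast_natCast]
  rw [h3, h]
  congr 2
  refine tsum_congr fun m => ?_
  congr 2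
  push_cast
  rw [hrc]
  ring

theorem JJ_conj (f : CuspForm (Gamma0 N) 2) {ε : ℂ} (hF : Fricke f ε) (hε : conj ε = ε) {a : ℕ → ℤ}
    (ha : ∀ n, (qExpansion 1 f).coeff n = a n) {q : ℕ} [NeZero q] (hqN : Nat.Coprime N q)
    (b : (ZMod q)ˣ) : conj (JJ f q b) = JJ f q (-b) := by
  have hconj : ∀ x : ZMod q, conj (ZMod.stdAddChar x : ℂ) = ZMod.stdAddChar (-x) := by
    intro x
    rw [AddChar.map_neg_eq_conj]
  rw [JJ_eq f hF ha hqN one_pos b, JJ_eq f hF ha hqN one_pos (-b), map_sub, map_mul, hε,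
    Complex.conj_tsum, Complex.conj_tsum]
  congr 1
  · refine tsum_congr fun m => ?_
    rw [map_mul, conj_ofReal, hconj]
    congr 2
    push_cast
    ring
  · congr 1
    refine tsum_congr fun m => ?_
    rw [map_mul, conj_ofReal, hconj]
    congr 2
    rw [mul_neg, inv_neg]
    push_cast
    ring

theorem TT_eq (f : CuspForm (Gamma0 N) 2) {ε : ℂ} (hF : Fricke f ε) (hε : conj ε = ε) {a : ℕ → ℤ}
    (ha : ∀ n, (qExpansion 1 f).coeff n = a n) {p q : ℕ} [NeZero q] (hp : p.Prime) (hp2 : p ≠ 2)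
    (hqN : Nat.Coprime N q) (b : (ZMod q)ˣ) : ∑ ζ ∈ HH p q, JJ f q (ζ * b) = ((TT f p q b : ℝ) : ℂ) := by
  have h1 : conj (∑ ζ ∈ HH p q, JJ f q (ζ * b)) = ∑ ζ ∈ HH p q, JJ f q (ζ * b) := by
    rw [map_sum]
    refine Finset.sum_bij' (fun ζ _ => -ζ) (fun ζ _ => -ζ) ?_ ?_ ?_ ?_ ?_
    · intro ζ hζ
      simp only [HH, mem_filter, mem_univ, true_and] at hζ ⊢
      rw [Even.neg_pow (hp.even_sub_one hp2), hζ]
    · intro ζ hζ
      simp only [HH, mem_filter, mem_univ, true_and] at hζ ⊢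
      rw [Even.neg_pow (hp.even_sub_one hp2), hζ]
    · intro ζ _; exact neg_neg ζ
    · intro ζ _; exact neg_neg ζ
    · intro ζ _
      rw [JJ_conj f hF hε ha hqN, neg_mul]
  rw [Complex.conj_eq_iff_real] at h1
  obtain ⟨r, hr⟩ := h1
  have h2 : TT f p q b = r := by
    have h3 := congrArg Complex.re hr
    rw [re_sum, ofReal_re] at h3
    rw [← h3]
    rfl
  rw [hr, h2]

end Pool.Agent.MU1
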