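import Pool.Agent.MU1.Fin1
import Pool.Agent.MU1.Asym
import Pool.Agent.MU1.Dir
import Pool.Agent.MU1.Link

/-!
# The bound for the `μ`-invariant
-/

set_option autoImplicit false

open UpperHalfPlane hiding I
open Filter Topology Complex Function CongruenceSubgroup Finset
open Matrix.SpecialLinearGroup (mapGL)
open scoped MatrixGroups Real ModularForm OnePoint ComplexConjugate

namespace Pool.Agent.MU1

open Pool.Agent.MZ Pool.Agent.MZ.Per

/-- The Hecke relations at all primes. -/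
def HeckeAll (N : ℕ) (a : ℕ → ℤ) : Prop :=
  ∀ l : ℕ, l.Prime → ∀ n : ℕ,
    a (l * n) + (if l ∣ n ∧ ¬ l ∣ N then (l : ℤ) * a (n / l) else 0) = a l * a n

theorem HeckeAll.rel {N : ℕ} {a : ℕ → ℤ} (h : HeckeAll N a) : HeckeRel N a := by
  intro l hl hlN n
  have := h l hl n
  simpa [hlN] using this

variable {N : ℕ} [NeZero N]

/-- The sums `T(b)` are not constant on the classes modulo `q / p`. -/
theorem not_exact (f : CuspForm (Gamma0 N) 2) {a : ℕ → ℤ}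
    (ha : ∀ n, (qExpansion 1 f).coeff n = a n) (ha1 : a 1 = 1) (hH : HeckeAll N a)
    (hb : ∀ n : ℕ, |(a n : ℝ)| ≤ n.divisors.card * √n) {ε : ℂ} (hF : Fricke f ε)
    (hε : ε = 1 ∨ ε = -1) :
    ∃ r : ℕ, 1 ≤ r ∧ ∀ p : ℕ, p.Prime → p ≠ 2 → ¬ p ∣ N → ∀ (q : ℕ) [NeZero q],
      q = p ^ (2 * (80 * r)) → ∃ b b' : (ZMod q)ˣ,
        (∃ t : ZMod q, (b' : ZMod q) = b + t * (p : ZMod q) ^ (2 * (80 * r) - 1)) ∧
        TT f p q b ≠ TT f p q b' := by
  have hN : N ≠ 0 := NeZero.ne N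
  have ha0 : a 0 = 0 := by
    have := coeff_zero f (a := fun n => ((a n : ℤ) : ℂ)) ha
    exact_mod_cast this
  obtain ⟨c, hc1, hac, hcb⟩ := exists_inverse hN ha0 ha1 hH hb
  obtain ⟨B, hB, hBa, hBc, hBac⟩ := exists_B (a := fun n => (a n : ℝ)) (c := fun n => (c n : ℝ)) hb hcb
  obtain ⟨C1, hC10, hC1⟩ := exists_C1
  obtain ⟨r, hr, hasym⟩ := asym B C1 hB hC10 N (Nat.one_le_iff_ne_zero.2 hN)
  refine ⟨r, hr, fun p hp hp2 hpN q _ hq => ?_⟩
  by_contra hcon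
  push Not at hcon
  have hp3 : 3 ≤ p := by
    have := hp.two_le
    omega
  have hNr : (0 : ℝ) < N := by exact_mod_cast Nat.pos_of_ne_zero hN
  have hqr : (0 : ℝ) < q := by
    exact_mod_cast Nat.pos_of_ne_zero (NeZero.ne q)
  have hpr : (0 : ℝ) < p := by exact_mod_cast hp.pos
  have hqN : Nat.Coprime N q := by
    rw [hq]
    exact Nat.Coprime.pow_right _ ((Nat.Prime.coprime_iff_not_dvd hp).2 hpN).symm
  have hε1 : ‖ε‖ = 1 := by rcases hε with rfl | rfl <;> simp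
  have hεc : conj ε = ε := by rcases hε with rfl | rfl <;> simp
  have hk1 : 1 ≤ 80 * r := by omega
  set y : ℝ := ((p : ℝ) ^ (224 * r))⁻¹ with hy
  have hy0 : 0 < y := by positivity
  set Y : ℝ := 1 / (N * (q : ℝ) ^ 2 * y) with hY
  have hY0 : 0 < Y := by positivity
  have hDpos : 1 ≤ p ^ (16 * r) := Nat.one_le_pow _ _ hp.pos
  have hlt := hasym p hp3 (q : ℝ) y Y (80 * r) (p ^ (16 * r)) rfl rfl (by rw [hq]; push_cast; rfl)
    rfl rfl
  have hle := core hp hp2 hk1 hq (fun n => (a n : ℝ)) (fun n => (c n : ℝ)) hB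
    (by exact_mod_cast ha1) (by exact_mod_cast hc1)
    (by
      intro m hm
      have := hac m hm
      have h2 := congrArg (fun t : ℤ => (t : ℝ)) this
      push_cast at h2
      exact h2) hBa hBc hBac (JJ f q) (ZMod.unitOfCoprime N hqN) ε hε1 hy0 hY0
    (fun b => JJ_eq f hF ha hqN hy0 b)
    (by
      intro b b' hbb
      rw [TT_eq f hF hεc ha hp hp2 hqN, TT_eq f hF hεc ha hp hp2 hqN, hcon b b' hbb])
    hDpos C1 hC1
  exact absurd hle (not_le.2 hlt)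

/-- The size of `T(b)`. -/
theorem TT_bound (f : CuspForm (Gamma0 N) 2) {ε : ℂ} (hF : Fricke f ε) (hε : ‖ε‖ = 1) :
    ∃ C : ℝ, 0 ≤ C ∧ ∀ p : ℕ, p.Prime → p ≠ 2 → ¬ p ∣ N → ∀ (n q : ℕ) [NeZero q],
      q = p ^ n → ∀ b : (ZMod q)ˣ, |TT f p q b| ≤ p * (C * (1 + Real.log q)) := by
  obtain ⟨C, hC⟩ := bd_bound f hF hε
  refine ⟨|C|, abs_nonneg C, fun p hp hp2 hpN n q _ hq b => ?_⟩
  have hq0 : 0 < q := Nat.pos_of_ne_zero (NeZero.ne q)
  have hlog : 0 ≤ Real.log q := Real.log_nonneg (by exact_mod_cast hq0)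
  have hqN : Nat.Coprime q N := by
    rw [hq]
    exact Nat.Coprime.pow_left _ ((Nat.Prime.coprime_iff_not_dvd hp).2 hpN)
  unfold TT
  refine (abs_sum_le_sum_abs _ _).trans ?_
  have h1 : ∀ ζ ∈ HH p q,
      |S f (((((ζ * b : (ZMod q)ˣ) : ZMod q).val : ℚ) / (q : ℚ) : ℚ) : OnePoint ℚ)| ≤
        |C| * (1 + Real.log q) := by
    intro ζ _
    have h2 := hC q hq0 (((ζ * b : (ZMod q)ˣ) : ZMod q).val : ℤ) (by
      rw [Int.isCoprime_iff_gcd_eq_one]
      exact ZMod.val_coe_unit_coprime (ζ * b)) hqN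
    rw [Int.cast_natCast] at h2
    refine (abs_re_le_norm _).trans (h2.trans ?_)
    exact mul_le_mul_of_nonneg_right (le_abs_self C) (by linarith)
  refine (sum_le_card_nsmul _ _ _ h1).trans ?_
  rw [nsmul_eq_mul]
  refine mul_le_mul_of_nonneg_right ?_ (mul_nonneg (abs_nonneg C) (by linarith))
  have := (card_HH hp hp2 hq).trans (Nat.sub_le p 1)
  exact_mod_cast this

/-- discreteness of the absolute value -/
theorem norm_le_of_lt {p : ℕ} [hp : Fact p.Prime] (x : ℚ_[p]) (K : ℕ)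
    (h : ‖x‖ < (p : ℝ) * ((p : ℝ) ^ K)⁻¹) : ‖x‖ ≤ ((p : ℝ) ^ K)⁻¹ := by
  have hp0 : (p : ℝ) ≠ 0 := by exact_mod_cast hp.out.ne_zero
  have h1 := (Padic.norm_le_pow_iff_norm_lt_pow_add_one x (-(K : ℤ))).2 (by
    rw [zpow_add₀ hp0, zpow_neg, zpow_natCast, zpow_one, mul_comm]
    exact h)
  rw [zpow_neg, zpow_natCast] at h1
  exact h1

/-- The main bound. -/
theorem mu_bound (f : CuspForm (Gamma0 N) 2) {a : ℕ → ℤ}
    (ha : ∀ n, (qExpansion 1 f).coeff n = a n) (ha1 : a 1 = 1) (hH : HeckeAll N a)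
    (hb : ∀ n : ℕ, |(a n : ℝ)| ≤ n.divisors.card * √n) {ε : ℂ} (hF : Fricke f ε)
    (hε : ε = 1 ∨ ε = -1) {Ω : ℝ} (hΩ : Ω ≠ 0)
    (hper : {r : ℝ | ∃ γ ∈ Gamma1 N, r = (period f γ).re} = {r : ℝ | ∃ k : ℤ, r = k * Ω}) :
    ∃ C : ℝ, 1 ≤ C ∧ ∀ (p : ℕ) [hp : Fact p.Prime], p ≠ 2 → ¬ p ∣ N →
      ∀ α : ℤ_[p]ˣ, (α : ℤ_[p]) ^ 2 - (a p : ℤ_[p]) * α + p = 0 →
      ∀ L : PowerSeries ℚ_[p], IsMSD p a Ω α L →
      ∃ i, 1 ≤ C * (p * Real.log p) * ‖PowerSeries.coeff i L‖ := by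
  have hε1 : ‖ε‖ = 1 := by rcases hε with rfl | rfl <;> simp
  obtain ⟨r, hr, hne⟩ := not_exact f ha ha1 hH hb hF hε
  obtain ⟨C, hC0, hC⟩ := TT_bound f hF hε1
  set C2 : ℝ := max 1 (2 * C * (161 * r) / |Ω|) with hC2
  refine ⟨C2, le_max_left _ _, fun p hp hp2 hpN α hα L hL => ?_⟩
  by_contra hcon
  push Not at hcon
  have hp3 : 3 ≤ p := by
    have := hp.out.two_le
    omega
  have hp3r : (3 : ℝ) ≤ p := by exact_mod_cast hp3
  have hp0 : (0 : ℝ) < p := by linarith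
  have hlog : 1 ≤ Real.log p := by
    have h1 : Real.exp 1 ≤ p := by
      have := Real.exp_one_lt_d9
      linarith
    have := Real.log_le_log (Real.exp_pos 1) h1
    rwa [Real.log_exp] at this
  set X : ℝ := C2 * (p * Real.log p) with hX
  have hX1 : 1 ≤ X := by
    have h1 : 1 ≤ C2 := le_max_left _ _
    have h2 : 1 ≤ (p : ℝ) * Real.log p := by nlinarith
    nlinarith
  have hX0 : 0 < X := by linarith
  have hΩ0 : 0 < |Ω| := abs_pos.2 hΩ
  have hexK : ∃ K : ℕ, X < (p : ℝ) ^ K := pow_unbounded_of_one_lt X (by linarith)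
  classical
  set K := Nat.find hexK with hK
  have hKlt : X < (p : ℝ) ^ K := Nat.find_spec hexK
  have hK1 : 1 ≤ K := by
    rcases Nat.eq_zero_or_pos K with h | h
    · rw [h, pow_zero] at hKlt
      linarith
    · exact h
  have hKle : (p : ℝ) ^ (K - 1) ≤ X := by
    have := Nat.find_min hexK (m := K - 1) (by omega)
    exact not_lt.1 this
  have hpK : (p : ℝ) ^ K = (p : ℝ) ^ (K - 1) * p := by
    rw [← pow_succ]
    congr 1
    omega
  have hcoef : ∀ i, ‖PowerSeries.coeff i L‖ ≤ ((p : ℝ) ^ K)⁻¹ := by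
    intro i
    apply norm_le_of_lt
    by_contra hge
    rw [not_lt] at hge
    have h1 := hcon i
    have h2 : (p : ℝ) * ((p : ℝ) ^ K)⁻¹ = ((p : ℝ) ^ (K - 1))⁻¹ := by
      rw [hpK]
      have : (p : ℝ) ^ (K - 1) ≠ 0 := by positivity
      field_simp
    rw [h2] at hge
    have h3 : (p : ℝ) ^ (K - 1) * ((p : ℝ) ^ (K - 1))⁻¹ ≤ X * ‖PowerSeries.coeff i L‖ :=
      mul_le_mul hKle hge (by positivity) hX0.le
    rw [mul_inv_cancel₀ (by positivity)] at h3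
    linarith
  -- the two values
  have hNZ : NeZero (p ^ (2 * (80 * r))) := ⟨pow_ne_zero _ hp.out.ne_zero⟩
  obtain ⟨b, b', hbb, hTT⟩ := hne p hp.out hp2 hpN (p ^ (2 * (80 * r))) rfl
  obtain ⟨k, hk⟩ := link hp2 hpN f ha ha1 hH.rel hΩ hper hα hL K hcoef (2 * (80 * r) - 1)
    (p ^ (2 * (80 * r))) (by omega) (by congr 1; omega) b b' hbb
  have hk0 : k ≠ 0 := by
    rintro rfl
    apply hTT
    rw [Int.cast_zero, zero_mul, zero_mul] at hk
    linarith
  have hk1 : (1 : ℝ) ≤ |(k : ℝ)| := by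
    have := Int.one_le_abs hk0
    exact_mod_cast this
  have hlow : (p : ℝ) ^ K * |Ω| ≤ |TT f p (p ^ (2 * (80 * r))) b - TT f p (p ^ (2 * (80 * r))) b'| := by
    rw [hk, abs_mul, abs_mul, abs_of_pos (by positivity : (0 : ℝ) < (p : ℝ) ^ K)]
    refine mul_le_mul_of_nonneg_right ?_ hΩ0.le
    exact le_mul_of_one_le_left (by positivity) hk1
  have hup : |TT f p (p ^ (2 * (80 * r))) b - TT f p (p ^ (2 * (80 * r))) b'| ≤
      2 * C * (161 * r) * (p * Real.log p) := by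
    have h1 := hC p hp.out hp2 hpN _ _ rfl b
    have h2 := hC p hp.out hp2 hpN _ _ rfl b'
    have hlq : Real.log ((p ^ (2 * (80 * r)) : ℕ) : ℝ) = 160 * r * Real.log p := by
      push_cast
      rw [Real.log_pow]
      push_cast
      ring
    rw [hlq] at h1 h2
    have hr1 : (1 : ℝ) ≤ r := by exact_mod_cast hr
    have h3 : 1 + 160 * (r : ℝ) * Real.log p ≤ 161 * r * Real.log p := by nlinarith
    have h4 : (p : ℝ) * (C * (1 + 160 * r * Real.log p)) ≤ p * (C * (161 * r * Real.log p)) := by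
      gcongr
    calc _ ≤ |TT f p (p ^ (2 * (80 * r))) b| + |TT f p (p ^ (2 * (80 * r))) b'| := abs_sub _ _
      _ ≤ p * (C * (161 * r * Real.log p)) + p * (C * (161 * r * Real.log p)) :=
          add_le_add (h1.trans h4) (h2.trans h4)
      _ = _ := by ring
  have hlast : 2 * C * (161 * r) * (p * Real.log p) < (p : ℝ) ^ K * |Ω| := by
    have h1 : 2 * C * (161 * r) / |Ω| ≤ C2 := le_max_right _ _
    rw [div_le_iff₀ hΩ0] at h1
    have h2 : 0 ≤ (p : ℝ) * Real.log p := by positivity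
    calc 2 * C * (161 * r) * (p * Real.log p) ≤ C2 * |Ω| * (p * Real.log p) :=
          mul_le_mul_of_nonneg_right h1 h2
      _ = X * |Ω| := by rw [hX]; ring
      _ < _ := mul_lt_mul_of_pos_right hKlt hΩ0
  linarith

end Pool.Agent.MU1
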