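import Pool.Agent.MU1.Fin2

/-!
# The theorem in final form
-/

set_option autoImplicit false

open UpperHalfPlane hiding I
open Filter Topology Complex Function CongruenceSubgroup Finset
open Matrix.SpecialLinearGroup (mapGL)
open scoped MatrixGroups Real ModularForm OnePoint ComplexConjugate

namespace Pool.Agent.MU1

open Pool.Agent.MZ Pool.Agent.MZ.Per

/-- `C p log p < p^2` for large `p`. -/
theorem eventually_lt (C : ℝ) : ∃ p₀ : ℕ, ∀ p : ℕ, p₀ ≤ p → C * (p * Real.log p) < (p : ℝ) ^ 2 := by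
  have h1 : Tendsto (fun x : ℝ => Real.log x / x) atTop (𝓝 0) := by
    have := Real.isLittleO_log_id_atTop.tendsto_div_nhds_zero
    simpa using this
  have h2 : Tendsto (fun n : ℕ => C * (Real.log n / n)) atTop (𝓝 (C * 0)) :=
    (h1.comp tendsto_natCast_atTop_atTop).const_mul C
  rw [mul_zero] at h2
  have h3 : ∀ᶠ n : ℕ in atTop, C * (Real.log n / n) < 1 := h2.eventually (gt_mem_nhds one_pos)
  obtain ⟨p₀, hp₀⟩ := eventually_atTop.1 (h3.and (eventually_ge_atTop 1))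
  refine ⟨p₀, fun p hp => ?_⟩
  obtain ⟨h4, h5⟩ := hp₀ p hp
  have hp0 : (0 : ℝ) < p := by exact_mod_cast h5
  have h6 : C * (p * Real.log p) = C * (Real.log p / p) * (p : ℝ) ^ 2 := by
    field_simp
  rw [h6]
  have h7 : 0 < (p : ℝ) ^ 2 := by positivity
  nlinarith

/-- Large primes do not divide the numerator and the denominator. -/
theorem norm_rat_eq_one {q : ℚ} (hq : q ≠ 0) :
    ∃ p₀ : ℕ, ∀ (p : ℕ) [Fact p.Prime], p₀ ≤ p → ‖(q : ℚ_[p])‖ = 1 := by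
  refine ⟨q.num.natAbs + q.den + 1, fun p hp hle => ?_⟩
  have hnum : ¬ (p : ℤ) ∣ q.num := by
    intro h
    have h1 := Int.natCast_dvd.1 h
    have h2 := Nat.le_of_dvd (Int.natAbs_pos.2 (Rat.num_ne_zero.2 hq)) h1
    omega
  have hden : ¬ (p : ℤ) ∣ (q.den : ℤ) := by
    intro h
    have h1 : p ∣ q.den := by exact_mod_cast h
    have h2 := Nat.le_of_dvd q.den_pos h1
    omega
  have h1 : ∀ z : ℤ, ¬ (p : ℤ) ∣ z → ‖(z : ℚ_[p])‖ = 1 := by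
    intro z hz
    rw [Padic.norm_intCast_eq_one_iff, Int.isCoprime_iff_gcd_eq_one, Int.gcd_comm]
    exact (Nat.Prime.coprime_iff_not_dvd hp.out).2 (fun h => hz (Int.natCast_dvd.2 h))
  have h2 : (q : ℚ_[p]) = (q.num : ℚ_[p]) / ((q.den : ℤ) : ℚ_[p]) := by
    conv_lhs => rw [← Rat.num_div_den q]
    push_cast
    rfl
  rw [h2, norm_div, h1 _ hnum, h1 _ hden, div_one]

variable {N : ℕ} [NeZero N]

theorem final (f : CuspForm (Gamma0 N) 2) {a : ℕ → ℤ}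
    (ha : ∀ n, (qExpansion 1 f).coeff n = a n) (ha1 : a 1 = 1) (hH : HeckeAll N a)
    (hb : ∀ n : ℕ, |(a n : ℝ)| ≤ n.divisors.card * √n) {ε : ℂ} (hF : Fricke f ε)
    (hε : ε = 1 ∨ ε = -1) {Ω : ℝ} (hΩ : Ω ≠ 0) {q : ℚ} (hq : q ≠ 0)
    (hper : {r : ℝ | ∃ γ ∈ Gamma1 N, r = (period f γ).re} =
      {r : ℝ | ∃ k : ℤ, r = k * (q * Ω)}) :
    ∃ (C : ℝ) (p₀ : ℕ), ∀ p : ℕ, ∀ _ : Fact p.Prime, p ≠ 2 → ¬ p ∣ N → ¬ (p : ℤ) ∣ a p →
      ∃ α : ℤ_[p]ˣ, (α : ℤ_[p]) ^ 2 - (a p : ℤ_[p]) * α + p = 0 ∧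
        ∃ L : PowerSeries ℚ_[p], IsMSD p a Ω α L ∧ (∀ L', IsMSD p a Ω α L' → L' = L) ∧
          (∀ i, ‖PowerSeries.coeff i L‖ ≤ ‖(q : ℚ_[p])‖) ∧
          (∃ i, ‖(q : ℚ_[p])‖ ≤ C * (p * Real.log p) * ‖PowerSeries.coeff i L‖) ∧
          (p₀ ≤ p → ∃ i, 1 ≤ p * ‖PowerSeries.coeff i L‖) := by
  have hqΩ : (q : ℝ) * Ω ≠ 0 := mul_ne_zero (by exact_mod_cast hq) hΩ
  obtain ⟨C, hC1, hC⟩ := mu_bound f ha ha1 hH hb hF hε hqΩ hper
  obtain ⟨p₁, hp₁⟩ := eventually_lt C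
  obtain ⟨p₂, hp₂⟩ := norm_rat_eq_one hq
  refine ⟨C, max p₁ p₂, fun p hp hp2 hpN hord => ?_⟩
  obtain ⟨α, hα, L, hL, -, hint, -⟩ := Pool.Agent.MZ.Per.main (NeZero.ne N) hp2 hpN f ha ha1 hH.rel hord
    hqΩ hper
  obtain ⟨i, hi⟩ := hC p hp2 hpN α hα L hL
  have hp0 : (0 : ℝ) < p := by exact_mod_cast hp.out.pos
  have hmain : ∀ i, ‖PowerSeries.coeff i (PowerSeries.C (q : ℚ_[p]) * L)‖ =
      ‖(q : ℚ_[p])‖ * ‖PowerSeries.coeff i L‖ := by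
    intro i
    rw [PowerSeries.coeff_C_mul, norm_mul]
  refine ⟨α, hα, PowerSeries.C (q : ℚ_[p]) * L, hL.scale,
    fun L' hL' => isMSD_unique hp2 hΩ hL' hL.scale, fun i => ?_, ⟨i, ?_⟩, fun hle => ⟨i, ?_⟩⟩
  · rw [hmain]
    exact mul_le_of_le_one_right (norm_nonneg _) (hint i)
  · rw [hmain]
    calc ‖(q : ℚ_[p])‖ = ‖(q : ℚ_[p])‖ * 1 := (mul_one _).symm
      _ ≤ ‖(q : ℚ_[p])‖ * (C * (p * Real.log p) * ‖PowerSeries.coeff i L‖) :=
          mul_le_mul_of_nonneg_left hi (norm_nonneg _)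
      _ = _ := by ring
  · rw [hmain, hp₂ p ((le_max_right _ _).trans hle), one_mul]
    have h1 := hp₁ p ((le_max_left _ _).trans hle)
    by_contra hcon
    rw [not_le] at hcon
    have h2 : ‖PowerSeries.coeff i L‖ ≤ ((p : ℝ) ^ 2)⁻¹ := by
      apply norm_le_of_lt
      have h3 : (p : ℝ) * ((p : ℝ) ^ 2)⁻¹ = 1 / p := by
        field_simp
      rw [h3, lt_div_iff₀ hp0, mul_comm]
      exact hcon
    have h3 : C * (p * Real.log p) * ‖PowerSeries.coeff i L‖ < 1 := by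
      have h4 : 0 < (p : ℝ) ^ 2 := by positivity
      have h5 : 0 < ‖PowerSeries.coeff i L‖ := by
        by_contra h
        have h6 : ‖PowerSeries.coeff i L‖ = 0 := le_antisymm (not_lt.1 h) (norm_nonneg _)
        rw [h6, mul_zero] at hi
        linarith
      calc C * (p * Real.log p) * ‖PowerSeries.coeff i L‖ < (p : ℝ) ^ 2 * ‖PowerSeries.coeff i L‖ :=
            mul_lt_mul_of_pos_right h1 h5
        _ ≤ (p : ℝ) ^ 2 * ((p : ℝ) ^ 2)⁻¹ := mul_le_mul_of_nonneg_left h2 h4.le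
        _ = 1 := mul_inv_cancel₀ h4.ne'
    linarith

end Pool.Agent.MU1
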