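import Pool.Agent.MU1.Wrap
import Pool.Agent.MU71.Det
import Pool.Agent.MZ.PerK

/-!
# Assembly: from the non-vanishing of the twisted first moments to the determinant inequality
-/

set_option autoImplicit false

open Finset CongruenceSubgroup
open Pool.Agent.MZ Pool.Agent.MZ.Per
open scoped OnePoint MatrixGroups

namespace Pool.Agent.MU71

/-- Teichmueller representatives -/
theorem exists_teich {p : ℕ} [hp : Fact p.Prime] (m : ℕ) :
    ∃ τ : (ZMod p)ˣ → (ZMod (p ^ (m + 1)))ˣ, (∀ x, τ x ^ (p - 1) = 1) ∧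
      (∀ x, ZMod.unitsMap (dvd_pow_self p (Nat.succ_ne_zero m)) (τ x) = x) ∧
      ∀ ζ : (ZMod (p ^ (m + 1)))ˣ, ζ ^ (p - 1) = 1 →
        τ (ZMod.unitsMap (dvd_pow_self p (Nat.succ_ne_zero m)) ζ) = ζ := by
  have hq0 : NeZero (p ^ (m + 1)) := ⟨pow_ne_zero _ hp.out.ne_zero⟩
  have hcop : ∀ x : (ZMod p)ˣ, Nat.Coprime ((x : ZMod p).val ^ (p ^ m)) (p ^ (m + 1)) := by
    intro x
    apply Nat.Coprime.pow_left
    apply Nat.Coprime.pow_right
    exact ZMod.val_coe_unit_coprime x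
  have h1 : ∀ x : (ZMod p)ˣ, (ZMod.unitOfCoprime _ (hcop x)) ^ (p - 1) = 1 := by
    intro x
    apply Units.ext
    rw [Units.val_pow_eq_pow_val, ZMod.coe_unitOfCoprime, Units.val_one]
    have h2 : (x : ZMod p).val ^ (p ^ m * (p - 1)) ≡ 1 [MOD p ^ (m + 1)] := by
      have h3 : (p ^ (m + 1)).totient = p ^ m * (p - 1) := by
        rw [Nat.totient_prime_pow_succ hp.out]
      rw [← h3]
      apply Nat.ModEq.pow_totient
      exact Nat.Coprime.pow_right _ (ZMod.val_coe_unit_coprime x)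
    rw [← ZMod.natCast_eq_natCast_iff, _root_.pow_mul] at h2
    push_cast at h2 ⊢
    exact h2
  have h2 : ∀ x : (ZMod p)ˣ, ZMod.unitsMap (dvd_pow_self p (Nat.succ_ne_zero m))
      (ZMod.unitOfCoprime _ (hcop x)) = x := by
    intro x
    apply Units.ext
    rw [ZMod.unitsMap_val, ZMod.coe_unitOfCoprime]
    rw [Nat.cast_pow, ZMod.cast_pow (dvd_pow_self p (Nat.succ_ne_zero m)), ZMod.cast_natCast
      (dvd_pow_self p (Nat.succ_ne_zero m)), ZMod.natCast_zmod_val, ZMod.pow_card_pow]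
  refine ⟨fun x => ZMod.unitOfCoprime _ (hcop x), h1, h2, ?_⟩
  intro ζ hζ
  -- two elements killed by `p - 1` with the same residue are equal
  have h3 := h2 (ZMod.unitsMap (dvd_pow_self p (Nat.succ_ne_zero m)) ζ)
  set ξ := ZMod.unitOfCoprime _ (hcop (ZMod.unitsMap (dvd_pow_self p (Nat.succ_ne_zero m)) ζ)) with hξ
  have h4 : ξ ^ (p - 1) = 1 := h1 _
  have hnd : ∀ z : (ZMod (p ^ (m + 1)))ˣ, ¬ p ∣ (z : ZMod (p ^ (m + 1))).val := by
    intro z h
    have h5 := Nat.dvd_gcd h (dvd_pow_self p (Nat.succ_ne_zero m))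
    rw [(ZMod.val_coe_unit_coprime z)] at h5
    exact hp.out.one_lt.ne' (Nat.dvd_one.1 h5)
  have hpow : ∀ z : (ZMod (p ^ (m + 1)))ˣ, z ^ (p - 1) = 1 →
      (z : ZMod (p ^ (m + 1))).val ^ (p - 1) ≡ 1 [MOD p ^ (m + 1)] := by
    intro z hz
    rw [← ZMod.natCast_eq_natCast_iff, Nat.cast_pow, ZMod.natCast_zmod_val,
      ← Units.val_pow_eq_pow_val, hz, Units.val_one, Nat.cast_one]
  have hres : ∀ z : (ZMod (p ^ (m + 1)))ˣ, (((z : ZMod (p ^ (m + 1))).val : ℕ) : ZMod p) =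
      (ZMod.unitsMap (dvd_pow_self p (Nat.succ_ne_zero m)) z : ZMod p) := by
    intro z
    rw [ZMod.unitsMap_val, ZMod.natCast_val]
  have h6 := eq_of_log hp.out (hnd ξ) (hnd ζ) ((hpow ξ h4).trans (hpow ζ hζ).symm) (by
    rw [hres, hres, h3])
  have h7 := Nat.ModEq.eq_of_lt_of_lt h6 (ZMod.val_lt _) (ZMod.val_lt _)
  exact Units.ext (ZMod.val_injective _ h7)

open Classical in
/-- **Assembly.** The non-vanishing of the twisted first moments at the level `p^(m+1)` and a bound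
for the boundary values give the determinant inequality. -/
theorem assemble {N : ℕ} [NeZero N] {p : ℕ} [hp : Fact p.Prime] (hp2 : p ≠ 2) (hpN : ¬ p ∣ N)
    (f : CuspForm (Gamma0 N) 2) {a : ℕ → ℤ}
    (ha : ∀ n, (UpperHalfPlane.qExpansion 1 f).coeff n = a n) (ha1 : a 1 = 1)
    (hH : HeckeRel N a) {Ω : ℝ} (hΩ : Ω ≠ 0)
    (hper : {r : ℝ | ∃ γ ∈ Gamma1 N, r = (period f γ).re} = {r : ℝ | ∃ k : ℤ, r = k * Ω})
    {α : ℤ_[p]ˣ} (hα : (α : ℤ_[p]) ^ 2 - (a p : ℤ_[p]) * α + p = 0) (m : ℕ)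
    (hnv : ∀ w : (ZMod (p ^ (m + 1)))ˣ → ℝ, (∀ ζ, w (-ζ) = w ζ) →
      (∃ c : ℝ, ∀ b : (ZMod (p ^ (m + 1)))ˣ,
        ∑ ζ ∈ univ.filter (fun ζ : (ZMod (p ^ (m + 1)))ˣ => ζ ^ (p - 1) = 1),
          w ζ * S f (((((ζ * b : (ZMod (p ^ (m + 1)))ˣ) : ZMod (p ^ (m + 1))).val : ℚ) /
            ((p ^ (m + 1) : ℕ) : ℚ) : ℚ) : OnePoint ℚ) = c) →
      ∀ ζ, ζ ^ (p - 1) = 1 → w ζ = 0)
    (B : ℝ) (hB : ∀ b : ℤ, ¬ (p : ℤ) ∣ b →
      |S f (((b : ℚ) / (p : ℚ) ^ (m + 1) : ℚ) : OnePoint ℚ)| ≤ B)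
    (K : Subgroup (ZMod p)ˣ) (hK : -1 ∈ K)
    (L : DirichletCharacter ℤ_[p] p → PowerSeries ℤ_[p])
    (hL : ∀ ψ : DirichletCharacter ℤ_[p] p, ψ (-1) = 1 →
      IsMSDBr p a Ω α ψ ((L ψ).map (algebraMap ℤ_[p] ℚ_[p])))
    (e : DirichletCharacter ℤ_[p] p → ℕ)
    (he : ∀ ψ : DirichletCharacter ℤ_[p] p, (∀ k ∈ K, ψ (k : ZMod p) = 1) →
      L ψ ∈ Ideal.span {(p : PowerSeries ℤ_[p]) ^ e ψ, (1 + PowerSeries.X) ^ (p ^ m) - 1}) :
    (p : ℝ) ^ (∑ ψ ∈ (Finset.univ : Finset (DirichletCharacter ℤ_[p] p)).filter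
        (fun ψ => ∀ k ∈ K, ψ (k : ZMod p) = 1), e ψ) ≤
      (((p : ℝ) - 1) / Real.sqrt K.index * (2 * B / |Ω|)) ^ K.index := by
  have hq0 : NeZero (p ^ (m + 1)) := ⟨pow_ne_zero _ hp.out.ne_zero⟩
  obtain ⟨τ, hτ1, hτ2, hτ3⟩ := exists_teich (p := p) m
  -- the integers `t x`
  set t : (ZMod p)ˣ → ℤ := fun x => (((τ x : ZMod (p ^ (m + 1))).val : ℕ) : ℤ) with ht
  have htx : ∀ x : (ZMod p)ˣ, ((t x : ℤ) : ZMod p) = x := by
    intro x
    have h1 := congrArg (fun z : (ZMod p)ˣ => (z : ZMod p)) (hτ2 x)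
    simp only [ZMod.unitsMap_val] at h1
    rw [ht]
    push_cast
    rw [ZMod.natCast_val, h1]
  have ht1 : ∀ x, (p : ℤ) ^ (m + 1) ∣ t x ^ (p - 1) - 1 := by
    intro x
    have h1 : ((t x ^ (p - 1) - 1 : ℤ) : ZMod (p ^ (m + 1))) = 0 := by
      rw [ht]
      push_cast
      rw [ZMod.natCast_zmod_val, ← Units.val_pow_eq_pow_val, hτ1 x, Units.val_one, sub_self]
    rw [ZMod.intCast_zmod_eq_zero_iff_dvd] at h1
    push_cast at h1
    exact h1
  have htp : ∀ x, ¬ (p : ℤ) ∣ t x := by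
    intro x h
    have h1 := (ZMod.intCast_zmod_eq_zero_iff_dvd (t x) p).2 h
    rw [htx x] at h1
    exact x.ne_zero h1
  have hpp : Prime ((p : ℕ) : ℤ) := Nat.prime_iff_prime_int.1 hp.out
  have hbp : ∀ b : (ZMod (p ^ (m + 1)))ˣ, ¬ (p : ℤ) ∣ (((b : ZMod (p ^ (m + 1))).val : ℕ) : ℤ) := by
    intro b h
    have h0 : p ∣ (b : ZMod (p ^ (m + 1))).val := by exact_mod_cast h
    have h5 := Nat.dvd_gcd h0 (dvd_pow_self p (Nat.succ_ne_zero m))
    rw [(ZMod.val_coe_unit_coprime b)] at h5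
    exact hp.out.one_lt.ne' (Nat.dvd_one.1 h5)
  have hV : ∀ (b : (ZMod (p ^ (m + 1)))ˣ) (x : (ZMod p)ˣ), ∃ V : ℤ,
      S f (((((t x * (((b : ZMod (p ^ (m + 1))).val : ℕ) : ℤ) : ℤ) : ℚ) /
        (p : ℚ) ^ (m + 1) : ℚ)) : OnePoint ℚ) -
      S f ((((t x : ℤ) : ℚ) / (p : ℚ) ^ (m + 1) : ℚ) : OnePoint ℚ) = V * Ω := by
    intro b x
    refine exists_V hpN hper m ?_ (htp x)
    intro h
    rcases hpp.dvd_or_dvd h with h | h
    · exact htp x h
    · exact hbp b h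
  choose V hV using hV
  refine abstract_bound K V (2 * B / |Ω|) ?_ ?_ e ?_
  · intro b x
    have h1 := hV b x
    have h2 := congrArg abs h1
    rw [abs_mul] at h2
    rw [le_div_iff₀ (abs_pos.2 hΩ), ← h2]
    refine (abs_sub _ _).trans ?_
    have h3 := hB (t x * (((b : ZMod (p ^ (m + 1))).val : ℕ) : ℤ)) (by
      intro h
      rcases hpp.dvd_or_dvd h with h | h
      · exact htp x h
      · exact hbp b h)
    have h4 := hB (t x) (htp x)
    linarith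
  · intro w hw hsum
    have h1 := hnv (fun ζ => w (ZMod.unitsMap (dvd_pow_self p (Nat.succ_ne_zero m)) ζ)) ?_ ?_
    · ext x
      have h2 := h1 (τ x) (hτ1 x)
      simp only [hτ2] at h2
      rw [h2]
      rfl
    · intro ζ
      have h2 : ZMod.unitsMap (dvd_pow_self p (Nat.succ_ne_zero m)) (-ζ) =
          (-1) * ZMod.unitsMap (dvd_pow_self p (Nat.succ_ne_zero m)) ζ := by
        apply Units.ext
        rw [ZMod.unitsMap_val, Units.val_neg, Units.val_mul, Units.val_neg, Units.val_one,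
          ZMod.unitsMap_val, ZMod.cast_neg (dvd_pow_self p (Nat.succ_ne_zero m))]
        ring
      simp only [h2]
      exact hw _ _ hK
    · refine ⟨∑ x : (ZMod p)ˣ, w x *
        S f ((((t x : ℤ) : ℚ) / (p : ℚ) ^ (m + 1) : ℚ) : OnePoint ℚ), fun b => ?_⟩
      have h2 : ∑ ζ ∈ univ.filter (fun ζ : (ZMod (p ^ (m + 1)))ˣ => ζ ^ (p - 1) = 1),
          w (ZMod.unitsMap (dvd_pow_self p (Nat.succ_ne_zero m)) ζ) *
            S f (((((ζ * b : (ZMod (p ^ (m + 1)))ˣ) : ZMod (p ^ (m + 1))).val : ℚ) /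
            ((p ^ (m + 1) : ℕ) : ℚ) : ℚ) : OnePoint ℚ) =
          ∑ x : (ZMod p)ˣ, w x *
            S f (((((τ x * b : (ZMod (p ^ (m + 1)))ˣ) : ZMod (p ^ (m + 1))).val : ℚ) /
            ((p ^ (m + 1) : ℕ) : ℚ) : ℚ) : OnePoint ℚ) := by
        refine Finset.sum_bij'
          (fun ζ _ => ZMod.unitsMap (dvd_pow_self p (Nat.succ_ne_zero m)) ζ)
          (fun x _ => τ x) ?_ ?_ ?_ ?_ ?_
        · intro ζ _
          exact mem_univ _
        · intro x _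
          rw [mem_filter]
          exact ⟨mem_univ _, hτ1 x⟩
        · intro ζ hζ
          rw [mem_filter] at hζ
          exact hτ3 ζ hζ.2
        · intro x _
          exact hτ2 x
        · intro ζ hζ
          rw [mem_filter] at hζ
          rw [hτ3 ζ hζ.2]
      rw [h2]
      have h3 : ∀ x : (ZMod p)ˣ,
          S f (((((τ x * b : (ZMod (p ^ (m + 1)))ˣ) : ZMod (p ^ (m + 1))).val : ℚ) /
            ((p ^ (m + 1) : ℕ) : ℚ) : ℚ) : OnePoint ℚ) =
          S f (((((t x * (((b : ZMod (p ^ (m + 1))).val : ℕ) : ℤ) : ℤ) : ℚ) /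
            (p : ℚ) ^ (m + 1) : ℚ)) : OnePoint ℚ) := by
        intro x
        rw [Units.val_mul, ZMod.val_mul]
        set A : ℕ := (τ x : ZMod (p ^ (m + 1))).val * (b : ZMod (p ^ (m + 1))).val with hA
        have h4 : (t x * (((b : ZMod (p ^ (m + 1))).val : ℕ) : ℤ) : ℤ) = (A : ℤ) := by
          rw [ht, hA]
          push_cast
          rfl
        rw [h4]
        have h5 : ((A : ℤ) : ℚ) / (p : ℚ) ^ (m + 1) =
            ((A % p ^ (m + 1) : ℕ) : ℚ) / ((p ^ (m + 1) : ℕ) : ℚ) +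
              (((A / p ^ (m + 1) : ℕ) : ℤ) : ℚ) := by
          have h6 : (A : ℚ) = ((A % p ^ (m + 1) : ℕ) : ℚ) +
              ((p ^ (m + 1) : ℕ) : ℚ) * ((A / p ^ (m + 1) : ℕ) : ℚ) := by
            exact_mod_cast (Nat.mod_add_div A (p ^ (m + 1))).symm
          have h7 : ((p ^ (m + 1) : ℕ) : ℚ) ≠ 0 := by
            exact_mod_cast hq0.out
          have h8 : (p : ℚ) ^ (m + 1) = ((p ^ (m + 1) : ℕ) : ℚ) := by
            push_cast
            rfl
          rw [h8, Int.cast_natCast, Int.cast_natCast, h6]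
          rw [add_div, mul_div_cancel_left₀ _ h7]
        rw [h5, S, S, bd_add_int]
      simp only [h3]
      have h4 := hsum b
      have h5 : ∑ x : (ZMod p)ˣ, w x *
          S f (((((t x * (((b : ZMod (p ^ (m + 1))).val : ℕ) : ℤ) : ℤ) : ℚ) /
            (p : ℚ) ^ (m + 1) : ℚ)) : OnePoint ℚ) -
          ∑ x : (ZMod p)ˣ, w x *
            S f ((((t x : ℤ) : ℚ) / (p : ℚ) ^ (m + 1) : ℚ) : OnePoint ℚ) =
          Ω * ∑ x : (ZMod p)ˣ, w x * (V b x : ℝ) := by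
        rw [← Finset.sum_sub_distrib, Finset.mul_sum]
        refine Finset.sum_congr rfl fun x _ => ?_
        have h6 := hV b x
        linear_combination w x * h6
      rw [h4, mul_zero] at h5
      exact sub_eq_zero.1 h5
  · intro ψ hψ b
    have hψ1 : ψ (-1) = 1 := by
      have h1 := hψ (-1) hK
      rw [Units.val_neg, Units.val_one] at h1
      exact h1
    exact wrap hp2 hpN f ha ha1 hH hΩ hper hα hψ1 (hL ψ hψ1) (e ψ) m (he ψ hψ) t htx ht1
      _ (hbp b) (V b) (hV b)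

end Pool.Agent.MU71
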