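import Mathlib

/-!
# Hadamard's inequality and `p`-adic divisibility of small integer vectors

If integer vectors `w i` of size at most `B` span `ℝ^δ`, and for `δ` linear forms over `ℤ_p` of
unit determinant the `j`-th form takes values divisible by `p ^ μ j` on all `w i`, then
`p ^ (∑ μ j) ≤ (√δ * B) ^ δ`.
-/

set_option autoImplicit false

open Finset Module

namespace Pool.Agent.MU1

/-- Hadamard's inequality. -/
theorem hadamard_ineq {n : ℕ} (A : Matrix (Fin n) (Fin n) ℝ) :
    |A.det| ≤ ∏ i, √(∑ j, (A i j) ^ 2) := by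
  classical
  let E := EuclideanSpace ℝ (Fin n)
  have : Fact (finrank ℝ E = n) := ⟨by simp [E]⟩
  let b : OrthonormalBasis (Fin n) ℝ E := EuclideanSpace.basisFun (Fin n) ℝ
  let v : Fin n → E := fun i => WithLp.toLp 2 (A i)
  have h1 := (b.toBasis.orientation).abs_volumeForm_apply_le v
  rw [(b.toBasis.orientation).volumeForm_robust' b v] at h1
  have h2 : b.toBasis.det v = A.det := by
    rw [Basis.det_apply, ← Matrix.det_transpose]
    congr 1
  rw [h2] at h1
  refine h1.trans (le_of_eq ?_)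
  apply Finset.prod_congr rfl
  intro i _
  rw [EuclideanSpace.norm_eq]
  congr 1
  apply Finset.sum_congr rfl
  intro j _
  rw [Real.norm_eq_abs, sq_abs]

/-- Hadamard's inequality with an entry bound. -/
theorem hadamard_bound {κ : Type*} [Fintype κ] [DecidableEq κ] (A : Matrix κ κ ℝ) {B : ℝ}
    (hB : ∀ i j, |A i j| ≤ B) :
    |A.det| ≤ (√(Fintype.card κ) * B) ^ Fintype.card κ := by
  rcases isEmpty_or_nonempty κ with h | h
  · simp
  have hB0 : 0 ≤ B := le_trans (abs_nonneg _) (hB h.some h.some)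
  let e := Fintype.equivFin κ
  have h1 := hadamard_ineq (A.reindex e e)
  rw [Matrix.det_reindex_self] at h1
  refine h1.trans ?_
  have h2 : ∀ i : Fin (Fintype.card κ),
      √(∑ j, (A.reindex e e i j) ^ 2) ≤ √(Fintype.card κ) * B := by
    intro i
    rw [← Real.sqrt_sq hB0, ← Real.sqrt_mul (by positivity)]
    apply Real.sqrt_le_sqrt
    calc ∑ j, (A.reindex e e i j) ^ 2 ≤ ∑ _j : Fin (Fintype.card κ), B ^ 2 := by
          apply Finset.sum_le_sum
          intro j _
          rw [← sq_abs]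
          exact pow_le_pow_left₀ (abs_nonneg _) (hB _ _) 2
      _ = (Fintype.card κ : ℝ) * B ^ 2 := by simp
  calc ∏ i, √(∑ j, (A.reindex e e i j) ^ 2) ≤ ∏ _i : Fin (Fintype.card κ), (√(Fintype.card κ) * B) := by
        apply Finset.prod_le_prod
        · intro i _; positivity
        · intro i _; exact h2 i
    _ = _ := by simp

/-- Choose independent rows from a spanning family. -/
theorem exists_rows {κ ι : Type*} [Fintype κ] [DecidableEq κ] (w : ι → κ → ℝ)
    (hspan : ∀ c : κ → ℝ, (∀ i, ∑ k, c k * w i k = 0) → c = 0) :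
    ∃ f : κ → ι, (Matrix.of (fun k l => w (f k) l)).det ≠ 0 := by
  classical
  have htop : Submodule.span ℝ (Set.range w) = ⊤ := by
    by_contra hne
    obtain ⟨φ, hφ0, hφ⟩ := Submodule.exists_le_ker_of_lt_top _ (lt_top_iff_ne_top.2 hne)
    apply hφ0
    have hc : (fun k => φ (Pi.single k 1)) = 0 := by
      apply hspan
      intro i
      have h1 : φ (w i) = 0 := by
        have := hφ (Submodule.subset_span (Set.mem_range_self i))
        simpa using this
      rw [← h1]
      conv_rhs => rw [pi_eq_sum_univ' (w i)]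
      rw [map_sum]
      apply Finset.sum_congr rfl
      intro k _
      rw [map_smul, smul_eq_mul, mul_comm]
    apply LinearMap.pi_ext'
    intro k
    ext
    simpa using congrFun hc k
  obtain ⟨s, hs1, hs2, hs3⟩ := exists_linearIndependent ℝ (Set.range w)
  rw [htop] at hs2
  let bs := Basis.mk hs3 (by rw [Subtype.range_coe]; exact hs2.ge)
  have hcard : Nat.card s = Fintype.card κ := by
    have h1 := Module.finrank_eq_nat_card_basis bs
    rw [Module.finrank_fintype_fun_eq_card] at h1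
    exact h1.symm
  have : Finite s := Module.Finite.finite_basis bs
  have : Fintype s := Fintype.ofFinite s
  have e : κ ≃ s := Fintype.equivOfCardEq (by rw [← hcard, Nat.card_eq_fintype_card])
  have hch : ∀ x : s, ∃ i, w i = x := fun x => hs1 x.2
  choose g hg using hch
  refine ⟨fun k => g (e k), ?_⟩
  have hli : LinearIndependent ℝ (fun k => w (g (e k))) := by
    have h1 : (fun k => w (g (e k))) = (Subtype.val : s → κ → ℝ) ∘ e := by
      funext k
      simp [hg]
    rw [h1]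
    exact hs3.comp e e.injective
  have h2 : IsUnit (Matrix.of (fun k l => w (g (e k)) l)) := by
    rw [← Matrix.linearIndependent_rows_iff_isUnit]
    exact hli
  have h3 := (Matrix.isUnit_iff_isUnit_det _).1 h2
  exact h3.ne_zero

/-- The `p`-adic Hadamard bound. -/
theorem padic_hadamard {p : ℕ} [Fact p.Prime] {κ ι J : Type*} [Fintype κ] [DecidableEq κ]
    [Fintype J] [DecidableEq J] (eJ : J ≃ κ) (w : ι → κ → ℤ) {B : ℝ}
    (hB : ∀ i k, |(w i k : ℝ)| ≤ B)
    (hspan : ∀ c : κ → ℝ, (∀ i, ∑ k, c k * (w i k : ℝ) = 0) → c = 0)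
    (χ : J → κ → ℤ_[p]) (hχ : IsUnit (Matrix.of (fun k l => χ (eJ.symm k) l)).det)
    (μ : J → ℕ) (hμ : ∀ i j, (p : ℤ_[p]) ^ (μ j) ∣ ∑ k, χ j k * (w i k : ℤ_[p])) :
    (p : ℝ) ^ (∑ j, μ j) ≤ (√(Fintype.card κ) * B) ^ Fintype.card κ := by
  classical
  obtain ⟨f, hf⟩ := exists_rows (fun i k => (w i k : ℝ)) hspan
  let W : Matrix κ κ ℤ := Matrix.of (fun k l => w (f k) l)
  have hWR : (W.map (Int.cast : ℤ → ℝ)) = Matrix.of (fun k l => ((w (f k) l : ℤ) : ℝ)) := rfl
  have hdet : ((W.det : ℤ) : ℝ) = (Matrix.of (fun k l => ((w (f k) l : ℤ) : ℝ))).det := by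
    rw [← hWR]
    exact (Int.castRingHom ℝ).map_det W
  have hW0 : W.det ≠ 0 := by
    intro h
    apply hf
    rw [← hdet, h]
    simp
  have hbd : |((W.det : ℤ) : ℝ)| ≤ (√(Fintype.card κ) * B) ^ Fintype.card κ := by
    rw [hdet]
    apply hadamard_bound
    intro i j
    exact hB _ _
  -- divisibility
  let X : Matrix κ κ ℤ_[p] := Matrix.of (fun k l => χ (eJ.symm k) l)
  have hprod : (p : ℤ_[p]) ^ (∑ j, μ j) ∣ ((W.det : ℤ) : ℤ_[p]) := by
    have hWp : ((W.det : ℤ) : ℤ_[p]) = (W.map (Int.cast : ℤ → ℤ_[p])).det :=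
      (Int.castRingHom ℤ_[p]).map_det W
    let Y : Matrix κ κ ℤ_[p] := X * (W.map (Int.cast : ℤ → ℤ_[p])).transpose
    have hY : ∀ k l, (p : ℤ_[p]) ^ (μ (eJ.symm k)) ∣ Y k l := by
      intro k l
      have := hμ (f l) (eJ.symm k)
      simpa [Y, X, W, Matrix.mul_apply] using this
    choose Z hZ using hY
    have hYZ : Y = Matrix.of (fun k l => (p : ℤ_[p]) ^ (μ (eJ.symm k)) * (Matrix.of Z) k l) := by
      ext k l
      simp [hZ]
    have hdetY : Y.det = (∏ k, (p : ℤ_[p]) ^ (μ (eJ.symm k))) * (Matrix.of Z).det := by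
      rw [hYZ, Matrix.det_mul_column]
    have hdet2 : Y.det = X.det * (W.map (Int.cast : ℤ → ℤ_[p])).det := by
      rw [Matrix.det_mul, Matrix.det_transpose]
    have hsum : (∏ k, (p : ℤ_[p]) ^ (μ (eJ.symm k))) = (p : ℤ_[p]) ^ (∑ j, μ j) := by
      rw [Finset.prod_pow_eq_pow_sum]
      congr 1
      exact Equiv.sum_comp eJ.symm μ
    rw [hWp]
    have h3 : (p : ℤ_[p]) ^ (∑ j, μ j) ∣ X.det * (W.map (Int.cast : ℤ → ℤ_[p])).det := by
      rw [← hdet2, hdetY, hsum]
      exact dvd_mul_right _ _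
    exact (IsUnit.dvd_mul_left hχ).1 h3
  have hint : (p : ℤ) ^ (∑ j, μ j) ∣ W.det := by
    have := (PadicInt.pow_p_dvd_int_iff (p := p) (∑ j, μ j) W.det).1 hprod
    exact_mod_cast this
  have hle : (p : ℤ) ^ (∑ j, μ j) ≤ |W.det| := Int.le_of_dvd (abs_pos.2 hW0) ((dvd_abs _ _).2 hint)
  have hle' : (p : ℝ) ^ (∑ j, μ j) ≤ |((W.det : ℤ) : ℝ)| := by
    have : (((p : ℤ) ^ (∑ j, μ j) : ℤ) : ℝ) ≤ ((|W.det| : ℤ) : ℝ) := by exact_mod_cast hle
    rwa [Int.cast_pow, Int.cast_natCast, Int.cast_abs] at this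
  exact hle'.trans hbd

end Pool.Agent.MU1
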