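import Mathlib

/-!
# Small integer combinations of bounded linear forms

`exists_small`: among the integer vectors `c` with entries in `[-X, X]` at least half satisfy
`|∑ c j s b j| < u` for all `b` in a finite set `B` (Hoeffding's inequality and a union bound); by the
pigeonhole principle the difference of two of them lies in the kernel of a given homomorphism to a
finite group `A`, if `2 |A| < (2 X + 1) ^ |J|`.
-/

namespace Pool.Agent.MU1

open Finset

/-- The box of integer vectors with entries in `[-X, X]`. -/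
noncomputable def rbox (J : Type*) [Fintype J] [DecidableEq J] (X : ℕ) : Finset (J → ℤ) :=
  Fintype.piFinset fun _ => Finset.Icc (-(X : ℤ)) X

theorem card_rbox (J : Type*) [Fintype J] [DecidableEq J] (X : ℕ) :
    (rbox J X).card = (2 * X + 1) ^ Fintype.card J := by
  rw [rbox, Fintype.card_piFinset]
  simp only [Int.card_Icc, Finset.prod_const, Finset.card_univ]
  congr 1
  omega

theorem mem_rbox {J : Type*} [Fintype J] [DecidableEq J] {X : ℕ} {c : J → ℤ} :
    c ∈ rbox J X ↔ ∀ j, |c j| ≤ X := by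
  rw [rbox, Fintype.mem_piFinset]
  simp only [Finset.mem_Icc, abs_le]

theorem sum_exp_le (X : ℕ) (y : ℝ) :
    ∑ k ∈ Finset.Icc (-(X : ℤ)) X, Real.exp (k * y) ≤ (2 * X + 1) * Real.exp (X ^ 2 * y ^ 2 / 2) := by
  have h1 : ∑ k ∈ Finset.Icc (-(X : ℤ)) X, Real.exp (k * y) =
      ∑ k ∈ Finset.Icc (-(X : ℤ)) X, Real.exp (-(k * y)) := by
    refine Finset.sum_nbij' (fun k => -k) (fun k => -k) ?_ ?_ ?_ ?_ ?_
    · intro k hk; simp only [Finset.mem_Icc] at hk ⊢; omega
    · intro k hk; simp only [Finset.mem_Icc] at hk ⊢; omega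
    · intro k _; simp
    · intro k _; simp
    · intro k _; push_cast; congr 1; ring
  have h2 : ∑ k ∈ Finset.Icc (-(X : ℤ)) X, Real.exp (k * y) =
      ∑ k ∈ Finset.Icc (-(X : ℤ)) X, Real.cosh (k * y) := by
    have : ∑ k ∈ Finset.Icc (-(X : ℤ)) X, Real.cosh (k * y) =
        (∑ k ∈ Finset.Icc (-(X : ℤ)) X, Real.exp (k * y) +
          ∑ k ∈ Finset.Icc (-(X : ℤ)) X, Real.exp (-(k * y))) / 2 := by
      rw [← Finset.sum_add_distrib, Finset.sum_div]
      exact Finset.sum_congr rfl fun k _ => Real.cosh_eq _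
    rw [this, ← h1]; ring
  rw [h2]
  have h3 : ∀ k ∈ Finset.Icc (-(X : ℤ)) X, Real.cosh (k * y) ≤ Real.exp (X ^ 2 * y ^ 2 / 2) := by
    intro k hk
    rw [Finset.mem_Icc] at hk
    have hk' : |(k : ℝ)| ≤ X := by
      rw [abs_le]
      exact ⟨by exact_mod_cast hk.1, by exact_mod_cast hk.2⟩
    refine (Real.cosh_le_exp_half_sq _).trans (Real.exp_le_exp.2 ?_)
    have : (k : ℝ) ^ 2 ≤ (X : ℝ) ^ 2 := by
      rw [← sq_abs]
      exact pow_le_pow_left₀ (abs_nonneg _) hk' 2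
    have h4 : (k : ℝ) ^ 2 * y ^ 2 ≤ (X : ℝ) ^ 2 * y ^ 2 :=
      mul_le_mul_of_nonneg_right this (sq_nonneg _)
    rw [mul_pow]
    linarith
  refine (Finset.sum_le_card_nsmul _ _ _ h3).trans ?_
  rw [nsmul_eq_mul, Int.card_Icc]
  apply le_of_eq
  congr 1
  have : ((X : ℤ) + 1 - -(X : ℤ)).toNat = 2 * X + 1 := by omega
  rw [this]; push_cast; ring

variable {J : Type*} [Fintype J] [DecidableEq J]

/-- The exponential moment. -/
theorem sum_exp_box (X : ℕ) (s : J → ℝ) :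
    ∑ c ∈ rbox J X, Real.exp (∑ j, c j * s j) ≤
      (2 * X + 1) ^ Fintype.card J * Real.exp (X ^ 2 * (∑ j, s j ^ 2) / 2) := by
  have h1 : ∑ c ∈ rbox J X, Real.exp (∑ j, c j * s j) =
      ∏ j, ∑ k ∈ Finset.Icc (-(X : ℤ)) X, Real.exp (k * s j) := by
    rw [Finset.prod_univ_sum]
    exact Finset.sum_congr rfl fun c _ => Real.exp_sum _ _
  rw [h1]
  have h2 : ∏ j, ∑ k ∈ Finset.Icc (-(X : ℤ)) X, Real.exp (k * s j) ≤
      ∏ j, ((2 * X + 1) * Real.exp (X ^ 2 * s j ^ 2 / 2)) := by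
    refine Finset.prod_le_prod (fun j _ => Finset.sum_nonneg fun k _ => (Real.exp_pos _).le)
      fun j _ => sum_exp_le X (s j)
  refine h2.trans (le_of_eq ?_)
  rw [Finset.prod_mul_distrib, Finset.prod_const, Finset.card_univ, ← Real.exp_sum]
  congr 2
  rw [Finset.mul_sum, Finset.sum_div]

/-- Hoeffding's inequality for a uniformly distributed vector of the box. -/
theorem card_large_le {X : ℕ} (hX : 0 < X) {s : J → ℝ} {V u : ℝ} (hV : 0 < V)
    (hs : ∑ j, s j ^ 2 ≤ V) (hu : 0 ≤ u) :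
    (((rbox J X).filter fun c => u ≤ |∑ j, c j * s j|).card : ℝ) ≤
      2 * ((2 * X + 1) ^ Fintype.card J * Real.exp (-(u ^ 2 / (2 * X ^ 2 * V)))) := by
  have hX' : (0 : ℝ) < X := by exact_mod_cast hX
  set t : ℝ := u / (X ^ 2 * V) with ht
  have ht0 : 0 ≤ t := by positivity
  have key : ∀ σ : ℝ, σ ^ 2 = 1 → ∑ c ∈ rbox J X, Real.exp (σ * t * ∑ j, c j * s j) ≤
      (2 * X + 1) ^ Fintype.card J * Real.exp (X ^ 2 * (t ^ 2 * V) / 2) := by
    intro σ hσ
    have := sum_exp_box X (fun j => σ * t * s j)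
    have e : ∀ c : J → ℤ, ∑ j, (c j : ℝ) * (σ * t * s j) = σ * t * ∑ j, (c j : ℝ) * s j := by
      intro c; rw [Finset.mul_sum]; exact Finset.sum_congr rfl fun j _ => by ring
    simp only [e] at this
    refine this.trans (mul_le_mul_of_nonneg_left (Real.exp_le_exp.2 ?_) (by positivity))
    have e2 : ∑ j, (σ * t * s j) ^ 2 = t ^ 2 * ∑ j, s j ^ 2 := by
      rw [Finset.mul_sum]
      exact Finset.sum_congr rfl fun j _ => by
        rw [mul_pow, mul_pow, hσ]; ring
    rw [e2]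
    have : t ^ 2 * ∑ j, s j ^ 2 ≤ t ^ 2 * V := mul_le_mul_of_nonneg_left hs (sq_nonneg _)
    have : (X : ℝ) ^ 2 * (t ^ 2 * ∑ j, s j ^ 2) ≤ (X : ℝ) ^ 2 * (t ^ 2 * V) :=
      mul_le_mul_of_nonneg_left this (sq_nonneg _)
    linarith
  have h1 : (((rbox J X).filter fun c => u ≤ |∑ j, c j * s j|).card : ℝ) * Real.exp (t * u) ≤
      ∑ c ∈ rbox J X, (Real.exp (1 * t * ∑ j, c j * s j) + Real.exp (-1 * t * ∑ j, c j * s j)) := by
    set F : (J → ℤ) → ℝ := fun c => Real.exp (1 * t * ∑ j, (c j : ℝ) * s j) +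
      Real.exp (-1 * t * ∑ j, (c j : ℝ) * s j) with hF
    have hF0 : ∀ c, 0 ≤ F c := fun c => by
      rw [hF]; exact add_nonneg (Real.exp_pos _).le (Real.exp_pos _).le
    have hsub : ∑ c ∈ (rbox J X).filter (fun c => u ≤ |∑ j, c j * s j|), F c ≤
        ∑ c ∈ rbox J X, F c :=
      Finset.sum_le_sum_of_subset_of_nonneg (Finset.filter_subset _ _) fun c _ _ => hF0 c
    refine le_trans ?_ hsub
    rw [← nsmul_eq_mul]
    refine Finset.card_nsmul_le_sum _ _ _ fun c hc => ?_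
    rw [Finset.mem_filter] at hc
    rw [hF]
    show Real.exp (t * u) ≤ Real.exp (1 * t * ∑ j, (c j : ℝ) * s j) +
      Real.exp (-1 * t * ∑ j, (c j : ℝ) * s j)
    rcases le_abs.1 hc.2 with h | h
    · have : Real.exp (t * u) ≤ Real.exp (1 * t * ∑ j, (c j : ℝ) * s j) := by
        apply Real.exp_le_exp.2
        rw [one_mul]
        exact mul_le_mul_of_nonneg_left h ht0
      linarith [Real.exp_pos (-1 * t * ∑ j, (c j : ℝ) * s j)]
    · have : Real.exp (t * u) ≤ Real.exp (-1 * t * ∑ j, (c j : ℝ) * s j) := by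
        apply Real.exp_le_exp.2
        have := mul_le_mul_of_nonneg_left h ht0
        linarith
      linarith [Real.exp_pos (1 * t * ∑ j, (c j : ℝ) * s j)]
  rw [Finset.sum_add_distrib] at h1
  have h2 := key 1 (by norm_num)
  have h3 := key (-1) (by norm_num)
  have h4 : (((rbox J X).filter fun c => u ≤ |∑ j, c j * s j|).card : ℝ) * Real.exp (t * u) ≤
      2 * ((2 * X + 1) ^ Fintype.card J * Real.exp (X ^ 2 * (t ^ 2 * V) / 2)) := by linarith
  have e1 : X ^ 2 * (t ^ 2 * V) / 2 = t * u + -(u ^ 2 / (2 * X ^ 2 * V)) := by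
    rw [ht]; field_simp; ring
  rw [e1, Real.exp_add] at h4
  have h5 : (0 : ℝ) < Real.exp (t * u) := Real.exp_pos _
  have h6 : (((rbox J X).filter fun c => u ≤ |∑ j, c j * s j|).card : ℝ) * Real.exp (t * u) ≤
      (2 * ((2 * X + 1) ^ Fintype.card J * Real.exp (-(u ^ 2 / (2 * X ^ 2 * V))))) *
        Real.exp (t * u) := by
    refine h4.trans (le_of_eq ?_); ring
  exact le_of_mul_le_mul_right h6 h5

/-- **Small combinations in the kernel of a homomorphism.** -/
theorem exists_small {B : Type*} [Fintype B] {A : Type*} [AddCommGroup A] [Fintype A]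
    (Φ : (J → ℤ) →+ A) {X : ℕ} (hX : 0 < X) {s : B → J → ℝ} {V u : ℝ} (hV : 0 < V)
    (hs : ∀ b, ∑ j, s b j ^ 2 ≤ V) (hu : 0 ≤ u)
    (hB : 4 * (Fintype.card B : ℝ) ≤ Real.exp (u ^ 2 / (2 * X ^ 2 * V)))
    (hA : 2 * Fintype.card A < (2 * X + 1) ^ Fintype.card J) :
    ∃ c : J → ℤ, c ≠ 0 ∧ Φ c = 0 ∧ (∀ j, |c j| ≤ 2 * X) ∧ ∀ b, |∑ j, c j * s b j| < 2 * u := by
  classical
  -- the good vectors
  set bad : Finset (J → ℤ) := (rbox J X).filter fun c => ∃ b, u ≤ |∑ j, c j * s b j| with hbad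
  set good : Finset (J → ℤ) := (rbox J X).filter fun c => ¬ ∃ b, u ≤ |∑ j, c j * s b j| with hgood
  have hcard : bad.card + good.card = (2 * X + 1) ^ Fintype.card J := by
    rw [hbad, hgood, Finset.card_filter_add_card_filter_not, card_rbox]
  have hsub : bad ⊆ Finset.univ.biUnion fun b : B =>
      (rbox J X).filter fun c => u ≤ |∑ j, c j * s b j| := by
    intro c hc
    rw [hbad, Finset.mem_filter] at hc
    obtain ⟨h1, b, hb⟩ := hc
    rw [Finset.mem_biUnion]
    exact ⟨b, Finset.mem_univ _, Finset.mem_filter.2 ⟨h1, hb⟩⟩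
  have hbad1 : (bad.card : ℝ) ≤ (Fintype.card B : ℝ) *
      (2 * ((2 * X + 1) ^ Fintype.card J * Real.exp (-(u ^ 2 / (2 * X ^ 2 * V))))) := by
    have h1 : bad.card ≤ ∑ b : B, ((rbox J X).filter fun c => u ≤ |∑ j, c j * s b j|).card :=
      (Finset.card_le_card hsub).trans Finset.card_biUnion_le
    have h2 : (bad.card : ℝ) ≤
        ∑ b : B, (((rbox J X).filter fun c => u ≤ |∑ j, c j * s b j|).card : ℝ) := by
      exact_mod_cast h1
    refine h2.trans ?_
    refine (Finset.sum_le_card_nsmul _ _ _ fun b _ => card_large_le hX hV (hs b) hu).trans ?_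
    rw [nsmul_eq_mul, Finset.card_univ]
  have hbad2 : 2 * (bad.card : ℝ) ≤ (2 * X + 1) ^ Fintype.card J := by
    have h1 : (0 : ℝ) < Real.exp (-(u ^ 2 / (2 * X ^ 2 * V))) := Real.exp_pos _
    have h2 : 4 * (Fintype.card B : ℝ) * Real.exp (-(u ^ 2 / (2 * X ^ 2 * V))) ≤ 1 := by
      have := mul_le_mul_of_nonneg_right hB h1.le
      rwa [← Real.exp_add, add_neg_cancel, Real.exp_zero] at this
    have h3 : (0 : ℝ) ≤ (2 * (X : ℝ) + 1) ^ Fintype.card J := by positivity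
    have h4 := mul_le_mul_of_nonneg_right h2 h3
    nlinarith
  have hgood1 : Fintype.card A < good.card := by
    have h1 : 2 * bad.card ≤ (2 * X + 1) ^ Fintype.card J := by
      exact_mod_cast hbad2
    omega
  obtain ⟨c₁, hc₁, c₂, hc₂, hne, heq⟩ :=
    Finset.exists_ne_map_eq_of_card_lt_of_maps_to (s := good) (t := (Finset.univ : Finset A))
      (by rw [Finset.card_univ]; exact hgood1) (f := Φ) (fun _ _ => Finset.mem_univ _)
  rw [hgood, Finset.mem_filter] at hc₁ hc₂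
  refine ⟨c₁ - c₂, sub_ne_zero.2 hne, by rw [map_sub, heq, sub_self], ?_, ?_⟩
  · intro j
    have h1 := mem_rbox.1 hc₁.1 j
    have h2 := mem_rbox.1 hc₂.1 j
    rw [Pi.sub_apply]
    calc |c₁ j - c₂ j| ≤ |c₁ j| + |c₂ j| := abs_sub _ _
      _ ≤ 2 * X := by linarith
  · intro b
    have h1 : |∑ j, (c₁ j : ℝ) * s b j| < u := by
      by_contra hcon; exact hc₁.2 ⟨b, not_lt.1 hcon⟩
    have h2 : |∑ j, (c₂ j : ℝ) * s b j| < u := by
      by_contra hcon; exact hc₂.2 ⟨b, not_lt.1 hcon⟩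
    have h3 : ∑ j, (((c₁ - c₂) j : ℤ) : ℝ) * s b j =
        ∑ j, (c₁ j : ℝ) * s b j - ∑ j, (c₂ j : ℝ) * s b j := by
      rw [← Finset.sum_sub_distrib]
      refine Finset.sum_congr rfl fun j _ => ?_
      rw [Pi.sub_apply]; push_cast; ring
    rw [h3]
    calc |∑ j, (c₁ j : ℝ) * s b j - ∑ j, (c₂ j : ℝ) * s b j|
        ≤ |∑ j, (c₁ j : ℝ) * s b j| + |∑ j, (c₂ j : ℝ) * s b j| := abs_sub _ _
      _ < 2 * u := by linarith

end Pool.Agent.MU1
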