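import Pool.Agent.MU1.LinkW
import Pool.Agent.MU1.Rand

/-!
# The number of branches divisible by `p`: combinatorial part
-/

set_option autoImplicit false

open Filter Topology Complex Function CongruenceSubgroup
open Matrix.SpecialLinearGroup (mapGL)
open scoped MatrixGroups Real ModularForm OnePoint ComplexConjugate

namespace Pool.Agent.MU1

open Pool.Agent.MZ Pool.Agent.MZ.Per

variable {p : ℕ} [hp : Fact p.Prime]

open Classical in
/-- The function on `ℤ/p` that is constant on the cosets of `U` and zero at zero. -/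
noncomputable def ext (U : Subgroup (ZMod p)ˣ) (c : ((ZMod p)ˣ ⧸ U) → ℤ) (x : ZMod p) : ℤ :=
  if h : x ≠ 0 then c (QuotientGroup.mk (Units.mk0 x h)) else 0

theorem ext_unit (U : Subgroup (ZMod p)ˣ) (c : ((ZMod p)ˣ ⧸ U) → ℤ) (x : (ZMod p)ˣ) :
    ext U c (x : ZMod p) = c (QuotientGroup.mk x) := by
  rw [ext, dif_pos x.ne_zero, Units.mk0_val]

theorem ext_even (U : Subgroup (ZMod p)ˣ) (hU : (-1 : (ZMod p)ˣ) ∈ U)
    (c : ((ZMod p)ˣ ⧸ U) → ℤ) (x : ZMod p) : ext U c (-x) = ext U c x := by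
  by_cases h : x = 0
  · subst h; rw [neg_zero]
  · have h' : -x ≠ 0 := neg_ne_zero.2 h
    have e1 : ext U c (-x) = ext U c ((Units.mk0 (-x) h' : (ZMod p)ˣ) : ZMod p) := by
      rw [Units.val_mk0]
    have e2 : ext U c x = ext U c ((Units.mk0 x h : (ZMod p)ˣ) : ZMod p) := by
      rw [Units.val_mk0]
    rw [e1, e2, ext_unit, ext_unit]
    congr 1
    rw [QuotientGroup.eq]
    have : (Units.mk0 (-x) h')⁻¹ * Units.mk0 x h = -1 := by
      rw [inv_mul_eq_iff_eq_mul]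
      apply Units.ext
      rw [Units.val_mul, Units.val_mk0, Units.val_mk0, Units.val_neg, Units.val_one]
      ring
    rw [this]
    exact hU

/-- `c ↦ chat p c ψ` as a homomorphism. -/
noncomputable def chatHom (U : Subgroup (ZMod p)ˣ) (ψ : DirichletCharacter ℤ_[p] p) :
    (((ZMod p)ˣ ⧸ U) → ℤ) →+ ℤ_[p] where
  toFun c := chat p (ext U c) ψ
  map_zero' := by
    rw [chat]
    refine Finset.sum_eq_zero fun x _ => ?_
    rw [ext_unit, Pi.zero_apply, Int.cast_zero, zero_mul]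
  map_add' c c' := by
    rw [chat, chat, chat, ← Finset.sum_add_distrib]
    refine Finset.sum_congr rfl fun x _ => ?_
    rw [ext_unit, ext_unit, ext_unit, Pi.add_apply]
    push_cast; ring

/-- The weights are orthogonal to the characters that are nontrivial on `U`. -/
theorem chat_eq_zero (U : Subgroup (ZMod p)ˣ) (c : ((ZMod p)ˣ ⧸ U) → ℤ)
    {ψ : DirichletCharacter ℤ_[p] p} (hψ : ¬ ∀ u ∈ U, ψ ((u : (ZMod p)ˣ) : ZMod p) = 1) :
    chat p (ext U c) ψ = 0 := by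
  push Not at hψ
  obtain ⟨u, hu, hψu⟩ := hψ
  have h1 : chat p (ext U c) ψ = ψ ((u : (ZMod p)ˣ) : ZMod p) * chat p (ext U c) ψ := by
    rw [chat, Finset.mul_sum]
    refine Fintype.sum_equiv (Equiv.mulLeft u) _ _ fun x => ?_
    rw [Equiv.coe_mulLeft, ext_unit, ext_unit]
    have e1 : (QuotientGroup.mk (u * x) : (ZMod p)ˣ ⧸ U) = QuotientGroup.mk x := by
      rw [mul_comm, QuotientGroup.mk_mul_of_mem x hu]
    rw [e1, mul_inv_rev, Units.val_mul, map_mul]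
    have e2 : ψ ((u : (ZMod p)ˣ) : ZMod p) * ψ (((u⁻¹ : (ZMod p)ˣ)) : ZMod p) = 1 := by
      rw [← map_mul, ← Units.val_mul, mul_inv_cancel, Units.val_one, map_one]
    linear_combination (-((c (QuotientGroup.mk x) : ℤ) : ℤ_[p]) *
      ψ (((x⁻¹ : (ZMod p)ˣ)) : ZMod p)) * e2
  have h2 : (ψ ((u : (ZMod p)ˣ) : ZMod p) - 1) * chat p (ext U c) ψ = 0 := by
    linear_combination -h1
  exact (mul_eq_zero.1 h2).resolve_left (sub_ne_zero.2 hψu)

open Classical in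
theorem ext_sum (U : Subgroup (ZMod p)ˣ) (c : ((ZMod p)ˣ ⧸ U) → ℤ) (x : ZMod p) :
    ext U c x = ∑ κ, c κ * ext U (Pi.single κ 1) x := by
  by_cases h : x = 0
  · subst h
    have h0 : ∀ c' : ((ZMod p)ˣ ⧸ U) → ℤ, ext U c' 0 = 0 := fun c' => by
      rw [ext, dif_neg (by simp)]
    rw [h0]
    simp [h0]
  · have e : ∀ c' : ((ZMod p)ˣ ⧸ U) → ℤ, ext U c' x = c' (QuotientGroup.mk (Units.mk0 x h)) := by
      intro c'
      have := ext_unit U c' (Units.mk0 x h)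
      rwa [Units.val_mk0] at this
    rw [e]
    simp only [e, Pi.single_apply, mul_ite, mul_one, mul_zero, Finset.sum_ite_eq,
      Finset.mem_univ, if_true]

open Classical in
theorem TTc_ext {N : ℕ} [NeZero N] (f : CuspForm (Gamma0 N) 2) (q : ℕ) [NeZero q]
    (U : Subgroup (ZMod p)ˣ) (c : ((ZMod p)ˣ ⧸ U) → ℤ) (b : (ZMod q)ˣ) :
    TTc f p q (ext U c) b = ∑ κ, (c κ : ℝ) * TTc f p q (ext U (Pi.single κ 1)) b := by
  simp only [TTc, Finset.mul_sum]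
  rw [Finset.sum_comm]
  refine Finset.sum_congr rfl fun ζ _ => ?_
  rw [ext_sum U c]
  push_cast
  rw [Finset.sum_mul]
  exact Finset.sum_congr rfl fun κ _ => by ring

open Classical in
theorem abs_TTc_single {N : ℕ} [NeZero N] (f : CuspForm (Gamma0 N) 2) {n q : ℕ} [NeZero q]
    (hq : q = p ^ (n + 1)) (U : Subgroup (ZMod p)ˣ) {M : ℝ}
    (hS : ∀ b : (ZMod q)ˣ, |S f ((((b : ZMod q).val : ℚ) / (q : ℚ) : ℚ) : OnePoint ℚ)| ≤ M)
    (κ : (ZMod p)ˣ ⧸ U) (b : (ZMod q)ˣ) :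
    |TTc f p q (ext U (Pi.single κ 1)) b| ≤ (Nat.card U : ℝ) * M := by
  rw [TTc]
  have hnn : ∀ x : ZMod p, 0 ≤ ext U (Pi.single κ 1) x := by
    intro x
    rw [ext]
    split_ifs with h
    · rw [Pi.single_apply]; split_ifs <;> norm_num
    · exact le_refl 0
  have h1 : |∑ ζ ∈ HH p q, ((ext U (Pi.single κ 1) (((ζ : ZMod q).val : ℕ) : ZMod p) : ℤ) : ℝ) *
      S f (((((ζ * b : (ZMod q)ˣ) : ZMod q).val : ℚ) / (q : ℚ) : ℚ) : OnePoint ℚ)| ≤
      ∑ ζ ∈ HH p q, ((ext U (Pi.single κ 1) (((ζ : ZMod q).val : ℕ) : ZMod p) : ℤ) : ℝ) * M := by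
    refine (Finset.abs_sum_le_sum_abs _ _).trans (Finset.sum_le_sum fun ζ _ => ?_)
    rw [abs_mul]
    have h2 : |((ext U (Pi.single κ 1) (((ζ : ZMod q).val : ℕ) : ZMod p) : ℤ) : ℝ)| =
        ((ext U (Pi.single κ 1) (((ζ : ZMod q).val : ℕ) : ZMod p) : ℤ) : ℝ) :=
      abs_of_nonneg (by exact_mod_cast hnn _)
    rw [h2]
    exact mul_le_mul_of_nonneg_left (hS (ζ * b)) (by exact_mod_cast hnn _)
  refine h1.trans (le_of_eq ?_)
  rw [← Finset.sum_mul]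
  congr 1
  have h3 := sum_resid hq (fun y : ZMod p => ((ext U (Pi.single κ 1) y : ℤ) : ℝ))
  rw [h3]
  have h4 : ∀ x : (ZMod p)ˣ, ((ext U (Pi.single κ 1) (x : ZMod p) : ℤ) : ℝ) =
      if (QuotientGroup.mk x : (ZMod p)ˣ ⧸ U) = κ then 1 else 0 := by
    intro x
    rw [ext_unit, Pi.single_apply]
    split_ifs <;> simp
  rw [Finset.sum_congr rfl fun x _ => h4 x, ← Finset.sum_filter, Finset.sum_const, nsmul_eq_mul,
    mul_one]
  obtain ⟨g, rfl⟩ := QuotientGroup.mk_surjective κ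
  congr 1
  rw [Nat.card_eq_fintype_card, ← Finset.card_univ]
  symm
  refine Finset.card_bij (fun u _ => g * (u : (ZMod p)ˣ)) ?_ ?_ ?_
  · intro u _
    rw [Finset.mem_filter]
    exact ⟨Finset.mem_univ _, QuotientGroup.mk_mul_of_mem g u.2⟩
  · intro u _ v _ huv
    exact Subtype.ext (mul_left_cancel huv)
  · intro x hx
    rw [Finset.mem_filter] at hx
    exact ⟨⟨g⁻¹ * x, QuotientGroup.eq.1 hx.2.symm⟩, Finset.mem_univ _, by simp⟩

open Classical in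
/-- **The main combinatorial inequality.** -/
theorem half_core {N : ℕ} [NeZero N] (hp2 : p ≠ 2) (hpN : ¬ p ∣ N)
    (f : CuspForm (Gamma0 N) 2) {a : ℕ → ℤ}
    (ha : ∀ n, (UpperHalfPlane.qExpansion 1 f).coeff n = a n) (ha1 : a 1 = 1)
    (hH : HeckeRel N a) {Ω : ℝ} (hΩ : Ω ≠ 0)
    (hper : {r : ℝ | ∃ γ ∈ Gamma1 N, r = (period f γ).re} = {r : ℝ | ∃ k : ℤ, r = k * Ω})
    {α : ℤ_[p]ˣ} (hα : (α : ℤ_[p]) ^ 2 - (a p : ℤ_[p]) * α + p = 0)
    {L : DirichletCharacter ℤ_[p] p → PowerSeries ℚ_[p]}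
    (hL : ∀ ψ : DirichletCharacter ℤ_[p] p, ψ (-1) = 1 → IsMSDBr p a Ω α ψ (L ψ))
    (U : Subgroup (ZMod p)ˣ) (hU : (-1 : (ZMod p)ˣ) ∈ U) (K : ℕ)
    (m : DirichletCharacter ℤ_[p] p → ℕ) (hmK : ∀ ψ, m ψ ≤ K)
    (hm : ∀ ψ : DirichletCharacter ℤ_[p] p, ψ (-1) = 1 → ∀ i,
      ‖PowerSeries.coeff i (L ψ)‖ ≤ ((p : ℝ) ^ m ψ)⁻¹)
    (n q : ℕ) [NeZero q] (hn : 1 ≤ n) (hq : q = p ^ (n + 1)) {M : ℝ} (hM : 0 < M)
    (hS : ∀ b : (ZMod q)ˣ, |S f ((((b : ZMod q).val : ℚ) / (q : ℚ) : ℚ) : OnePoint ℚ)| ≤ M)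
    (hcore : ∀ c : ZMod p → ℤ, (∃ x : (ZMod p)ˣ, c (x : ZMod p) ≠ 0) → (∀ x, c (-x) = c x) →
      ¬ ∀ b b' : (ZMod q)ˣ, (∃ t : ZMod q, (b' : ZMod q) = b + t * (p : ZMod q) ^ n) →
        TTc f p q c b = TTc f p q c b')
    (X : ℕ) (hX : 0 < X)
    (hB : 4 * (q : ℝ) ≤ Real.exp (((p : ℝ) ^ K * |Ω| / 4) ^ 2 /
      (2 * X ^ 2 * ((U.index : ℝ) * (Nat.card U * M) ^ 2)))) :
    (2 * X + 1) ^ U.index ≤ 2 * p ^ (∑ ψ ∈ (Finset.univ : Finset (DirichletCharacter ℤ_[p] p)).filter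
      (fun ψ => ∀ u ∈ U, ψ ((u : (ZMod p)ˣ) : ZMod p) = 1), (K - m ψ)) := by
  by_contra hcon
  push Not at hcon
  have hp0 : (0 : ℝ) < p := by exact_mod_cast hp.out.pos
  set D := {ψ : DirichletCharacter ℤ_[p] p // ∀ u ∈ U, ψ ((u : (ZMod p)ˣ) : ZMod p) = 1} with hD
  have hNZ : ∀ ψ : D, NeZero (p ^ (K - m ψ.1)) := fun ψ => ⟨pow_ne_zero _ hp.out.ne_zero⟩
  let A := (ψ : D) → ZMod (p ^ (K - m ψ.1))
  let Φ : (((ZMod p)ˣ ⧸ U) → ℤ) →+ A :=
    AddMonoidHom.pi fun ψ : D =>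
      ((PadicInt.toZModPow (p := p) (K - m ψ.1)).toAddMonoidHom).comp (chatHom U ψ.1)
  have hcardA : Fintype.card A = p ^ (∑ ψ ∈ (Finset.univ : Finset (DirichletCharacter ℤ_[p] p)).filter
      (fun ψ => ∀ u ∈ U, ψ ((u : (ZMod p)ˣ) : ZMod p) = 1), (K - m ψ)) := by
    rw [Fintype.card_pi]
    simp only [ZMod.card]
    rw [← Finset.prod_pow_eq_pow_sum]
    rw [← Finset.prod_subtype_eq_prod_filter (p := fun ψ : DirichletCharacter ℤ_[p] p =>
      ∀ u ∈ U, ψ ((u : (ZMod p)ˣ) : ZMod p) = 1) (fun ψ => p ^ (K - m ψ))]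
    simp
    rfl
  have hJ : Fintype.card ((ZMod p)ˣ ⧸ U) = U.index := by
    rw [Subgroup.index, Nat.card_eq_fintype_card]
  have hUc : 0 < Nat.card U := Nat.card_pos
  have hidx : 0 < U.index := Nat.pos_of_ne_zero (Subgroup.FiniteIndex.index_ne_zero)
  set u : ℝ := (p : ℝ) ^ K * |Ω| / 4 with hu
  have hu0 : 0 < u := by
    have := abs_pos.2 hΩ
    positivity
  obtain ⟨c, hc0, hΦ, -, hsmall⟩ := exists_small (J := (ZMod p)ˣ ⧸ U) (B := (ZMod q)ˣ) (A := A) Φ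
    (X := X) hX (s := fun b κ => TTc f p q (ext U (Pi.single κ 1)) b)
    (V := (U.index : ℝ) * (Nat.card U * M) ^ 2) (u := u)
    (by positivity) (by
      intro b
      have h1 : ∀ κ ∈ (Finset.univ : Finset ((ZMod p)ˣ ⧸ U)),
          (TTc f p q (ext U (Pi.single κ 1)) b) ^ 2 ≤ (Nat.card U * M) ^ 2 := by
        intro κ _
        rw [← sq_abs]
        exact pow_le_pow_left₀ (abs_nonneg _) (abs_TTc_single f hq U hS κ b) 2
      refine (Finset.sum_le_card_nsmul _ _ _ h1).trans ?_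
      rw [nsmul_eq_mul, Finset.card_univ, hJ]) hu0.le
    (by
      refine le_trans ?_ hB
      have h1 : Fintype.card (ZMod q)ˣ ≤ q := by
        rw [ZMod.card_units_eq_totient]; exact Nat.totient_le q
      have h2 : (Fintype.card (ZMod q)ˣ : ℝ) ≤ q := by exact_mod_cast h1
      linarith) (by rw [hcardA, hJ]; exact hcon)
  -- the weights annihilate all branches modulo `p ^ K`
  have hchat : ∀ ψ : DirichletCharacter ℤ_[p] p, ψ (-1) = 1 → ∀ i,
      ‖((chat p (ext U c) ψ : ℤ_[p]) : ℚ_[p]) * PowerSeries.coeff i (L ψ)‖ ≤ ((p : ℝ) ^ K)⁻¹ := by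
    intro ψ hψ i
    by_cases hψU : ∀ u ∈ U, ψ ((u : (ZMod p)ˣ) : ZMod p) = 1
    · have h1 := congrFun hΦ ⟨ψ, hψU⟩
      have h2 : PadicInt.toZModPow (p := p) (K - m ψ) (chat p (ext U c) ψ) = 0 := h1
      have h3 : chat p (ext U c) ψ ∈ RingHom.ker (PadicInt.toZModPow (p := p) (K - m ψ)) := h2
      rw [PadicInt.ker_toZModPow, Ideal.mem_span_singleton, dvd_iff_norm] at h3
      have h4 := hm ψ hψ i
      have h5 : ((p : ℝ) ^ K)⁻¹ = ((p : ℝ) ^ (K - m ψ))⁻¹ * ((p : ℝ) ^ m ψ)⁻¹ := by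
        rw [← mul_inv, ← pow_add, Nat.sub_add_cancel (hmK ψ)]
      rw [norm_mul, h5]
      exact mul_le_mul h3 h4 (norm_nonneg _) (by positivity)
    · rw [chat_eq_zero U c hψU]
      simp only [PadicInt.coe_zero, zero_mul, norm_zero]
      positivity
  have heven : ∀ x, ext U c (-x) = ext U c x := ext_even U hU c
  refine hcore (ext U c) ?_ heven ?_
  · by_contra hno
    push Not at hno
    apply hc0
    ext κ
    obtain ⟨g, rfl⟩ := QuotientGroup.mk_surjective κ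
    have := hno g
    rwa [ext_unit] at this
  · intro b b' hbb
    obtain ⟨k, hk⟩ := linkW hp2 hpN f ha ha1 hH hΩ hper hα hL (ext U c) K hchat n q hn hq b b' hbb
    have h1 : |TTc f p q (ext U c) b| < 2 * u := by
      rw [TTc_ext]; exact hsmall b
    have h2 : |TTc f p q (ext U c) b'| < 2 * u := by
      rw [TTc_ext]; exact hsmall b'
    have h3 : |(k : ℝ) * (p : ℝ) ^ K * Ω| < (p : ℝ) ^ K * |Ω| := by
      rw [← hk]
      calc |TTc f p q (ext U c) b - TTc f p q (ext U c) b'|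
          ≤ |TTc f p q (ext U c) b| + |TTc f p q (ext U c) b'| := abs_sub _ _
        _ < 2 * u + 2 * u := add_lt_add h1 h2
        _ = (p : ℝ) ^ K * |Ω| := by rw [hu]; ring
    have h4 : |(k : ℝ)| < 1 := by
      rw [abs_mul, abs_mul, abs_of_pos (pow_pos hp0 K), mul_assoc] at h3
      have h5 : 0 < (p : ℝ) ^ K * |Ω| := mul_pos (pow_pos hp0 K) (abs_pos.2 hΩ)
      nlinarith
    have h5 : k = 0 := by
      rw [← Int.abs_lt_one_iff]
      exact_mod_cast h4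
    rw [h5] at hk
    simp only [Int.cast_zero, zero_mul] at hk
    linarith

end Pool.Agent.MU1
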