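import Mathlib

/-!
# Kloosterman sums modulo an even power of an odd prime
-/

set_option autoImplicit false

namespace Pool.Agent.MU1

open Finset

lemma card_ker {M q : ℕ} [NeZero q] (hM : 0 < M) (hq : q = M * M) (c : ZMod q) :
    (Finset.univ.filter (fun x : ZMod q => (M : ZMod q) * (x - c) = 0)).card ≤ M := by
  classical
  have hsub : (Finset.univ.filter (fun x : ZMod q => (M : ZMod q) * (x - c) = 0)) ⊆
      (Finset.range M).image (fun j : ℕ => (c + (M : ZMod q) * (j : ZMod q))) := by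
    intro x hx
    rw [Finset.mem_filter] at hx
    have h := hx.2
    have h1 : ((M * (x - c).val : ℕ) : ZMod q) = 0 := by
      push_cast
      rw [ZMod.natCast_zmod_val]
      exact h
    rw [ZMod.natCast_eq_zero_iff] at h1
    have h2 : M * M ∣ M * (x - c).val := by
      rw [← hq]
      exact h1
    have h3 : M ∣ (x - c).val := Nat.dvd_of_mul_dvd_mul_left hM h2
    obtain ⟨j, hj⟩ := h3
    have h4 : (x - c).val < M * M := by
      have := ZMod.val_lt (x - c)
      omega
    have h5 : j < M := by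
      rw [hj] at h4
      exact lt_of_mul_lt_mul_left h4 (Nat.zero_le M)
    rw [Finset.mem_image]
    refine ⟨j, Finset.mem_range.2 h5, ?_⟩
    have h6 : x - c = (((x - c).val : ℕ) : ZMod q) := (ZMod.natCast_zmod_val (x - c)).symm
    rw [hj] at h6
    push_cast at h6
    rw [← h6]
    ring
  calc _ ≤ _ := Finset.card_le_card hsub
    _ ≤ (Finset.range M).card := Finset.card_image_le
    _ = M := Finset.card_range M

lemma isUnit_or {p : ℕ} (hp : p.Prime) {m q : ℕ} [NeZero q] (hq : q = p ^ m) (x y : ZMod q)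
    (h : IsUnit (x + y)) : IsUnit x ∨ IsUnit y := by
  by_cases hx : p ∣ x.val
  · right
    have hnil : IsNilpotent x := by
      refine ⟨m, ?_⟩
      obtain ⟨c, hc⟩ := hx
      have h6 : x = ((x.val : ℕ) : ZMod q) := (ZMod.natCast_zmod_val x).symm
      rw [h6, hc, ← Nat.cast_pow, ZMod.natCast_eq_zero_iff, mul_pow]
      exact Dvd.intro _ (by rw [hq])
    have h2 : IsUnit (x + y + -x) :=
      (hnil.neg).isUnit_add_left_of_commute h (Commute.all _ _)
    have h3 : x + y + -x = y := by ring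
    rwa [h3] at h2
  · left
    have hcop : Nat.Coprime x.val (p ^ m) :=
      Nat.Coprime.pow_right m ((Nat.Prime.coprime_iff_not_dvd hp).2 hx).symm
    rw [← hq] at hcop
    have h6 : x = ((x.val : ℕ) : ZMod q) := (ZMod.natCast_zmod_val x).symm
    rw [h6]
    exact (ZMod.isUnit_iff_coprime _ _).2 hcop

/-- Kloosterman sums modulo an even power of an odd prime. -/
theorem kloosterman_le {p : ℕ} (hp : p.Prime) (hp2 : p ≠ 2) {k q : ℕ} [NeZero q] (_hk : 1 ≤ k)
    (hq : q = p ^ (2 * k)) (u v : ZMod q) (hu : IsUnit u) :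
    ‖∑ b : (ZMod q)ˣ, ZMod.stdAddChar (u * (b : ZMod q) + v * ((b⁻¹ : (ZMod q)ˣ) : ZMod q))‖ ≤
      2 * (p : ℝ) ^ k := by
  classical
  obtain ⟨M, hMdef⟩ : ∃ M : ℕ, M = p ^ k := ⟨_, rfl⟩
  have hM : 0 < M := hMdef ▸ pow_pos hp.pos k
  have hqM : q = M * M := by rw [hq, hMdef, ← pow_add, two_mul]
  have hMM : (M : ZMod q) * (M : ZMod q) = 0 := by
    rw [← Nat.cast_mul, ← hqM, ZMod.natCast_self]
  have hw1 : ∀ t : ZMod q, (1 + (M : ZMod q) * t) * (1 - (M : ZMod q) * t) = 1 := by
    intro t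
    linear_combination (-(t * t)) * hMM
  have hw2 : ∀ t : ZMod q, (1 - (M : ZMod q) * t) * (1 + (M : ZMod q) * t) = 1 := by
    intro t
    linear_combination (-(t * t)) * hMM
  let w : ZMod q → (ZMod q)ˣ := fun t => ⟨1 + (M : ZMod q) * t, 1 - (M : ZMod q) * t, hw1 t, hw2 t⟩
  let F : (ZMod q)ˣ → ℂ := fun b =>
    ZMod.stdAddChar (u * (b : ZMod q) + v * ((b⁻¹ : (ZMod q)ˣ) : ZMod q))
  have hF : ∀ (t : ZMod q) (b : (ZMod q)ˣ), F (b * w t) = F b *
      ZMod.stdAddChar (t * ((M : ZMod q) * (u * (b : ZMod q) -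
        v * ((b⁻¹ : (ZMod q)ˣ) : ZMod q)))) := by
    intro t b
    have e1 : (((b * w t)⁻¹ : (ZMod q)ˣ) : ZMod q) =
        (1 - (M : ZMod q) * t) * ((b⁻¹ : (ZMod q)ˣ) : ZMod q) := by
      rw [mul_inv_rev, Units.val_mul]
      rfl
    have e2 : ((b * w t : (ZMod q)ˣ) : ZMod q) = (b : ZMod q) * (1 + (M : ZMod q) * t) := by
      rw [Units.val_mul]
    change ZMod.stdAddChar (u * ((b * w t : (ZMod q)ˣ) : ZMod q) +
      v * (((b * w t)⁻¹ : (ZMod q)ˣ) : ZMod q)) = ZMod.stdAddChar _ * _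
    rw [e1, e2, ← AddChar.map_add_eq_mul]
    congr 1
    ring
  have hS : ∀ t : ZMod q, ∑ b : (ZMod q)ˣ, F b = ∑ b : (ZMod q)ˣ, F (b * w t) := fun t =>
    (Equiv.sum_comp (Equiv.mulRight (w t)) F).symm
  have hsum : (q : ℂ) * ∑ b : (ZMod q)ˣ, F b =
      (q : ℂ) * ∑ b ∈ Finset.univ.filter (fun b : (ZMod q)ˣ => (M : ZMod q) *
        (u * (b : ZMod q) - v * ((b⁻¹ : (ZMod q)ˣ) : ZMod q)) = 0), F b := by
    have h1 : (q : ℂ) * ∑ b : (ZMod q)ˣ, F b = ∑ t : ZMod q, ∑ b : (ZMod q)ˣ, F (b * w t) := by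
      rw [← Finset.sum_congr rfl (fun t _ => hS t), Finset.sum_const, Finset.card_univ,
        ZMod.card, nsmul_eq_mul]
    rw [h1, Finset.sum_comm, Finset.mul_sum, Finset.sum_filter]
    refine Finset.sum_congr rfl fun b _ => ?_
    simp_rw [hF]
    rw [← Finset.mul_sum, AddChar.sum_mulShift _ (ZMod.isPrimitive_stdAddChar q)]
    split_ifs with h
    · rw [ZMod.card, mul_comm]
    · simp
  have hq0 : (q : ℂ) ≠ 0 := Nat.cast_ne_zero.2 (NeZero.ne q)
  have hsum2 := mul_left_cancel₀ hq0 hsum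
  change ‖∑ b : (ZMod q)ˣ, F b‖ ≤ _
  rw [hsum2]
  have hnorm : ∀ b : (ZMod q)ˣ, ‖F b‖ = 1 := by
    intro b
    change ‖(ZMod.stdAddChar _ : ℂ)‖ = 1
    rw [ZMod.stdAddChar_apply]
    exact Circle.norm_coe _
  set A := Finset.univ.filter (fun b : (ZMod q)ˣ => (M : ZMod q) *
        (u * (b : ZMod q) - v * ((b⁻¹ : (ZMod q)ˣ) : ZMod q)) = 0) with hA
  have hcard : A.card ≤ 2 * M := by
    rcases A.eq_empty_or_nonempty with h0 | ⟨b0, hb0⟩
    · rw [h0]
      simp
    · have key : A.image (fun b : (ZMod q)ˣ => (b : ZMod q)) ⊆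
          (Finset.univ.filter (fun x : ZMod q => (M : ZMod q) * (x - (b0 : ZMod q)) = 0)) ∪
          (Finset.univ.filter (fun x : ZMod q => (M : ZMod q) * (x - (-(b0 : ZMod q))) = 0)) := by
        intro x hx
        rw [Finset.mem_image] at hx
        obtain ⟨b, hb, rfl⟩ := hx
        rw [hA, Finset.mem_filter] at hb hb0
        have hb1 := hb.2
        have hb2 := hb0.2
        have i1 : (b : ZMod q) * ((b⁻¹ : (ZMod q)ˣ) : ZMod q) = 1 := Units.mul_inv b
        have i2 : (b0 : ZMod q) * ((b0⁻¹ : (ZMod q)ˣ) : ZMod q) = 1 := Units.mul_inv b0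
        have h1 : (M : ZMod q) * (u * (b : ZMod q) ^ 2 - v) = 0 := by
          linear_combination (b : ZMod q) * hb1 + (M : ZMod q) * v * i1
        have h2 : (M : ZMod q) * (u * (b0 : ZMod q) ^ 2 - v) = 0 := by
          linear_combination (b0 : ZMod q) * hb2 + (M : ZMod q) * v * i2
        have h3 : u * ((M : ZMod q) * (((b : ZMod q) - b0) * ((b : ZMod q) + b0))) = 0 := by
          linear_combination h1 - h2
        have h4 : (M : ZMod q) * (((b : ZMod q) - b0) * ((b : ZMod q) + b0)) = 0 :=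
          (hu.mul_right_eq_zero).1 h3
        have h2u : IsUnit (2 : ZMod q) := by
          have : ((2 : ℕ) : ZMod q) = 2 := by norm_cast
          rw [← this, ZMod.isUnit_iff_coprime, hq]
          exact Nat.Coprime.pow_right _ ((Nat.coprime_primes Nat.prime_two hp).2 (Ne.symm hp2))
        have h5 : IsUnit (((b : ZMod q) - b0) + ((b : ZMod q) + b0)) := by
          have : ((b : ZMod q) - b0) + ((b : ZMod q) + b0) = 2 * b := by ring
          rw [this]
          exact h2u.mul b.isUnit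
        rw [Finset.mem_union, Finset.mem_filter, Finset.mem_filter]
        rcases isUnit_or hp hq _ _ h5 with h6 | h6
        · right
          refine ⟨Finset.mem_univ _, ?_⟩
          rw [sub_neg_eq_add]
          refine (h6.mul_right_eq_zero).1 ?_
          linear_combination h4
        · left
          refine ⟨Finset.mem_univ _, ?_⟩
          refine (h6.mul_right_eq_zero).1 ?_
          linear_combination h4
      have hinj : (A.image (fun b : (ZMod q)ˣ => (b : ZMod q))).card = A.card :=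
        Finset.card_image_of_injective _ Units.val_injective
      calc A.card = _ := hinj.symm
        _ ≤ _ := Finset.card_le_card key
        _ ≤ _ := Finset.card_union_le _ _
        _ ≤ M + M := Nat.add_le_add (card_ker hM hqM _) (card_ker hM hqM _)
        _ = 2 * M := by ring
  calc ‖∑ b ∈ A, F b‖ ≤ ∑ b ∈ A, ‖F b‖ := norm_sum_le _ _
    _ = (A.card : ℝ) := by
        rw [Finset.sum_congr rfl (fun b _ => hnorm b)]
        simp
    _ ≤ ((2 * M : ℕ) : ℝ) := Nat.cast_le.2 hcard
    _ = 2 * (p : ℝ) ^ k := by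
        rw [hMdef]
        push_cast
        ring

end Pool.Agent.MU1
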