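import Pool.Agent.MU1.Defs

set_option autoImplicit false

open Finset

namespace Pool.Agent.MU1

/-- nonunits are multiples of `p` -/
theorem exists_of_not_isUnit {p : ℕ} (hp : p.Prime) {m q : ℕ} [NeZero q] (hq : q = p ^ m)
    {x : ZMod q} (hx : ¬ IsUnit x) : ∃ w : ZMod q, x = (p : ZMod q) * w := by
  have h1 : ¬ Nat.Coprime x.val q := by
    rw [← ZMod.isUnit_iff_coprime, ZMod.natCast_zmod_val]
    exact hx
  have h2 : p ∣ x.val := by
    by_contra h
    apply h1
    have h3 : Nat.Coprime x.val (p ^ m) :=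
      Nat.Coprime.pow_right _ ((Nat.Prime.coprime_iff_not_dvd hp).2 h).symm
    rwa [← hq] at h3
  obtain ⟨w, hw⟩ := h2
  refine ⟨(w : ZMod q), ?_⟩
  rw [← Nat.cast_mul, ← hw, ZMod.natCast_zmod_val]

theorem not_isUnit_p {p : ℕ} (hp : p.Prime) {m q : ℕ} [NeZero q] (hm : 1 ≤ m) (hq : q = p ^ m)
    (w : ZMod q) : ¬ IsUnit ((p : ZMod q) * w) := by
  intro h
  have h1 := (isUnit_of_mul_isUnit_left h).pow m
  rw [← Nat.cast_pow, ← hq, ZMod.natCast_self, isUnit_zero_iff] at h1
  have h2 : Nontrivial (ZMod q) := by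
    rw [ZMod.nontrivial_iff, hq]
    intro h3
    have h4 := Nat.one_lt_pow (by omega : m ≠ 0) hp.one_lt
    omega
  exact zero_ne_one h1

/-- the annihilator of `p^k` modulo `p^(2k)` has at most `p^k` elements -/
theorem card_ann {p : ℕ} (hp : p.Prime) {k q : ℕ} [NeZero q] (hq : q = p ^ (2 * k)) :
    (univ.filter (fun x : ZMod q => (p : ZMod q) ^ k * x = 0)).card ≤ p ^ k := by
  have hpk : 0 < p ^ k := pow_pos hp.pos k
  have hdvd : ∀ x : ZMod q, (p : ZMod q) ^ k * x = 0 → p ^ k ∣ x.val := by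
    intro x hx
    have h1 : ((p ^ k * x.val : ℕ) : ZMod q) = 0 := by
      push_cast
      rw [ZMod.natCast_zmod_val, hx]
    rw [ZMod.natCast_eq_zero_iff] at h1
    have h2 : p ^ k * p ^ k ∣ p ^ k * x.val := by
      rw [← pow_add, ← two_mul]
      exact (Dvd.intro_left 1 (by rw [one_mul, hq])).trans h1
    exact Nat.dvd_of_mul_dvd_mul_left hpk h2
  calc (univ.filter (fun x : ZMod q => (p : ZMod q) ^ k * x = 0)).card ≤ (range (p ^ k)).card := by
        refine card_le_card_of_injOn (fun x => x.val / p ^ k) ?_ ?_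
        · intro x hx
          simp only [coe_filter, mem_univ, true_and, Set.mem_ofPred_eq] at hx
          simp only [coe_range, Set.mem_Iio]
          rw [Nat.div_lt_iff_lt_mul hpk, ← pow_add, ← two_mul, ← hq]
          exact ZMod.val_lt x
        · intro x hx z hz hxz
          simp only [coe_filter, mem_univ, true_and, Set.mem_ofPred_eq] at hx hz
          simp only at hxz
          apply ZMod.val_injective q
          rw [← Nat.div_mul_cancel (hdvd x hx), ← Nat.div_mul_cancel (hdvd z hz), hxz]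
    _ = p ^ k := card_range _

theorem kloosterman_le {p : ℕ} (hp : p.Prime) (hp2 : p ≠ 2) {k q : ℕ} [NeZero q] (hk : 1 ≤ k)
    (hq : q = p ^ (2 * k)) (u v : ZMod q) (hu : IsUnit u) :
    ‖∑ b : (ZMod q)ˣ, ZMod.stdAddChar (u * (b : ZMod q) + v * ((b⁻¹ : (ZMod q)ˣ) : ZMod q))‖ ≤
      2 * (p : ℝ) ^ k := by
  set P : ZMod q := (p : ZMod q) ^ k with hP
  have hPP : P * P = 0 := by
    rw [hP, ← pow_add, ← two_mul, ← Nat.cast_pow, ← hq]
    exact ZMod.natCast_self q
  set E : AddChar (ZMod q) ℂ := ZMod.stdAddChar with hE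
  -- the unit `1 + t P`
  have hunit : ∀ t : ZMod q, (1 + t * P) * (1 - t * P) = 1 := by
    intro t
    linear_combination (-(t * t)) * hPP
  set g : ZMod q → (ZMod q)ˣ := fun t => Units.mkOfMulEqOne _ _ (hunit t) with hg
  have hgv : ∀ t, ((g t : (ZMod q)ˣ) : ZMod q) = 1 + t * P := fun t => rfl
  have hgi : ∀ t, (((g t)⁻¹ : (ZMod q)ˣ) : ZMod q) = 1 - t * P := by
    intro t
    have h1 : ((g t : (ZMod q)ˣ) : ZMod q) * (((g t)⁻¹ : (ZMod q)ˣ) : ZMod q) = 1 := by
      rw [← Units.val_mul, mul_inv_cancel, Units.val_one]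
    rw [hgv] at h1
    linear_combination (1 - t * P) * h1 - (((g t)⁻¹ : (ZMod q)ˣ) : ZMod q) * hunit t
  set S : ℂ := ∑ b : (ZMod q)ˣ, E (u * (b : ZMod q) + v * ((b⁻¹ : (ZMod q)ˣ) : ZMod q)) with hS
  have hshift : ∀ t : ZMod q, S = ∑ b : (ZMod q)ˣ, E (u * (b : ZMod q) + v * ((b⁻¹ : (ZMod q)ˣ) : ZMod q)) *
      E (t * (P * (u * (b : ZMod q) - v * ((b⁻¹ : (ZMod q)ˣ) : ZMod q)))) := by
    intro t
    rw [hS, ← Equiv.sum_comp (Equiv.mulLeft (g t))]
    refine sum_congr rfl fun b _ => ?_
    rw [Equiv.coe_mulLeft, ← AddChar.map_add_eq_mul, mul_inv, Units.val_mul, Units.val_mul, hgv, hgi]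
    congr 1
    ring
  have hq0 : (q : ℂ) ≠ 0 := by exact_mod_cast NeZero.ne q
  -- average over `t`
  have havg : (q : ℂ) * S = (q : ℂ) * ∑ b ∈ univ.filter (fun b : (ZMod q)ˣ =>
      P * (u * (b : ZMod q) - v * ((b⁻¹ : (ZMod q)ˣ) : ZMod q)) = 0),
        E (u * (b : ZMod q) + v * ((b⁻¹ : (ZMod q)ˣ) : ZMod q)) := by
    have h1 : (q : ℂ) * S = ∑ t : ZMod q, S := by
      rw [sum_const, card_univ, ZMod.card, nsmul_eq_mul]
    rw [h1, sum_congr rfl fun t _ => hshift t, sum_comm, mul_sum, sum_filter]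
    refine sum_congr rfl fun b _ => ?_
    rw [← mul_sum, AddChar.sum_mulShift _ (ZMod.isPrimitive_stdAddChar q), ZMod.card]
    split_ifs with h
    · ring
    · simp
  have hS2 := mul_left_cancel₀ hq0 havg
  rw [hS2]
  refine (norm_sum_le _ _).trans ?_
  have hnorm : ∀ x : ZMod q, ‖E x‖ = 1 := by
    intro x
    rw [hE, ZMod.stdAddChar_apply]
    exact Circle.norm_coe _
  simp only [hnorm, sum_const, nsmul_eq_mul, mul_one]
  -- counting
  set A := univ.filter (fun b : (ZMod q)ˣ =>
      P * (u * (b : ZMod q) - v * ((b⁻¹ : (ZMod q)ˣ) : ZMod q)) = 0) with hA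
  have hcount : A.card ≤ 2 * p ^ k := by
    have hq2 : 1 ≤ 2 * k := by omega
    rcases A.eq_empty_or_nonempty with hAe | ⟨b₀, hb₀⟩
    · rw [hAe, card_empty]
      exact Nat.zero_le _
    have hmem : ∀ b ∈ A, P * (u * (b : ZMod q) ^ 2 - v) = 0 := by
      intro b hb
      rw [hA, mem_filter] at hb
      have h1 : (b : ZMod q) * ((b⁻¹ : (ZMod q)ˣ) : ZMod q) = 1 := by
        rw [← Units.val_mul, mul_inv_cancel, Units.val_one]
      linear_combination (b : ZMod q) * hb.2 + P * v * h1
    have h2unit : IsUnit (2 : ZMod q) := by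
      by_contra h
      obtain ⟨w, hw⟩ := exists_of_not_isUnit hp hq h
      have h1 : IsUnit ((2 : ℕ) : ZMod q) := by
        rw [ZMod.isUnit_iff_coprime, hq]
        exact Nat.Coprime.pow_right _ ((Nat.coprime_primes Nat.prime_two hp).2 (Ne.symm hp2))
      exact h (by exact_mod_cast h1)
    have hsub : A ⊆ (univ.filter (fun b : (ZMod q)ˣ => P * ((b : ZMod q) - b₀) = 0)) ∪
        (univ.filter (fun b : (ZMod q)ˣ => P * ((b : ZMod q) + b₀) = 0)) := by
      intro b hb
      rw [mem_union, mem_filter, mem_filter]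
      have h1 := hmem b hb
      have h2 := hmem b₀ hb₀
      have h3 : P * (((b : ZMod q) - b₀) * ((b : ZMod q) + b₀)) = 0 := by
        have h4 : u * (P * (((b : ZMod q) - b₀) * ((b : ZMod q) + b₀))) = 0 := by
          linear_combination h1 - h2
        exact (IsUnit.mul_right_eq_zero hu).1 h4
      by_cases h4 : IsUnit ((b : ZMod q) + b₀)
      · left
        refine ⟨mem_univ _, (IsUnit.mul_left_eq_zero h4).1 ?_⟩
        rw [mul_assoc]
        exact h3
      · by_cases h5 : IsUnit ((b : ZMod q) - b₀)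
        · right
          refine ⟨mem_univ _, (IsUnit.mul_left_eq_zero h5).1 ?_⟩
          linear_combination h3
        · exfalso
          obtain ⟨w1, hw1⟩ := exists_of_not_isUnit hp hq h4
          obtain ⟨w2, hw2⟩ := exists_of_not_isUnit hp hq h5
          have h6 : IsUnit ((p : ZMod q) * (w1 + w2)) := by
            have : (p : ZMod q) * (w1 + w2) = 2 * b := by linear_combination -hw1 - hw2
            rw [this]
            exact h2unit.mul b.isUnit
          exact not_isUnit_p hp hq2 hq _ h6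
    refine (card_le_card hsub).trans ((card_union_le _ _).trans ?_)
    have hc1 : (univ.filter (fun b : (ZMod q)ˣ => P * ((b : ZMod q) - b₀) = 0)).card ≤ p ^ k := by
      refine le_trans ?_ (card_ann hp hq)
      refine card_le_card_of_injOn (fun b => (b : ZMod q) - b₀) ?_ ?_
      · intro b hb
        simp only [coe_filter, mem_univ, true_and, Set.mem_ofPred_eq] at hb ⊢
        exact hb
      · intro b _ b' _ h
        simp only at h
        exact Units.ext (sub_left_injective h)
    have hc2 : (univ.filter (fun b : (ZMod q)ˣ => P * ((b : ZMod q) + b₀) = 0)).card ≤ p ^ k := by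
      refine le_trans ?_ (card_ann hp hq)
      refine card_le_card_of_injOn (fun b => (b : ZMod q) + b₀) ?_ ?_
      · intro b hb
        simp only [coe_filter, mem_univ, true_and, Set.mem_ofPred_eq] at hb ⊢
        exact hb
      · intro b _ b' _ h
        simp only at h
        exact Units.ext (add_left_injective _ h)
    omega
  exact_mod_cast hcount

end Pool.Agent.MU1
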