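import Pool.Agent.MU1.LinkW

/-!
# Divisibility of one branch of the `p`-adic `L`-function and twisted sums of modular symbols
-/

set_option autoImplicit false

open Filter Topology Complex Function CongruenceSubgroup
open Matrix.SpecialLinearGroup (mapGL)
open scoped MatrixGroups Real ModularForm OnePoint ComplexConjugate

namespace Pool.Agent.MU1

open Pool.Agent.MZ Pool.Agent.MZ.Per

/-- the classes of a given logarithm are a coset of the roots of unity -/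
theorem sum_class {A : Type*} [AddCommMonoid A] {p : ℕ} (hp : p.Prime)
    (n q : ℕ) [NeZero q] (hq : q = p ^ (n + 1)) (j : ℕ) (b : (ZMod q)ˣ)
    (hj : ((b : ZMod q).val) ^ (p - 1) ≡ (1 + p) ^ (j * (p - 1)) [MOD p ^ (n + 1)])
    (F : ℕ → A) :
    ∑ a ∈ (Finset.range (p ^ (n + 1))).filter
      (fun a => ¬ p ∣ a ∧ a ^ (p - 1) ≡ (1 + p) ^ (j * (p - 1)) [MOD p ^ (n + 1)]), F a =
      ∑ ζ ∈ HH p q, F (((ζ * b : (ZMod q)ˣ) : ZMod q).val) := by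
  subst hq
  have hcop : ∀ u : (ZMod (p ^ (n + 1)))ˣ, Nat.Coprime ((u : ZMod (p ^ (n + 1))).val) (p ^ (n + 1)) :=
    fun u => ZMod.val_coe_unit_coprime u
  have hpd : ∀ u : (ZMod (p ^ (n + 1)))ˣ, ¬ p ∣ (u : ZMod (p ^ (n + 1))).val := by
    intro u h
    have h1 := Nat.dvd_gcd h (dvd_pow_self p (Nat.succ_ne_zero n))
    rw [hcop u] at h1
    exact hp.one_lt.ne' (Nat.dvd_one.1 h1)
  symm
  refine Finset.sum_bij (fun (ζ : (ZMod (p ^ (n + 1)))ˣ) _ =>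
    (((ζ * b : (ZMod (p ^ (n + 1)))ˣ) : ZMod (p ^ (n + 1))).val : ℕ)) ?_ ?_ ?_ ?_
  · intro ζ hζ
    rw [HH, Finset.mem_filter] at hζ
    rw [Finset.mem_filter, Finset.mem_range]
    refine ⟨ZMod.val_lt _, hpd _, ?_⟩
    refine Nat.ModEq.trans ?_ hj
    have h1 : (((ζ * b : (ZMod (p ^ (n + 1)))ˣ) : ZMod (p ^ (n + 1)))) ^ (p - 1) =
        (b : ZMod (p ^ (n + 1))) ^ (p - 1) := by
      rw [← Units.val_pow_eq_pow_val, _root_.mul_pow, hζ.2, one_mul, Units.val_pow_eq_pow_val]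
    rw [← ZMod.natCast_eq_natCast_iff, Nat.cast_pow, Nat.cast_pow, ZMod.natCast_zmod_val,
      ZMod.natCast_zmod_val]
    exact h1
  · intro ζ _ ζ' _ h
    have h1 := ZMod.val_injective _ h
    exact mul_right_cancel (Units.ext h1)
  · intro a ha
    rw [Finset.mem_filter, Finset.mem_range] at ha
    obtain ⟨hal, hpa, haj⟩ := ha
    have hca : Nat.Coprime a (p ^ (n + 1)) :=
      ((Nat.Prime.coprime_iff_not_dvd hp).2 hpa).symm.pow_right _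
    refine ⟨ZMod.unitOfCoprime a hca * b⁻¹, ?_, ?_⟩
    · rw [HH, Finset.mem_filter]
      refine ⟨Finset.mem_univ _, ?_⟩
      rw [_root_.mul_pow, inv_pow, mul_inv_eq_one]
      apply Units.ext
      rw [Units.val_pow_eq_pow_val, Units.val_pow_eq_pow_val, ZMod.coe_unitOfCoprime]
      have h1 := haj.trans hj.symm
      rw [← ZMod.natCast_eq_natCast_iff] at h1
      push_cast at h1
      rw [h1, ZMod.natCast_zmod_val]
    · rw [inv_mul_cancel_right, ZMod.coe_unitOfCoprime, ZMod.val_natCast, Nat.mod_eq_of_lt hal]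
  · intro ζ _
    rfl

/-- If the branch `ψ` of the `p`-adic `L`-function is divisible by `p^K` and the differences
`S(ζ b / q) - S(ζ b' / q)` are `m(ζ) Ω` with integers `m(ζ)`, `b = b'` modulo `q / p`, then
`p^K` divides `∑_ζ ψ(ζ) m(ζ)`. -/
theorem linkOne {N : ℕ} [NeZero N] {p : ℕ} [hp : Fact p.Prime] (hp2 : p ≠ 2) (hpN : ¬ p ∣ N)
    (f : CuspForm (Gamma0 N) 2) {a : ℕ → ℤ}
    (ha : ∀ n, (UpperHalfPlane.qExpansion 1 f).coeff n = a n) (ha1 : a 1 = 1)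
    (hH : HeckeRel N a) {Ω : ℝ} (hΩ : Ω ≠ 0)
    (hper : {r : ℝ | ∃ γ ∈ Gamma1 N, r = (period f γ).re} = {r : ℝ | ∃ k : ℤ, r = k * Ω})
    {α : ℤ_[p]ˣ} (hα : (α : ℤ_[p]) ^ 2 - (a p : ℤ_[p]) * α + p = 0)
    {ψ : DirichletCharacter ℤ_[p] p} (hψ : ψ (-1) = 1) {L : PowerSeries ℚ_[p]}
    (hL : IsMSDBr p a Ω α ψ L) (K : ℕ) (hK : ∀ i, ‖PowerSeries.coeff i L‖ ≤ ((p : ℝ) ^ K)⁻¹)
    (n q : ℕ) [NeZero q] (hn : 1 ≤ n) (hq : q = p ^ (n + 1)) (b b' : (ZMod q)ˣ)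
    (hbb : ∃ t : ZMod q, (b' : ZMod q) = b + t * (p : ZMod q) ^ n) (m : (ZMod q)ˣ → ℤ)
    (hm : ∀ ζ ∈ HH p q,
      S f (((((ζ * b : (ZMod q)ˣ) : ZMod q).val : ℚ) / (q : ℚ) : ℚ) : OnePoint ℚ) -
      S f (((((ζ * b' : (ZMod q)ˣ) : ZMod q).val : ℚ) / (q : ℚ) : ℚ) : OnePoint ℚ) = m ζ * Ω) :
    (p : ℤ_[p]) ^ K ∣ ∑ ζ ∈ HH p q, ψ (((ζ : ZMod q).val : ℕ) : ZMod p) * (m ζ : ℤ_[p]) := by
  -- the auxiliary prime and the integral symbol
  have hf0 : ∃ τ : UpperHalfPlane, f τ ≠ 0 := by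
    by_contra hcon
    push Not at hcon
    have h1 : (f : UpperHalfPlane → ℂ) = 0 := by
      ext τ
      exact hcon τ
    have h2 := ha 1
    rw [h1, UpperHalfPlane.qExpansion_zero, map_zero, ha1] at h2
    norm_num at h2
  obtain ⟨l, hl, -, hl1, hlN, hal⟩ := exists_prime_ne f hf0 (a := fun n => ((a n : ℤ) : ℂ)) ha
    (by
      intro l hl hlN n
      have := hH l hl hlN n
      rw [← Int.cast_mul, ← this]
      push_cast
      rfl) 0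
  set u : ℤ := (l : ℤ) + 1 - a l with hu
  have hu0 : u ≠ 0 := by
    intro h0
    apply hal
    have h1 : a l = (l : ℤ) + 1 := by linarith
    rw [h1]
    push_cast
    rfl
  have hl1' : (N : ℤ) ∣ (l : ℤ) - 1 := by
    have := (Nat.modEq_iff_dvd.1 hl1.symm)
    exact_mod_cast this
  have hper' : ∀ γ ∈ Gamma1 N, (period f γ).re ∈ AddSubgroup.zmultiples Ω := by
    intro γ hγ
    have h1 : (period f γ).re ∈ {r : ℝ | ∃ k : ℤ, r = k * Ω} := by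
      rw [← hper]
      exact ⟨γ, hγ, rfl⟩
    obtain ⟨k, hk⟩ := h1
    rw [AddSubgroup.mem_zmultiples_iff]
    exact ⟨k, by rw [hk, zsmul_eq_mul]⟩
  obtain ⟨φ, hφ, hsign, hhecke⟩ := exists_int_sym f ha hH hΩ hper' hl hl1'
  set φp : ModSym N ℤ_[p] := φ.map (Int.castRingHom ℤ_[p]) with hφp
  have hHp : ∀ q : ℕ, q.Prime → ¬ q ∣ N → φp.HeckeEigen q ((a q : ℤ) : ℤ_[p]) :=
    fun q hq hqN => (hhecke q hq hqN).map _
  obtain ⟨K₀, hK₀, hKu⟩ := exists_norm_int (p := p) hu0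
  have hp0 : (0 : ℝ) < p := by exact_mod_cast hp.out.pos
  have hu0' : (u : ℚ_[p]) ≠ 0 := by exact_mod_cast hu0
  -- divisibility of the coefficients
  have hcc : ∀ j < p ^ n, (p : ℤ_[p]) ^ (K + K₀) ∣ ccBr φp p α ψ n j := by
    obtain ⟨L₀, hL₀, -⟩ := existsUnique_padicLBr hp2 φp α _ (hHp p hp.out hpN) hα ψ
    have hMSD := isMSDBr_exists hp2 f ha hα hu0 hφ (hhecke p hp.out hpN) hψ hL₀
    have hLL := isMSDBr_unique hp2 hΩ hψ hL hMSD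
    have hdiv : ∀ i, (p : ℤ_[p]) ^ (K + K₀) ∣ PowerSeries.coeff i L₀ := by
      intro i
      have h1 := hK i
      rw [hLL, PowerSeries.coeff_mk, norm_div, hK₀] at h1
      rw [dvd_iff_norm, pow_add, mul_inv]
      rw [div_le_iff₀ (by positivity)] at h1
      exact h1
    refine content_mp (K + K₀) n (fun j => ccBr φp p α ψ n j) L₀ ?_ hdiv
    rw [← thetaBr_eq]
    exact hL₀ n
  -- the sums over the cosets
  have hpd : ∀ u : (ZMod q)ˣ, ¬ p ∣ (u : ZMod q).val := by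
    intro u h
    exact resid_ne hq u ((ZMod.natCast_eq_zero_iff _ _).2 h)
  have hsum : ∀ b : (ZMod q)ˣ, (p : ℤ_[p]) ^ (K + K₀) ∣
      ∑ ζ ∈ HH p q, ψ (((ζ : ZMod q).val : ℕ) : ZMod p) *
        msd φp p α n ((((ζ * b : (ZMod q)ˣ) : ZMod q).val : ℕ) : ℤ) := by
    intro b
    obtain ⟨j, hj, hjb⟩ := exists_log hp.out hp2 n (hpd b)
    have h1 := hcc j hj
    rw [ccBr, sum_class hp.out n q hq j b hjb] at h1
    have h2 : ∑ ζ ∈ HH p q, ψ (((((ζ * b : (ZMod q)ˣ) : ZMod q).val : ℕ)) : ZMod p) *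
        msd φp p α n ((((ζ * b : (ZMod q)ˣ) : ZMod q).val : ℕ) : ℤ) =
        ψ (((b : ZMod q).val : ℕ) : ZMod p) *
        ∑ ζ ∈ HH p q, ψ (((ζ : ZMod q).val : ℕ) : ZMod p) *
          msd φp p α n ((((ζ * b : (ZMod q)ˣ) : ZMod q).val : ℕ) : ℤ) := by
      rw [Finset.mul_sum]
      refine Finset.sum_congr rfl fun ζ _ => ?_
      rw [resid_mul hq, map_mul]
      ring
    rw [h2] at h1
    have hunit : IsUnit (ψ (((b : ZMod q).val : ℕ) : ZMod p)) := by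
      apply IsUnit.map
      exact isUnit_iff_ne_zero.2 (resid_ne hq b)
    exact (hunit.dvd_mul_left).1 h1
  -- congruence of the numerators modulo `p ^ n`
  obtain ⟨t, ht⟩ := hbb
  have hmod : ∀ ζ : (ZMod q)ˣ, ∃ m : ℤ, ((((ζ * b' : (ZMod q)ˣ) : ZMod q).val : ℕ) : ℤ) =
      ((((ζ * b : (ZMod q)ˣ) : ZMod q).val : ℕ) : ℤ) + m * (p : ℤ) ^ n := by
    intro ζ
    have h1 : (((((((ζ * b' : (ZMod q)ˣ) : ZMod q).val : ℕ) : ℤ) -
        ((((ζ * b : (ZMod q)ˣ) : ZMod q).val : ℕ) : ℤ) : ℤ)) : ZMod q) =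
        (((((ζ : ZMod q) * t).val : ℕ) : ℤ) * (p : ℤ) ^ n : ℤ) := by
      push_cast
      rw [ZMod.natCast_zmod_val, ZMod.natCast_zmod_val, ZMod.natCast_zmod_val]
      rw [ht]
      ring
    rw [ZMod.intCast_eq_intCast_iff_dvd_sub] at h1
    obtain ⟨c, hc⟩ := h1
    have hqp : ((q : ℕ) : ℤ) = (p : ℤ) ^ n * p := by rw [hq]; push_cast; ring
    rw [hqp] at hc
    refine ⟨((((ζ : ZMod q) * t).val : ℕ) : ℤ) - p * c, ?_⟩
    linear_combination -hc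
  -- the symbols are `u m(ζ)`
  have hD : ∀ ζ ∈ HH p q,
      φ.val ∞ (((((ζ * b : (ZMod q)ˣ) : ZMod q).val : ℚ) / (q : ℚ) : ℚ) : OnePoint ℚ) -
      φ.val ∞ (((((ζ * b' : (ZMod q)ˣ) : ZMod q).val : ℚ) / (q : ℚ) : ℚ) : OnePoint ℚ) =
        u * m ζ := by
    intro ζ hζ
    have e1 := hφ (((((ζ * b : (ZMod q)ˣ) : ZMod q).val : ℚ) / (q : ℚ) : ℚ) : OnePoint ℚ)
    have e2 := hφ (((((ζ * b' : (ZMod q)ˣ) : ZMod q).val : ℚ) / (q : ℚ) : ℚ) : OnePoint ℚ)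
    have e3 := hm ζ hζ
    have h1 : ((φ.val ∞ (((((ζ * b : (ZMod q)ˣ) : ZMod q).val : ℚ) / (q : ℚ) : ℚ) : OnePoint ℚ) -
      φ.val ∞ (((((ζ * b' : (ZMod q)ˣ) : ZMod q).val : ℚ) / (q : ℚ) : ℚ) : OnePoint ℚ) : ℤ) : ℝ)
        * Ω = ((u * m ζ : ℤ) : ℝ) * Ω := by
      push_cast
      linear_combination (-1 : ℝ) * e1 + e2 + (u : ℝ) * e3
    exact_mod_cast mul_right_cancel₀ hΩ h1
  have hDp : (p : ℤ_[p]) ^ (K + K₀) ∣ (u : ℤ_[p]) *
      ∑ ζ ∈ HH p q, ψ (((ζ : ZMod q).val : ℕ) : ZMod p) * (m ζ : ℤ_[p]) := by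
    have h1 := dvd_sub (hsum b) (hsum b')
    rw [← Finset.sum_sub_distrib] at h1
    have h2 : ∑ ζ ∈ HH p q,
        (ψ (((ζ : ZMod q).val : ℕ) : ZMod p) *
          msd φp p α n ((((ζ * b : (ZMod q)ˣ) : ZMod q).val : ℕ) : ℤ) -
          ψ (((ζ : ZMod q).val : ℕ) : ZMod p) *
          msd φp p α n ((((ζ * b' : (ZMod q)ˣ) : ZMod q).val : ℕ) : ℤ)) =
        ((α⁻¹ : ℤ_[p]ˣ) : ℤ_[p]) ^ (n + 1) * ((u : ℤ_[p]) *
      ∑ ζ ∈ HH p q, ψ (((ζ : ZMod q).val : ℕ) : ZMod p) * (m ζ : ℤ_[p])) := by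
      rw [Finset.mul_sum, Finset.mul_sum]
      refine Finset.sum_congr rfl fun ζ hζ => ?_
      obtain ⟨m', hm'⟩ := hmod ζ
      have hpq : (p : ℚ) ≠ 0 := by exact_mod_cast hp.out.ne_zero
      have h3 : φp.val ∞ ((((((((ζ * b' : (ZMod q)ˣ) : ZMod q).val : ℕ) : ℤ) : ℚ) /
          (p : ℚ) ^ n : ℚ)) : OnePoint ℚ) =
          φp.val ∞ ((((((((ζ * b : (ZMod q)ˣ) : ZMod q).val : ℕ) : ℤ) : ℚ) /
          (p : ℚ) ^ n : ℚ)) : OnePoint ℚ) := by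
        rw [hm']
        have e : (((((((ζ * b : (ZMod q)ˣ) : ZMod q).val : ℕ) : ℤ) + m' * (p : ℤ) ^ n : ℤ) : ℚ)) /
            (p : ℚ) ^ n = (((((ζ * b : (ZMod q)ˣ) : ZMod q).val : ℕ) : ℤ) : ℚ) / (p : ℚ) ^ n +
              m' := by
          push_cast
          field_simp
        rw [e, φp.isSym.trans]
      have hqq : (q : ℚ) = (p : ℚ) ^ (n + 1) := by rw [hq]; push_cast; ring
      have h4 := hD ζ hζ
      rw [hqq] at h4
      have h5 := congrArg (fun z : ℤ => (z : ℤ_[p])) h4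
      simp only [Int.cast_sub, Int.cast_mul] at h5
      rw [msd, msd, h3, hφp]
      simp only [ModSym.map_val, eq_intCast, Int.cast_natCast]
      linear_combination (ψ (((ζ : ZMod q).val : ℕ) : ZMod p) *
        ((α⁻¹ : ℤ_[p]ˣ) : ℤ_[p]) ^ (n + 1)) * h5
    rw [h2] at h1
    have hunit : IsUnit (((α⁻¹ : ℤ_[p]ˣ) : ℤ_[p]) ^ (n + 1)) := (Units.isUnit _).pow _
    exact (hunit.dvd_mul_left).1 h1
  rw [dvd_iff_norm] at hDp ⊢
  rw [norm_mul] at hDp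
  have h1 : ‖(u : ℤ_[p])‖ = ‖(u : ℚ_[p])‖ := by
    rw [PadicInt.norm_def]
    simp
  rw [h1, hK₀, pow_add, mul_inv, mul_comm] at hDp
  have hpos : 0 < ((p : ℝ) ^ K₀)⁻¹ := by positivity
  exact le_of_mul_le_mul_right hDp hpos

end Pool.Agent.MU1
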