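import Pool.Agent.MZ.PerP

/-!
# Divisibility of a branch of the `p`-adic `L`-function and twisted sums of modular symbols
-/

set_option autoImplicit false

open Pool.Agent.MZ Pool.Agent.MZ.Per
open scoped OnePoint

namespace Pool.Agent.MU71

/-- membership in the ideal `(p^e, (1+T)^(p^m) - 1)` gives the divisibility of the coefficients of
the finite levels `i ≤ m` -/
theorem ccBr_dvd {p : ℕ} [hp : Fact p.Prime] {M : ℕ} (φ : ModSym M ℤ_[p]) (α : ℤ_[p]ˣ)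
    (ψ : DirichletCharacter ℤ_[p] p) (L : PowerSeries ℤ_[p]) (hL : IsPadicLBr φ p α ψ L) (e m : ℕ)
    (he : L ∈ Ideal.span {(p : PowerSeries ℤ_[p]) ^ e, (1 + PowerSeries.X) ^ (p ^ m) - 1})
    {i : ℕ} (hi : i ≤ m) {j : ℕ} (hj : j < p ^ i) : (p : ℤ_[p]) ^ e ∣ ccBr φ p α ψ i j := by
  obtain ⟨g, r, hgr⟩ := Ideal.mem_span_pair.1 he
  refine content_mp e i (ccBr φ p α ψ i) (g * (p : PowerSeries ℤ_[p]) ^ e) ?_ ?_ j hj
  · rw [← thetaBr_eq]
    have h1 := hL i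
    have h2 : g * (p : PowerSeries ℤ_[p]) ^ e - thetaBr φ p α ψ i =
        (L - thetaBr φ p α ψ i) - r * ((1 + PowerSeries.X) ^ (p ^ m) - 1) := by
      rw [← hgr]
      ring
    rw [h2]
    refine dvd_sub h1 (Dvd.dvd.mul_left ?_ r)
    obtain ⟨k, rfl⟩ := Nat.exists_eq_add_of_le hi
    rw [pow_add, _root_.pow_mul]
    exact sub_one_dvd_pow_sub_one _ _
  · intro l
    have h3 : (p : PowerSeries ℤ_[p]) ^ e = PowerSeries.C ((p : ℤ_[p]) ^ e) := by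
      rw [map_pow, map_natCast]
    rw [h3, mul_comm, PowerSeries.coeff_C_mul]
    exact dvd_mul_right _ _

/-- the coefficient of a branch as a sum over a coset of the Teichmueller representatives -/
theorem ccBr_eq_sum {p : ℕ} [hp : Fact p.Prime] {M : ℕ} {A : Type*} [CommRing A]
    (φ : ModSym M A) (α : Aˣ) (ψ : DirichletCharacter A p) (i j : ℕ)
    (t : (ZMod p)ˣ → ℤ) (ht : ∀ x : (ZMod p)ˣ, ((t x : ℤ) : ZMod p) = x)
    (ht1 : ∀ x, (p : ℤ) ^ (i + 1) ∣ t x ^ (p - 1) - 1) (c : ℕ) (hc : ¬ p ∣ c)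
    (hj : c ^ (p - 1) ≡ (1 + p) ^ (j * (p - 1)) [MOD p ^ (i + 1)]) :
    ccBr φ p α ψ i j =
      ψ (c : ZMod p) * ∑ x : (ZMod p)ˣ, ψ (x : ZMod p) * msd φ p α i (t x * c) := by
  have hq0 : (0 : ℤ) < (p : ℤ) ^ (i + 1) := by
    have := hp.out.pos
    positivity
  have hcz : (c : ZMod p) ≠ 0 := by
    intro h
    exact hc ((ZMod.natCast_eq_zero_iff _ _).1 h)
  have hcop : ∀ a : ℕ, ¬ p ∣ a → (a : ZMod p) ≠ 0 := by
    intro a ha h
    exact ha ((ZMod.natCast_eq_zero_iff _ _).1 h)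
  -- the representative
  have hrep : ∀ x : (ZMod p)ˣ, ∃ a : ℕ, a < p ^ (i + 1) ∧ (a : ZMod p) = x * c ∧
      a ^ (p - 1) ≡ (1 + p) ^ (j * (p - 1)) [MOD p ^ (i + 1)] ∧
      ∃ k : ℤ, t x * c = (a : ℤ) + k * (p : ℤ) ^ (i + 1) := by
    intro x
    have hb0 : 0 ≤ (t x * c) % (p : ℤ) ^ (i + 1) := Int.emod_nonneg _ hq0.ne'
    obtain ⟨a, ha⟩ := Int.eq_ofNat_of_zero_le hb0
    have hdm : t x * c = (a : ℤ) + ((t x * c) / (p : ℤ) ^ (i + 1)) * (p : ℤ) ^ (i + 1) := by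
      have h1 := Int.emod_add_mul_ediv (t x * c) ((p : ℤ) ^ (i + 1))
      rw [ha] at h1
      linear_combination -h1
    refine ⟨a, ?_, ?_, ?_, _, hdm⟩
    · have h1 := Int.emod_lt_of_pos (t x * c) hq0
      rw [ha] at h1
      exact_mod_cast h1
    · have h1 := congrArg (fun z : ℤ => (z : ZMod p)) hdm
      simp only [Int.cast_mul, Int.cast_add, Int.cast_natCast, Int.cast_pow, ht x,
        CharP.cast_eq_zero (ZMod p) p, zero_pow (Nat.succ_ne_zero i), mul_zero, add_zero] at h1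
      exact h1.symm
    · rw [← Int.natCast_modEq_iff] at hj ⊢
      refine Int.ModEq.trans ?_ hj
      have h1 : (a : ℤ) ≡ t x * c [ZMOD ((p ^ (i + 1) : ℕ) : ℤ)] := by
        rw [Int.modEq_iff_dvd]
        refine ⟨(t x * c) / (p : ℤ) ^ (i + 1), ?_⟩
        push_cast
        linear_combination hdm
      have h2 := h1.pow (p - 1)
      push_cast at h2 ⊢
      refine h2.trans ?_
      rw [_root_.mul_pow, Int.modEq_iff_dvd]
      obtain ⟨k, hk⟩ := ht1 x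
      refine ⟨-(k * (c : ℤ) ^ (p - 1)), ?_⟩
      linear_combination -((c : ℤ) ^ (p - 1)) * hk
  choose r hr1 hr2 hr3 hr4 using hrep
  rw [ccBr, Finset.mul_sum]
  symm
  refine Finset.sum_bij (fun x _ => r x) ?_ ?_ ?_ ?_
  · intro x _
    rw [Finset.mem_filter, Finset.mem_range]
    refine ⟨hr1 x, ?_, hr3 x⟩
    intro h
    have h1 := (ZMod.natCast_eq_zero_iff (r x) p).2 h
    rw [hr2 x] at h1
    exact mul_ne_zero x.ne_zero hcz h1
  · intro x _ y _ h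
    have h1 : ((r x : ℕ) : ZMod p) = ((r y : ℕ) : ZMod p) := by
      exact congrArg _ h
    rw [hr2 x, hr2 y] at h1
    exact Units.ext (mul_right_cancel₀ hcz h1)
  · intro a ha
    rw [Finset.mem_filter, Finset.mem_range] at ha
    obtain ⟨hal, hpa, haj⟩ := ha
    refine ⟨Units.mk0 ((a : ZMod p) * (c : ZMod p)⁻¹)
      (mul_ne_zero (hcop a hpa) (inv_ne_zero hcz)), Finset.mem_univ _, ?_⟩
    set x : (ZMod p)ˣ := Units.mk0 ((a : ZMod p) * (c : ZMod p)⁻¹)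
      (mul_ne_zero (hcop a hpa) (inv_ne_zero hcz)) with hx
    have h1 : ((r x : ℕ) : ZMod p) = (a : ZMod p) := by
      rw [hr2 x, hx, Units.val_mk0, mul_assoc, inv_mul_cancel₀ hcz, mul_one]
    have h2 : ¬ p ∣ r x := by
      intro h
      have h3 := (ZMod.natCast_eq_zero_iff (r x) p).2 h
      rw [h1] at h3
      exact hcop a hpa h3
    have h3 := eq_of_log hp.out h2 hpa ((hr3 x).trans haj.symm) h1
    exact Nat.ModEq.eq_of_lt_of_lt h3 (hr1 x) hal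
  · intro x _
    obtain ⟨k, hk⟩ := hr4 x
    rw [hk, msd_add φ hp.out.ne_zero α i, hr2 x, map_mul]
    ring

/-- the twisted sums of the measure over the cosets of the Teichmueller representatives -/
theorem sum_msd_dvd {p : ℕ} [hp : Fact p.Prime] (hp2 : p ≠ 2) {M : ℕ} (φ : ModSym M ℤ_[p])
    (α : ℤ_[p]ˣ) (ψ : DirichletCharacter ℤ_[p] p) (L : PowerSeries ℤ_[p])
    (hL : IsPadicLBr φ p α ψ L) (e m : ℕ)
    (he : L ∈ Ideal.span {(p : PowerSeries ℤ_[p]) ^ e, (1 + PowerSeries.X) ^ (p ^ m) - 1})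
    (t : (ZMod p)ˣ → ℤ) (ht : ∀ x : (ZMod p)ˣ, ((t x : ℤ) : ZMod p) = x)
    (ht1 : ∀ x, (p : ℤ) ^ (m + 1) ∣ t x ^ (p - 1) - 1) {i : ℕ} (hi : i ≤ m)
    (c : ℤ) (hc : ¬ (p : ℤ) ∣ c) :
    (p : ℤ_[p]) ^ e ∣ ∑ x : (ZMod p)ˣ, ψ (x : ZMod p) * msd φ p α i (t x * c) := by
  -- reduce `c`
  have hq0 : (0 : ℤ) < (p : ℤ) ^ (i + 1) := by
    have := hp.out.pos
    positivity
  have hb0 : 0 ≤ c % (p : ℤ) ^ (i + 1) := Int.emod_nonneg _ hq0.ne'
  obtain ⟨a, ha⟩ := Int.eq_ofNat_of_zero_le hb0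
  have hdm : c = (a : ℤ) + (c / (p : ℤ) ^ (i + 1)) * (p : ℤ) ^ (i + 1) := by
    have h1 := Int.emod_add_mul_ediv c ((p : ℤ) ^ (i + 1))
    rw [ha] at h1
    linear_combination -h1
  have hpa : ¬ p ∣ a := by
    intro h
    apply hc
    rw [hdm]
    exact dvd_add (by exact_mod_cast h) ((dvd_pow_self _ (Nat.succ_ne_zero i)).mul_left _)
  have h1 : ∀ x : (ZMod p)ˣ, msd φ p α i (t x * c) = msd φ p α i (t x * a) := by
    intro x
    have h2 : t x * c = t x * a + (t x * (c / (p : ℤ) ^ (i + 1))) * (p : ℤ) ^ (i + 1) := by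
      linear_combination t x * hdm
    rw [h2, msd_add φ hp.out.ne_zero α i]
  simp only [h1]
  obtain ⟨j, hj, hja⟩ := exists_log hp.out hp2 i hpa
  have h2 := ccBr_dvd φ α ψ L hL e m he hi hj
  rw [ccBr_eq_sum φ α ψ i j t ht (fun x => (pow_dvd_pow _ (by omega)).trans (ht1 x)) a hpa hja]
    at h2
  have haz : IsUnit (a : ZMod p) := by
    rw [ZMod.isUnit_iff_coprime]
    exact ((Nat.Prime.coprime_iff_not_dvd hp.out).2 hpa).symm
  have hu : IsUnit (ψ (a : ZMod p)) := haz.map ψ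
  exact (hu.dvd_mul_left).1 h2

/-- **The link**, character by character. -/
theorem link {p : ℕ} [hp : Fact p.Prime] (hp2 : p ≠ 2) {M : ℕ} (φ : ModSym M ℤ_[p]) (α : ℤ_[p]ˣ)
    (ψ : DirichletCharacter ℤ_[p] p) (L : PowerSeries ℤ_[p]) (hL : IsPadicLBr φ p α ψ L) (e m : ℕ)
    (he : L ∈ Ideal.span {(p : PowerSeries ℤ_[p]) ^ e, (1 + PowerSeries.X) ^ (p ^ m) - 1})
    (t : (ZMod p)ˣ → ℤ) (ht : ∀ x : (ZMod p)ˣ, ((t x : ℤ) : ZMod p) = x)
    (ht1 : ∀ x, (p : ℤ) ^ (m + 1) ∣ t x ^ (p - 1) - 1) (b : ℤ) (hb : ¬ (p : ℤ) ∣ b) :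
    (p : ℤ_[p]) ^ e ∣ ∑ x : (ZMod p)ˣ, ψ (x : ZMod p) *
      (φ.val ∞ (((((t x * b : ℤ) : ℚ) / (p : ℚ) ^ (m + 1) : ℚ)) : OnePoint ℚ) -
        φ.val ∞ ((((t x : ℤ) : ℚ) / (p : ℚ) ^ (m + 1) : ℚ) : OnePoint ℚ)) := by
  have h1p : ¬ (p : ℤ) ∣ 1 := by
    intro h
    have := Int.eq_one_of_dvd_one (by positivity) h
    have h2 := hp.out.one_lt
    omega
  have hkey : ∀ i : ℕ, i ≤ m + 1 →
      (p : ℤ_[p]) ^ e ∣ ∑ x : (ZMod p)ˣ, ψ (x : ZMod p) *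
        (φ.val ∞ (((((t x * b : ℤ) : ℚ) / (p : ℚ) ^ i : ℚ)) : OnePoint ℚ) -
          φ.val ∞ ((((t x : ℤ) : ℚ) / (p : ℚ) ^ i : ℚ) : OnePoint ℚ)) := by
    intro i
    induction i with
    | zero =>
      intro _
      have htr : ∀ k : ℤ, φ.val ∞ (((k : ℚ) : ℚ) : OnePoint ℚ) = φ.val ∞ ((0 : ℚ) : OnePoint ℚ) := by
        intro k
        have := φ.isSym.trans 0 k
        rw [zero_add] at this
        exact this
      have h0 : ∀ x : (ZMod p)ˣ, ψ (x : ZMod p) *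
        (φ.val ∞ (((((t x * b : ℤ) : ℚ) / (p : ℚ) ^ 0 : ℚ)) : OnePoint ℚ) -
          φ.val ∞ ((((t x : ℤ) : ℚ) / (p : ℚ) ^ 0 : ℚ) : OnePoint ℚ)) = 0 := by
        intro x
        rw [pow_zero, div_one, div_one, htr, htr, sub_self, mul_zero]
      simp only [h0, Finset.sum_const_zero, dvd_zero]
    | succ i ih =>
      intro hi
      have h1 := sum_msd_dvd hp2 φ α ψ L hL e m he t ht ht1 (show i ≤ m by omega) b hb
      have h2 := sum_msd_dvd hp2 φ α ψ L hL e m he t ht ht1 (show i ≤ m by omega) 1 h1p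
      have h3 := ih (by omega)
      have h4 := dvd_sub h1 h2
      rw [← Finset.sum_sub_distrib] at h4
      have h5 : ∑ x : (ZMod p)ˣ, (ψ (x : ZMod p) * msd φ p α i (t x * b) -
          ψ (x : ZMod p) * msd φ p α i (t x * 1)) =
          ((α⁻¹ : ℤ_[p]ˣ) : ℤ_[p]) ^ (i + 1) * (∑ x : (ZMod p)ˣ, ψ (x : ZMod p) *
          (φ.val ∞ (((((t x * b : ℤ) : ℚ) / (p : ℚ) ^ (i + 1) : ℚ)) : OnePoint ℚ) -
            φ.val ∞ ((((t x : ℤ) : ℚ) / (p : ℚ) ^ (i + 1) : ℚ) : OnePoint ℚ))) -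
          ((α⁻¹ : ℤ_[p]ˣ) : ℤ_[p]) ^ (i + 2) * (∑ x : (ZMod p)ˣ, ψ (x : ZMod p) *
          (φ.val ∞ (((((t x * b : ℤ) : ℚ) / (p : ℚ) ^ i : ℚ)) : OnePoint ℚ) -
            φ.val ∞ ((((t x : ℤ) : ℚ) / (p : ℚ) ^ i : ℚ) : OnePoint ℚ))) := by
        rw [Finset.mul_sum, Finset.mul_sum, ← Finset.sum_sub_distrib]
        refine Finset.sum_congr rfl fun x _ => ?_
        rw [msd, msd, mul_one]
        ring
      rw [h5] at h4
      have h6 := (dvd_sub_left (h3.mul_left (((α⁻¹ : ℤ_[p]ˣ) : ℤ_[p]) ^ (i + 2)))).1 h4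
      have hunit : IsUnit (((α⁻¹ : ℤ_[p]ˣ) : ℤ_[p]) ^ (i + 1)) := (Units.isUnit _).pow _
      exact (hunit.dvd_mul_left).1 h6
  exact hkey (m + 1) le_rfl

end Pool.Agent.MU71
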