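import Pool.Agent.MU1.Link
import Pool.Agent.MZ.PerQ

/-!
# Divisibility of the branches of the `p`-adic `L`-function and weighted sums of modular symbols
-/

set_option autoImplicit false

open Filter Topology Complex Function CongruenceSubgroup
open Matrix.SpecialLinearGroup (mapGL)
open scoped MatrixGroups Real ModularForm OnePoint ComplexConjugate

namespace Pool.Agent.MU1

open Pool.Agent.MZ Pool.Agent.MZ.Per

/-- `chat p c ψ = ∑_x c(x) ψ(x)⁻¹`, the sum over the units modulo `p`. -/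
noncomputable def chat (p : ℕ) [Fact p.Prime] (c : ZMod p → ℤ)
    (ψ : DirichletCharacter ℤ_[p] p) : ℤ_[p] :=
  ∑ x : (ZMod p)ˣ, (c (x : ZMod p) : ℤ_[p]) * ψ ((x⁻¹ : (ZMod p)ˣ) : ZMod p)

/-- `T^c(b) = ∑_{ζ ∈ H} c(ζ mod p) S(ζ b / q)`. -/
noncomputable def TTc {N : ℕ} [NeZero N] (f : CuspForm (Gamma0 N) 2) (p q : ℕ) [NeZero q]
    (c : ZMod p → ℤ) (b : (ZMod q)ˣ) : ℝ :=
  ∑ ζ ∈ HH p q, (c (((ζ : ZMod q).val : ℕ) : ZMod p) : ℝ) *
    S f (((((ζ * b : (ZMod q)ˣ) : ZMod q).val : ℚ) / (q : ℚ) : ℚ) : OnePoint ℚ)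

/-- the residue modulo `p` of a unit -/
theorem resid_mul {p : ℕ} [hp : Fact p.Prime] {n q : ℕ} [NeZero q] (hq : q = p ^ (n + 1))
    (u v : (ZMod q)ˣ) : ((((u * v : (ZMod q)ˣ) : ZMod q).val : ℕ) : ZMod p) =
      (((u : ZMod q).val : ℕ) : ZMod p) * (((v : ZMod q).val : ℕ) : ZMod p) := by
  rw [Units.val_mul, ZMod.val_mul, ← Nat.cast_mul, ZMod.natCast_eq_natCast_iff]
  exact (Nat.mod_modEq _ _).of_dvd (hq ▸ dvd_pow_self p (Nat.succ_ne_zero n))

theorem resid_ne {p : ℕ} [hp : Fact p.Prime] {n q : ℕ} [NeZero q] (hq : q = p ^ (n + 1))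
    (u : (ZMod q)ˣ) : (((u : ZMod q).val : ℕ) : ZMod p) ≠ 0 := by
  intro h
  rw [ZMod.natCast_eq_zero_iff] at h
  have h1 := Nat.dvd_gcd h (dvd_pow_self p (Nat.succ_ne_zero n))
  have h2 : Nat.Coprime ((u : ZMod q).val) (p ^ (n + 1)) := by
    rw [← hq]
    exact ZMod.val_coe_unit_coprime u
  rw [h2] at h1
  exact hp.out.one_lt.ne' (Nat.dvd_one.1 h1)

/-- the roots of unity are the units modulo `p` -/
theorem sum_resid {p : ℕ} [hp : Fact p.Prime] {n q : ℕ} [NeZero q] (hq : q = p ^ (n + 1))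
    {A : Type*} [AddCommMonoid A] (F : ZMod p → A) :
    ∑ ζ ∈ HH p q, F (((ζ : ZMod q).val : ℕ) : ZMod p) = ∑ x : (ZMod p)ˣ, F (x : ZMod p) := by
  refine Finset.sum_bij (fun (ζ : (ZMod q)ˣ) _ => Units.mk0 _ (resid_ne hq ζ)) ?_ ?_ ?_ ?_
  · intro ζ _
    exact Finset.mem_univ _
  · intro ζ hζ ζ' hζ' h
    rw [HH, Finset.mem_filter] at hζ hζ'
    have h1 : (((ζ : ZMod q).val : ℕ) : ZMod p) = (((ζ' : ZMod q).val : ℕ) : ZMod p) := by
      have := congrArg (fun z : (ZMod p)ˣ => (z : ZMod p)) h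
      simpa using this
    have hpow : ∀ z : (ZMod q)ˣ, z ^ (p - 1) = 1 →
        (z : ZMod q).val ^ (p - 1) ≡ 1 [MOD p ^ (n + 1)] := by
      intro z hz
      rw [← hq, ← ZMod.natCast_eq_natCast_iff]
      push_cast
      rw [ZMod.natCast_zmod_val, ← Units.val_pow_eq_pow_val, hz, Units.val_one]
    have hnd : ∀ z : (ZMod q)ˣ, ¬ p ∣ (z : ZMod q).val := by
      intro z hz
      exact resid_ne hq z ((ZMod.natCast_eq_zero_iff _ _).2 hz)
    have h2 := eq_of_log hp.out (hnd ζ) (hnd ζ')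
      ((hpow ζ hζ.2).trans (hpow ζ' hζ'.2).symm) h1
    rw [← hq] at h2
    have h3 := Nat.ModEq.eq_of_lt_of_lt h2 (ZMod.val_lt _) (ZMod.val_lt _)
    exact Units.ext (ZMod.val_injective _ h3)
  · intro x _
    -- the Teichmueller representative
    set g : ℕ := (x : ZMod p).val with hg
    have hgp : ¬ p ∣ g := by
      intro h
      have h1 := (ZMod.natCast_eq_zero_iff g p).2 h
      rw [hg, ZMod.natCast_zmod_val] at h1
      exact x.ne_zero h1
    have hcop : Nat.Coprime (g ^ (p ^ n)) q := by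
      rw [hq]
      exact (((Nat.Prime.coprime_iff_not_dvd hp.out).2 hgp).symm.pow_right _).pow_left _
    refine ⟨ZMod.unitOfCoprime _ hcop, ?_, ?_⟩
    · rw [HH, Finset.mem_filter]
      refine ⟨Finset.mem_univ _, ?_⟩
      apply Units.ext
      rw [Units.val_pow_eq_pow_val, ZMod.coe_unitOfCoprime, Units.val_one]
      have h1 : g ^ (p ^ n * (p - 1)) ≡ 1 [MOD p ^ (n + 1)] := by
        have h2 : (p ^ (n + 1)).totient = p ^ n * (p - 1) := by
          rw [Nat.totient_prime_pow_succ hp.out]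
        rw [← h2]
        apply Nat.ModEq.pow_totient
        exact Nat.Coprime.pow_right _ ((Nat.Prime.coprime_iff_not_dvd hp.out).2 hgp).symm
      rw [← hq, ← ZMod.natCast_eq_natCast_iff, _root_.pow_mul] at h1
      push_cast at h1 ⊢
      exact h1
    · apply Units.ext
      rw [Units.val_mk0, ZMod.coe_unitOfCoprime, ZMod.val_natCast]
      have h1 : ((g ^ (p ^ n) % q : ℕ) : ZMod p) = ((g ^ (p ^ n) : ℕ) : ZMod p) := by
        rw [ZMod.natCast_eq_natCast_iff]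
        exact (Nat.mod_modEq _ _).of_dvd (hq ▸ dvd_pow_self p (Nat.succ_ne_zero n))
      rw [h1]
      push_cast
      rw [ZMod.pow_card_pow, hg, ZMod.natCast_zmod_val]
  · intro ζ _
    rw [Units.val_mk0]

theorem linkW {N : ℕ} [NeZero N] {p : ℕ} [hp : Fact p.Prime] (hp2 : p ≠ 2) (hpN : ¬ p ∣ N)
    (f : CuspForm (Gamma0 N) 2) {a : ℕ → ℤ}
    (ha : ∀ n, (UpperHalfPlane.qExpansion 1 f).coeff n = a n) (ha1 : a 1 = 1)
    (hH : HeckeRel N a) {Ω : ℝ} (hΩ : Ω ≠ 0)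
    (hper : {r : ℝ | ∃ γ ∈ Gamma1 N, r = (period f γ).re} = {r : ℝ | ∃ k : ℤ, r = k * Ω})
    {α : ℤ_[p]ˣ} (hα : (α : ℤ_[p]) ^ 2 - (a p : ℤ_[p]) * α + p = 0)
    {L : DirichletCharacter ℤ_[p] p → PowerSeries ℚ_[p]}
    (hL : ∀ ψ : DirichletCharacter ℤ_[p] p, ψ (-1) = 1 → IsMSDBr p a Ω α ψ (L ψ))
    (c : ZMod p → ℤ) (K : ℕ)
    (hK : ∀ ψ : DirichletCharacter ℤ_[p] p, ψ (-1) = 1 → ∀ i,
      ‖((chat p c ψ : ℤ_[p]) : ℚ_[p]) * PowerSeries.coeff i (L ψ)‖ ≤ ((p : ℝ) ^ K)⁻¹)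
    (n q : ℕ) [NeZero q] (hn : 1 ≤ n) (hq : q = p ^ (n + 1)) (b b' : (ZMod q)ˣ)
    (hbb : ∃ t : ZMod q, (b' : ZMod q) = b + t * (p : ZMod q) ^ n) :
    ∃ k : ℤ, TTc f p q c b - TTc f p q c b' = k * (p : ℝ) ^ K * Ω := by
  -- the auxiliary prime and the integral symbol
  have hf0 : ∃ τ : UpperHalfPlane, f τ ≠ 0 := by
    by_contra hcon
    push Not at hcon
    have h1 : (f : UpperHalfPlane → ℂ) = 0 := by
      ext τ
      exact hcon τ
    have h2 := ha 1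
    rw [h1, UpperHalfPlane.qExpansion_zero, map_zero, ha1] at h2
    norm_num at h2
  obtain ⟨l, hl, -, hl1, hlN, hal⟩ := exists_prime_ne f hf0 (a := fun n => ((a n : ℤ) : ℂ)) ha
    (by
      intro l hl hlN n
      have := hH l hl hlN n
      rw [← Int.cast_mul, ← this]
      push_cast
      rfl) 0
  set u : ℤ := (l : ℤ) + 1 - a l with hu
  have hu0 : u ≠ 0 := by
    intro h0
    apply hal
    have h1 : a l = (l : ℤ) + 1 := by linarith
    rw [h1]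
    push_cast
    rfl
  have hl1' : (N : ℤ) ∣ (l : ℤ) - 1 := by
    have := (Nat.modEq_iff_dvd.1 hl1.symm)
    exact_mod_cast this
  have hper' : ∀ γ ∈ Gamma1 N, (period f γ).re ∈ AddSubgroup.zmultiples Ω := by
    intro γ hγ
    have h1 : (period f γ).re ∈ {r : ℝ | ∃ k : ℤ, r = k * Ω} := by
      rw [← hper]
      exact ⟨γ, hγ, rfl⟩
    obtain ⟨k, hk⟩ := h1
    rw [AddSubgroup.mem_zmultiples_iff]
    exact ⟨k, by rw [hk, zsmul_eq_mul]⟩
  obtain ⟨φ, hφ, hsign, hhecke⟩ := exists_int_sym f ha hH hΩ hper' hl hl1'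
  set φp : ModSym N ℤ_[p] := φ.map (Int.castRingHom ℤ_[p]) with hφp
  have hHp : ∀ q : ℕ, q.Prime → ¬ q ∣ N → φp.HeckeEigen q ((a q : ℤ) : ℤ_[p]) :=
    fun q hq hqN => (hhecke q hq hqN).map _
  have hsp : φp.HasSign 1 := by
    intro x y
    rw [hφp, ModSym.map_val, hsign x y, one_mul, one_mul, ModSym.map_val]
  obtain ⟨K₀, hK₀, hKu⟩ := exists_norm_int (p := p) hu0
  have hp0 : (0 : ℝ) < p := by exact_mod_cast hp.out.pos
  have hu0' : (u : ℚ_[p]) ≠ 0 := by exact_mod_cast hu0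
  -- divisibility of the coefficients
  have hcc : ∀ ψ : DirichletCharacter ℤ_[p] p, ∀ j < p ^ n,
      (p : ℤ_[p]) ^ (K + K₀) ∣ chat p c ψ * ccBr φp p α ψ n j := by
    intro ψ
    by_cases hψ : ψ (-1) = 1
    · obtain ⟨L₀, hL₀, -⟩ := existsUnique_padicLBr hp2 φp α _ (hHp p hp.out hpN) hα ψ
      have hMSD := isMSDBr_exists hp2 f ha hα hu0 hφ (hhecke p hp.out hpN) hψ hL₀
      have hLL := isMSDBr_unique hp2 hΩ hψ (hL ψ hψ) hMSD
      have hdiv : ∀ i, (p : ℤ_[p]) ^ (K + K₀) ∣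
          PowerSeries.coeff i (PowerSeries.C (chat p c ψ) * L₀) := by
        intro i
        have h1 := hK ψ hψ i
        rw [hLL, PowerSeries.coeff_mk, norm_mul, norm_div, hK₀, ← mul_div_assoc] at h1
        rw [PowerSeries.coeff_C_mul, dvd_iff_norm, pow_add, mul_inv, norm_mul]
        rw [div_le_iff₀ (by positivity)] at h1
        exact h1
      refine content_mp (K + K₀) n (fun j => chat p c ψ * ccBr φp p α ψ n j)
        (PowerSeries.C (chat p c ψ) * L₀) ?_ hdiv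
      have h2 : PowerSeries.C (chat p c ψ) * L₀ - ∑ j ∈ Finset.range (p ^ n),
          PowerSeries.C (chat p c ψ * ccBr φp p α ψ n j) * (1 + PowerSeries.X) ^ j =
          PowerSeries.C (chat p c ψ) * (L₀ - thetaBr φp p α ψ n) := by
        rw [thetaBr_eq, mul_sub, Finset.mul_sum]
        congr 1
        refine Finset.sum_congr rfl fun j _ => ?_
        rw [map_mul]
        ring
      rw [h2]
      exact (hL₀ n).mul_left _
    · intro j _
      rw [ccBr_odd hp2 φp hsp α ψ hψ, mul_zero]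
      exact dvd_zero _
  -- the sums over the cosets
  have hpd : ∀ u : (ZMod q)ˣ, ¬ p ∣ (u : ZMod q).val := by
    intro u h
    exact resid_ne hq u ((ZMod.natCast_eq_zero_iff _ _).2 h)
  have htot : IsUnit (p.totient : ℤ_[p]) := by
    apply isUnit_of_not_dvd
    rw [Nat.totient_prime hp.out, Nat.cast_sub hp.out.one_lt.le, Nat.cast_one,
      dvd_sub_right dvd_rfl]
    intro h4
    exact (PadicInt.irreducible_p (p := p)).not_isUnit (isUnit_of_dvd_one h4)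
  have hsum : ∀ b : (ZMod q)ˣ, (p : ℤ_[p]) ^ (K + K₀) ∣
      ∑ ζ ∈ HH p q, (c (((ζ : ZMod q).val : ℕ) : ZMod p) : ℤ_[p]) *
        msd φp p α n ((((ζ * b : (ZMod q)ˣ) : ZMod q).val : ℕ) : ℤ) := by
    intro b
    obtain ⟨j, hj, hjb⟩ := exists_log hp.out hp2 n (hpd b)
    have h1 : (p.totient : ℤ_[p]) * ∑ ζ ∈ HH p q, (c (((ζ : ZMod q).val : ℕ) : ZMod p) : ℤ_[p]) *
        msd φp p α n ((((ζ * b : (ZMod q)ˣ) : ZMod q).val : ℕ) : ℤ) =
        ∑ ψ : DirichletCharacter ℤ_[p] p, ψ ((((b : ZMod q).val : ℕ) : ZMod p)⁻¹) *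
          (chat p c ψ * ccBr φp p α ψ n j) := by
      rw [Finset.mul_sum]
      have h2 : ∀ ζ ∈ HH p q, (p.totient : ℤ_[p]) *
          ((c (((ζ : ZMod q).val : ℕ) : ZMod p) : ℤ_[p]) *
            msd φp p α n ((((ζ * b : (ZMod q)ˣ) : ZMod q).val : ℕ) : ℤ)) =
          ∑ ψ : DirichletCharacter ℤ_[p] p, ψ ((((b : ZMod q).val : ℕ) : ZMod p)⁻¹) *
            (((c (((ζ : ZMod q).val : ℕ) : ZMod p) : ℤ_[p]) *
              ψ ((((ζ : ZMod q).val : ℕ) : ZMod p)⁻¹)) * ccBr φp p α ψ n j) := by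
        intro ζ hζ
        rw [HH, Finset.mem_filter] at hζ
        have h3 := sum_ccBr φp α n j ((((ζ * b : (ZMod q)ˣ) : ZMod q).val)) (hpd _)
          (by rw [← hq]; exact ZMod.val_lt _) (by
            refine Nat.ModEq.trans ?_ hjb
            rw [← hq, ← ZMod.natCast_eq_natCast_iff, Nat.cast_pow, Nat.cast_pow,
              ZMod.natCast_zmod_val, ZMod.natCast_zmod_val, ← Units.val_pow_eq_pow_val,
              _root_.mul_pow, hζ.2, one_mul, Units.val_pow_eq_pow_val])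
        rw [mul_left_comm, ← h3, Finset.mul_sum]
        refine Finset.sum_congr rfl fun ψ _ => ?_
        rw [resid_mul hq, mul_inv, map_mul]
        ring
      rw [Finset.sum_congr rfl h2, Finset.sum_comm]
      refine Finset.sum_congr rfl fun ψ _ => ?_
      rw [← Finset.mul_sum, ← Finset.sum_mul]
      congr 2
      have h4 := sum_resid hq (fun y : ZMod p => (c y : ℤ_[p]) * ψ (y⁻¹))
      rw [h4, chat]
      refine Finset.sum_congr rfl fun x _ => ?_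
      rw [Units.val_inv_eq_inv_val]
    have h5 : (p : ℤ_[p]) ^ (K + K₀) ∣ (p.totient : ℤ_[p]) *
        ∑ ζ ∈ HH p q, (c (((ζ : ZMod q).val : ℕ) : ZMod p) : ℤ_[p]) *
        msd φp p α n ((((ζ * b : (ZMod q)ˣ) : ZMod q).val : ℕ) : ℤ) := by
      rw [h1]
      exact Finset.dvd_sum fun ψ _ => (hcc ψ j hj).mul_left _
    exact (htot.dvd_mul_left).1 h5
  -- congruence of the numerators modulo `p ^ n`
  obtain ⟨t, ht⟩ := hbb
  have hmod : ∀ ζ : (ZMod q)ˣ, ∃ m : ℤ, ((((ζ * b' : (ZMod q)ˣ) : ZMod q).val : ℕ) : ℤ) =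
      ((((ζ * b : (ZMod q)ˣ) : ZMod q).val : ℕ) : ℤ) + m * (p : ℤ) ^ n := by
    intro ζ
    have h1 : (((((((ζ * b' : (ZMod q)ˣ) : ZMod q).val : ℕ) : ℤ) -
        ((((ζ * b : (ZMod q)ˣ) : ZMod q).val : ℕ) : ℤ) : ℤ)) : ZMod q) =
        (((((ζ : ZMod q) * t).val : ℕ) : ℤ) * (p : ℤ) ^ n : ℤ) := by
      push_cast
      rw [ZMod.natCast_zmod_val, ZMod.natCast_zmod_val, ZMod.natCast_zmod_val]
      rw [ht]
      ring
    rw [ZMod.intCast_eq_intCast_iff_dvd_sub] at h1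
    obtain ⟨c, hc⟩ := h1
    have hqp : ((q : ℕ) : ℤ) = (p : ℤ) ^ n * p := by rw [hq]; push_cast; ring
    rw [hqp] at hc
    refine ⟨((((ζ : ZMod q) * t).val : ℕ) : ℤ) - p * c, ?_⟩
    linear_combination -hc
  -- the integer
  set D : ℤ := ∑ ζ ∈ HH p q, c (((ζ : ZMod q).val : ℕ) : ZMod p) *
    (φ.val ∞ (((((ζ * b : (ZMod q)ˣ) : ZMod q).val : ℚ) / (q : ℚ) : ℚ) : OnePoint ℚ) -
      φ.val ∞ (((((ζ * b' : (ZMod q)ˣ) : ZMod q).val : ℚ) / (q : ℚ) : ℚ) : OnePoint ℚ)) with hD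
  have hDp : (p : ℤ_[p]) ^ (K + K₀) ∣ (D : ℤ_[p]) := by
    have h1 := dvd_sub (hsum b) (hsum b')
    rw [← Finset.sum_sub_distrib] at h1
    have h2 : ∑ ζ ∈ HH p q,
        ((c (((ζ : ZMod q).val : ℕ) : ZMod p) : ℤ_[p]) *
          msd φp p α n ((((ζ * b : (ZMod q)ˣ) : ZMod q).val : ℕ) : ℤ) -
          (c (((ζ : ZMod q).val : ℕ) : ZMod p) : ℤ_[p]) *
          msd φp p α n ((((ζ * b' : (ZMod q)ˣ) : ZMod q).val : ℕ) : ℤ)) =
        ((α⁻¹ : ℤ_[p]ˣ) : ℤ_[p]) ^ (n + 1) * (D : ℤ_[p]) := by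
      rw [hD, Int.cast_sum, Finset.mul_sum]
      refine Finset.sum_congr rfl fun ζ _ => ?_
      obtain ⟨m, hm⟩ := hmod ζ
      have hpq : (p : ℚ) ≠ 0 := by exact_mod_cast hp.out.ne_zero
      have h3 : φp.val ∞ ((((((((ζ * b' : (ZMod q)ˣ) : ZMod q).val : ℕ) : ℤ) : ℚ) /
          (p : ℚ) ^ n : ℚ)) : OnePoint ℚ) =
          φp.val ∞ ((((((((ζ * b : (ZMod q)ˣ) : ZMod q).val : ℕ) : ℤ) : ℚ) /
          (p : ℚ) ^ n : ℚ)) : OnePoint ℚ) := by
        rw [hm]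
        have e : (((((((ζ * b : (ZMod q)ˣ) : ZMod q).val : ℕ) : ℤ) + m * (p : ℤ) ^ n : ℤ) : ℚ)) /
            (p : ℚ) ^ n = (((((ζ * b : (ZMod q)ˣ) : ZMod q).val : ℕ) : ℤ) : ℚ) / (p : ℚ) ^ n +
              m := by
          push_cast
          field_simp
        rw [e, φp.isSym.trans]
      have hqq : (q : ℚ) = (p : ℚ) ^ (n + 1) := by rw [hq]; push_cast; ring
      rw [msd, msd, h3, hφp, hqq]
      simp only [ModSym.map_val, eq_intCast, Int.cast_sub, Int.cast_mul, Int.cast_natCast]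
      ring
    rw [h2] at h1
    have hunit : IsUnit (((α⁻¹ : ℤ_[p]ˣ) : ℤ_[p]) ^ (n + 1)) := (Units.isUnit _).pow _
    exact (hunit.dvd_mul_left).1 h1
  have hDR : (u : ℝ) * (TTc f p q c b - TTc f p q c b') = D * Ω := by
    rw [TTc, TTc, ← Finset.sum_sub_distrib, Finset.mul_sum, hD]
    push_cast
    rw [Finset.sum_mul]
    refine Finset.sum_congr rfl fun ζ _ => ?_
    have e1 := hφ (((((ζ * b : (ZMod q)ˣ) : ZMod q).val : ℚ) / (q : ℚ) : ℚ) : OnePoint ℚ)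
    have e2 := hφ (((((ζ * b' : (ZMod q)ˣ) : ZMod q).val : ℚ) / (q : ℚ) : ℚ) : OnePoint ℚ)
    linear_combination (c (((ζ : ZMod q).val : ℕ) : ZMod p) : ℝ) * e1 -
      (c (((ζ : ZMod q).val : ℕ) : ZMod p) : ℝ) * e2
  -- the difference is a multiple of the period
  have hqN : IsCoprime ((q : ℕ) : ℤ) (N : ℤ) := by
    rw [Nat.isCoprime_iff_coprime, hq]
    exact Nat.Coprime.pow_left _ ((Nat.Prime.coprime_iff_not_dvd hp.out).2 hpN)
  have hmem : TTc f p q c b - TTc f p q c b' ∈ AddSubgroup.zmultiples Ω := by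
    rw [TTc, TTc, ← Finset.sum_sub_distrib]
    refine sum_mem fun ζ _ => ?_
    have hq0 : ((q : ℕ) : ℤ) ≠ 0 := by exact_mod_cast NeZero.ne q
    have h1 := re_same_den hper' hq0 hqN
      (x := ((((ζ * b : (ZMod q)ˣ) : ZMod q).val : ℕ) : ℤ))
      (y := ((((ζ * b' : (ZMod q)ˣ) : ZMod q).val : ℕ) : ℤ))
      (Nat.isCoprime_iff_coprime.2 (ZMod.val_coe_unit_coprime _))
      (Nat.isCoprime_iff_coprime.2 (ZMod.val_coe_unit_coprime _))
    simp only [Int.cast_natCast] at h1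
    rw [← mul_sub, ← zsmul_eq_mul]
    exact AddSubgroup.zsmul_mem _ h1 _
  obtain ⟨m, hm⟩ := AddSubgroup.mem_zmultiples_iff.1 hmem
  rw [zsmul_eq_mul] at hm
  have hum : u * m = D := by
    rw [← hm] at hDR
    have h1 : ((u * m : ℤ) : ℝ) * Ω = (D : ℝ) * Ω := by
      push_cast
      linear_combination hDR
    exact_mod_cast mul_right_cancel₀ hΩ h1
  have hmp : ((p ^ K : ℕ) : ℤ) ∣ m := by
    rw [dvd_iff_norm] at hDp
    have h1 : ‖(D : ℤ_[p])‖ = ‖(u : ℚ_[p])‖ * ‖(m : ℚ_[p])‖ := by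
      rw [← norm_mul, ← Int.cast_mul, hum, PadicInt.norm_def]
      simp
    rw [h1, hK₀, pow_add, mul_inv, mul_comm] at hDp
    have hpos : 0 < ((p : ℝ) ^ K₀)⁻¹ := by positivity
    have h2 := le_of_mul_le_mul_right hDp hpos
    have h3 := (Padic.norm_int_le_pow_iff_dvd m K).1 (by
      rw [zpow_neg, zpow_natCast]
      exact h2)
    exact h3
  obtain ⟨k, hk⟩ := hmp
  refine ⟨k, ?_⟩
  rw [← hm, hk]
  push_cast
  ring

end Pool.Agent.MU1
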