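import Mathlib

/-!
# Parseval bound for the coefficients of a function of size `C / Im z`
-/

set_option autoImplicit false

open Complex Finset Polynomial
open scoped Real UpperHalfPlane

namespace Pool.Agent.MU1

/-- Bessel's inequality for an absolutely convergent power series on the unit circle. -/
theorem bessel {A : ℕ → ℂ} (hA : Summable (fun n => ‖A n‖)) {B : ℝ}
    (hB : ∀ θ : ℝ, ‖∑' n : ℕ, A n * cexp (θ * Complex.I) ^ n‖ ≤ B) (s : Finset ℕ) :
    ∑ n ∈ s, ‖A n‖ ^ 2 ≤ B ^ 2 := by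
  have hB0 : 0 ≤ B := le_trans (norm_nonneg _) (hB 0)
  -- polynomial truncations
  have key : ∀ K : ℕ, ∑ n ∈ range K, ‖A n‖ ^ 2 ≤ (B + ∑' n : ℕ, ‖A (n + K)‖) ^ 2 := by
    intro K
    set P : ℂ[X] := ∑ n ∈ range K, monomial n (A n) with hP
    have hcoef : ∀ n, P.coeff n = if n < K then A n else 0 := by
      intro n
      rw [hP, finsetSum_coeff]
      simp_rw [coeff_monomial]
      simp
    have heval : ∀ x : ℂ, P.eval x = ∑ n ∈ range K, A n * x ^ n := by
      intro x
      rw [hP, eval_finsetSum]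
      simp
    have h1 : ∑ n ∈ range K, ‖A n‖ ^ 2 = ∑ i ∈ P.support, ‖P.coeff i‖ ^ 2 := by
      have h2 : P.support ⊆ range K := by
        intro n hn
        rw [mem_support_iff, hcoef] at hn
        rw [mem_range]
        by_contra h
        simp [h] at hn
      rw [Finset.sum_subset h2]
      · apply Finset.sum_congr rfl
        intro n hn
        rw [hcoef, if_pos (mem_range.1 hn)]
      · intro n _ hn
        rw [notMem_support_iff.1 hn]
        simp
    rw [h1, Polynomial.sum_sq_norm_coeff_eq_circleAverage]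
    apply Real.circleAverage_mono_on_of_le_circle
    · apply ContinuousOn.circleIntegrable'
      fun_prop
    · intro x hx
      rw [abs_one, mem_sphere_zero_iff_norm] at hx
      obtain ⟨θ, rfl⟩ : ∃ θ : ℝ, x = cexp (θ * Complex.I) := by
        refine ⟨Complex.arg x, ?_⟩
        have := Complex.norm_mul_exp_arg_mul_I x
        rw [hx] at this
        simpa using this.symm
      have hsum : Summable (fun n : ℕ => A n * cexp (θ * Complex.I) ^ n) := by
        apply Summable.of_norm
        refine hA.congr fun n => ?_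
        rw [norm_mul, norm_pow, Complex.norm_exp_ofReal_mul_I]
        simp
      have hsplit := hsum.sum_add_tsum_nat_add K
      have hnorm : ‖P.eval (cexp (θ * Complex.I))‖ ≤ B + ∑' n : ℕ, ‖A (n + K)‖ := by
        rw [heval]
        have e1 : ∑ n ∈ range K, A n * cexp (θ * Complex.I) ^ n =
            (∑' n : ℕ, A n * cexp (θ * Complex.I) ^ n) -
              ∑' n : ℕ, A (n + K) * cexp (θ * Complex.I) ^ (n + K) := by
          rw [← hsplit]; ring
        rw [e1]
        refine (norm_sub_le _ _).trans (add_le_add (hB θ) ?_)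
        refine (norm_tsum_le_tsum_norm ?_).trans (le_of_eq ?_)
        · exact ((summable_nat_add_iff K).2 hsum).norm
        · apply tsum_congr
          intro n
          rw [norm_mul, norm_pow, Complex.norm_exp_ofReal_mul_I]
          simp
      exact pow_le_pow_left₀ (norm_nonneg _) hnorm 2
  -- limit
  have hlim : Filter.Tendsto (fun K : ℕ => (B + ∑' n : ℕ, ‖A (n + K)‖) ^ 2) Filter.atTop
      (nhds ((B + 0) ^ 2)) := by
    have := tendsto_sum_nat_add (fun n => ‖A n‖)
    exact (this.const_add B).pow 2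
  rw [add_zero] at hlim
  obtain ⟨K0, hK0⟩ := s.exists_nat_subset_range
  refine ge_of_tendsto hlim ?_
  filter_upwards [Filter.eventually_ge_atTop K0] with K hK
  refine le_trans ?_ (key K)
  apply Finset.sum_le_sum_of_subset_of_nonneg
  · exact hK0.trans (Finset.range_subset_range.2 hK)
  · intro i _ _
    positivity

/-- A geometric sum. -/
theorem sum_exp_le {x : ℝ} (hx : 0 < x) (s : Finset ℕ) (hs : 0 ∉ s) :
    ∑ n ∈ s, Real.exp (-(n * x)) ≤ 1 / x := by
  have hr0 : 0 ≤ Real.exp (-x) := (Real.exp_pos _).le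
  have hr1 : Real.exp (-x) < 1 := by
    rw [Real.exp_lt_one_iff]
    linarith
  have hs1 : Summable (fun n : ℕ => Real.exp (-x) ^ (n + 1)) := by
    simp_rw [pow_succ]
    exact (summable_geometric_of_lt_one hr0 hr1).mul_right _
  have h1 : ∑ n ∈ s, Real.exp (-(n * x)) ≤ ∑' n : ℕ, Real.exp (-x) ^ (n + 1) := by
    have h2 : ∑ n ∈ s, Real.exp (-(n * x)) = ∑ n ∈ s.image (fun n => n - 1), Real.exp (-x) ^ (n + 1) := by
      rw [Finset.sum_image]
      · apply Finset.sum_congr rfl
        intro n hn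
        have hn0 : n ≠ 0 := fun h => hs (h ▸ hn)
        rw [Nat.sub_add_cancel (Nat.one_le_iff_ne_zero.2 hn0), ← Real.exp_nat_mul]
        congr 1
        ring
      · intro a ha b hb hab
        have ha0 : a ≠ 0 := fun h => hs (h ▸ ha)
        have hb0 : b ≠ 0 := fun h => hs (h ▸ hb)
        simp only at hab
        omega
    rw [h2]
    exact hs1.sum_le_tsum _ (fun i _ => by positivity)
  refine h1.trans ?_
  simp_rw [pow_succ]
  rw [tsum_mul_right, tsum_geometric_of_lt_one hr0 hr1]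
  have h3 : 1 + x ≤ Real.exp x := by
    have := Real.add_one_le_exp x
    linarith
  have h4 : Real.exp (-x) = 1 / Real.exp x := by
    rw [Real.exp_neg]; simp
  rw [h4]
  have hE : 0 < Real.exp x := Real.exp_pos _
  have hE1 : 0 < Real.exp x - 1 := by linarith
  have h5 : (1 - 1 / Real.exp x)⁻¹ * (1 / Real.exp x) = 1 / (Real.exp x - 1) := by
    field_simp
  rw [h5]
  apply one_div_le_one_div_of_le hx
  linarith

theorem l1_of_bound {g : ℍ → ℂ} {c : ℕ → ℂ} {w C : ℝ} (hw : 0 < w) (hc0 : c 0 = 0)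
    (hg : ∀ z : ℍ, HasSum (fun n : ℕ => c n * cexp (2 * π * Complex.I * n * z / w)) (g z))
    (hC : ∀ z : ℍ, ‖g z‖ * z.im ≤ C) :
    ∃ C' : ℝ, 0 ≤ C' ∧ ∀ t : ℝ, 0 < t →
      Summable (fun n : ℕ => ‖c n‖ * Real.exp (-(2 * π * n * t / w))) ∧
      ∑' n : ℕ, ‖c n‖ * Real.exp (-(2 * π * n * t / w)) ≤ C' * t ^ (-(3 / 2) : ℝ) := by
  have hC0 : 0 ≤ C := le_trans (by have := UpperHalfPlane.I.im_pos; positivity) (hC UpperHalfPlane.I)
  refine ⟨2 * C * √(w / (2 * π)), by positivity, ?_⟩
  intro t ht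
  have hpi : 0 < π := Real.pi_pos
  -- the coefficients at height `t / 2`
  set A : ℕ → ℂ := fun n => c n * (Real.exp (-(2 * π * n * (t / 2) / w)) : ℂ) with hAdef
  have hAn : ∀ n, ‖A n‖ = ‖c n‖ * Real.exp (-(2 * π * n * (t / 2) / w)) := by
    intro n
    rw [hAdef]
    simp only
    rw [norm_mul, Complex.norm_real, Real.norm_of_nonneg (Real.exp_pos _).le]
  have hterm : ∀ (x : ℝ) (n : ℕ), c n * cexp (2 * π * Complex.I * n * ((x : ℂ) + (t / 2 : ℝ) * Complex.I) / w) =
      A n * cexp ((2 * π * x / w : ℝ) * Complex.I) ^ n := by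
    intro x n
    rw [hAdef]
    simp only
    rw [← Complex.exp_nat_mul, mul_assoc (c n), Complex.ofReal_exp, ← Complex.exp_add]
    congr 2
    push_cast
    have hw' : (w : ℂ) ≠ 0 := by exact_mod_cast hw.ne'
    field_simp
    ring_nf
    rw [Complex.I_sq]
    ring
  have hpt : ∀ x : ℝ, ∃ z : ℍ, (z : ℂ) = (x : ℂ) + (t / 2 : ℝ) * Complex.I ∧ z.im = t / 2 := by
    intro x
    refine ⟨⟨(x : ℂ) + (t / 2 : ℝ) * Complex.I, by simp; linarith⟩, rfl, ?_⟩
    simp [UpperHalfPlane.im]
  have hAs : Summable (fun n => ‖A n‖) := by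
    obtain ⟨z, hz, _⟩ := hpt 0
    have h1 := (hg z).summable.norm
    rw [hz] at h1
    refine h1.congr fun n => ?_
    rw [hterm 0 n]
    simp
  have hB : ∀ θ : ℝ, ‖∑' n : ℕ, A n * cexp (θ * Complex.I) ^ n‖ ≤ 2 * C / t := by
    intro θ
    obtain ⟨z, hz, hzi⟩ := hpt (θ * w / (2 * π))
    have h1 := (hg z).tsum_eq
    rw [hz] at h1
    have h2 : ∀ n : ℕ, c n * cexp (2 * π * Complex.I * n *
        (((θ * w / (2 * π) : ℝ) : ℂ) + (t / 2 : ℝ) * Complex.I) / w) =
        A n * cexp (θ * Complex.I) ^ n := by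
      intro n
      rw [hterm]
      congr 4
      field_simp
    simp_rw [h2] at h1
    rw [h1]
    have h3 := hC z
    rw [hzi] at h3
    rw [le_div_iff₀ ht]
    linarith
  have hfin : ∀ s : Finset ℕ, ∑ n ∈ s, ‖c n‖ * Real.exp (-(2 * π * n * t / w)) ≤
      2 * C * √(w / (2 * π)) * t ^ (-(3 / 2) : ℝ) := by
    intro s
    have e0 : ∑ n ∈ s, ‖c n‖ * Real.exp (-(2 * π * n * t / w)) =
        ∑ n ∈ s.erase 0, ‖A n‖ * Real.exp (-(2 * π * n * (t / 2) / w)) := by
      have e1 : ∀ n : ℕ, ‖c n‖ * Real.exp (-(2 * π * n * t / w)) =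
          ‖A n‖ * Real.exp (-(2 * π * n * (t / 2) / w)) := by
        intro n
        rw [hAn, mul_assoc ‖c n‖, ← Real.exp_add]
        congr 2
        ring
      simp_rw [e1]
      by_cases h0 : 0 ∈ s
      · rw [← Finset.add_sum_erase s _ h0, hAn 0, hc0]
        simp
      · rw [Finset.erase_eq_of_notMem h0]
    rw [e0]
    have hcs := Finset.sum_mul_sq_le_sq_mul_sq (s.erase 0) (fun n => ‖A n‖)
      (fun n : ℕ => Real.exp (-(2 * π * n * (t / 2) / w)))
    have hb1 := bessel hAs hB (s.erase 0)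
    have hb2 : ∑ n ∈ s.erase 0, Real.exp (-(2 * π * n * (t / 2) / w)) ^ 2 ≤ w / (2 * π * t) := by
      have e2 : ∀ n : ℕ, Real.exp (-(2 * π * n * (t / 2) / w)) ^ 2 = Real.exp (-(n * (2 * π * t / w))) := by
        intro n
        rw [← Real.exp_nat_mul]
        congr 1
        push_cast
        ring
      simp_rw [e2]
      refine (sum_exp_le (x := 2 * π * t / w) (by positivity) _ (Finset.notMem_erase 0 s)).trans
        (le_of_eq ?_)
      field_simp
    have hS0 : 0 ≤ ∑ n ∈ s.erase 0, ‖A n‖ * Real.exp (-(2 * π * n * (t / 2) / w)) := by positivity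
    have hle : (∑ n ∈ s.erase 0, ‖A n‖ * Real.exp (-(2 * π * n * (t / 2) / w))) ^ 2 ≤
        (2 * C / t) ^ 2 * (w / (2 * π * t)) := by
      refine hcs.trans ?_
      apply mul_le_mul hb1 hb2
      · positivity
      · positivity
    have hle2 := Real.sqrt_le_sqrt hle
    rw [Real.sqrt_sq hS0, Real.sqrt_mul (by positivity), Real.sqrt_sq (by positivity)] at hle2
    refine hle2.trans (le_of_eq ?_)
    have e3 : w / (2 * π * t) = w / (2 * π) / t := by field_simp
    rw [e3, Real.sqrt_div (by positivity)]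
    have e4 : t ^ (-(3 / 2) : ℝ) = 1 / (t * √t) := by
      rw [Real.rpow_neg ht.le, show (3 / 2 : ℝ) = 1 + 1 / 2 by norm_num, Real.rpow_add ht,
        Real.rpow_one, ← Real.sqrt_eq_rpow, one_div]
    rw [e4]
    have : 0 < √t := Real.sqrt_pos.2 ht
    field_simp
  have hsum : Summable (fun n : ℕ => ‖c n‖ * Real.exp (-(2 * π * n * t / w))) :=
    summable_of_sum_le (fun n => by positivity) hfin
  exact ⟨hsum, hsum.tsum_le_of_sum_le hfin⟩

end Pool.Agent.MU1
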