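import Pool.Agent.MU1.Pars

/-!
# The bound for the primitive
-/

set_option autoImplicit false

open Complex Finset
open scoped Real UpperHalfPlane

namespace Pool.Agent.MU1

/-- From `∑ |c_n| e^{-2π n t/w} ≤ C' t^{-3/2}` to the primitive. -/
theorem l1_prim {c : ℕ → ℂ} {w C' : ℝ} (hw : 0 < w)
    (h : ∀ t : ℝ, 0 < t →
      Summable (fun n : ℕ => ‖c n‖ * Real.exp (-(2 * π * n * t / w))) ∧
      ∑' n : ℕ, ‖c n‖ * Real.exp (-(2 * π * n * t / w)) ≤ C' * t ^ (-(3 / 2) : ℝ))
    (t : ℝ) (ht : 0 < t) :
    Summable (fun n : ℕ => ‖c n‖ / n * Real.exp (-(2 * π * n * t / w))) ∧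
      ∑' n : ℕ, ‖c n‖ / n * Real.exp (-(2 * π * n * t / w)) ≤
        4 * π * C' / w * t ^ (-(1 / 2) : ℝ) := by
  have hpi : 0 < π := Real.pi_pos
  have hfin : ∀ (s : Finset ℕ), ∀ t : ℝ, 0 < t →
      ∑ n ∈ s, ‖c n‖ / n * Real.exp (-(2 * π * n * t / w)) ≤
        4 * π * C' / w * t ^ (-(1 / 2) : ℝ) := by
    intro s t ht
    set H : ℝ → ℝ := fun u => (∑ n ∈ s, ‖c n‖ / n * Real.exp (-(2 * π * n * u / w))) -
      4 * π * C' / w * u ^ (-(1 / 2) : ℝ) with hH
    have hder : ∀ u : ℝ, 0 < u → HasDerivAt H
        ((∑ n ∈ s, ‖c n‖ / n * (Real.exp (-(2 * π * n * u / w)) * (-(2 * π * n / w)))) -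
          4 * π * C' / w * (-(1 / 2) * u ^ (-(1 / 2) - 1 : ℝ))) u := by
      intro u hu
      apply HasDerivAt.sub
      · apply HasDerivAt.fun_sum
        intro n _
        apply HasDerivAt.const_mul
        apply HasDerivAt.exp
        have h1 : HasDerivAt (fun u : ℝ => 2 * π * n * u / w) (2 * π * n / w) u := by
          have := ((hasDerivAt_id u).const_mul (2 * π * n)).div_const w
          simpa using this
        exact h1.neg
      · apply HasDerivAt.const_mul
        exact Real.hasDerivAt_rpow_const (Or.inl hu.ne')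
    have hnonneg : ∀ u : ℝ, 0 < u →
        0 ≤ (∑ n ∈ s, ‖c n‖ / n * (Real.exp (-(2 * π * n * u / w)) * (-(2 * π * n / w)))) -
          4 * π * C' / w * (-(1 / 2) * u ^ (-(1 / 2) - 1 : ℝ)) := by
      intro u hu
      obtain ⟨h1, h2⟩ := h u hu
      have h3 : ∑ n ∈ s, ‖c n‖ * Real.exp (-(2 * π * n * u / w)) ≤ C' * u ^ (-(3 / 2) : ℝ) :=
        (h1.sum_le_tsum s (fun i _ => by positivity)).trans h2
      have h4 : ∀ n : ℕ, -(‖c n‖ / n * (Real.exp (-(2 * π * n * u / w)) * (-(2 * π * n / w)))) ≤
          2 * π / w * (‖c n‖ * Real.exp (-(2 * π * n * u / w))) := by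
        intro n
        rcases Nat.eq_zero_or_pos n with rfl | hn
        · simp only [Nat.cast_zero, div_zero, mul_zero, zero_mul, neg_zero]
          positivity
        · have hn' : (n : ℝ) ≠ 0 := by positivity
          apply le_of_eq
          field_simp
      have h5 : -(∑ n ∈ s, ‖c n‖ / n * (Real.exp (-(2 * π * n * u / w)) * (-(2 * π * n / w)))) ≤
          2 * π / w * (C' * u ^ (-(3 / 2) : ℝ)) := by
        rw [← Finset.sum_neg_distrib]
        calc _ ≤ ∑ n ∈ s, 2 * π / w * (‖c n‖ * Real.exp (-(2 * π * n * u / w))) :=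
              Finset.sum_le_sum fun n _ => h4 n
          _ = 2 * π / w * ∑ n ∈ s, (‖c n‖ * Real.exp (-(2 * π * n * u / w))) := by
              rw [Finset.mul_sum]
          _ ≤ _ := by
              apply mul_le_mul_of_nonneg_left h3 (by positivity)
      have e1 : (-(1 / 2) - 1 : ℝ) = -(3 / 2) := by norm_num
      rw [e1]
      have e2 : 4 * π * C' / w * (-(1 / 2) * u ^ (-(3 / 2) : ℝ)) =
          -(2 * π / w * (C' * u ^ (-(3 / 2) : ℝ))) := by ring
      rw [e2]
      linarith
    have hmono : MonotoneOn H (Set.Ioi 0) := by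
      apply monotoneOn_of_deriv_nonneg (convex_Ioi 0)
      · intro u hu
        exact (hder u hu).continuousAt.continuousWithinAt
      · intro u hu
        rw [interior_Ioi] at hu
        exact (hder u hu).differentiableAt.differentiableWithinAt
      · intro u hu
        rw [interior_Ioi] at hu
        rw [(hder u hu).deriv]
        exact hnonneg u hu
    have hlim : Filter.Tendsto H Filter.atTop (nhds (0 - 4 * π * C' / w * 0)) := by
      apply Filter.Tendsto.sub
      · have : (0 : ℝ) = ∑ n ∈ s, (0 : ℝ) := by simp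
        rw [this]
        apply tendsto_finsetSum
        intro n _
        rcases Nat.eq_zero_or_pos n with rfl | hn
        · simp
        · have h1 : Filter.Tendsto (fun u : ℝ => 2 * π * n * u / w) Filter.atTop Filter.atTop := by
            have h2 : (fun u : ℝ => 2 * π * n * u / w) = fun u => (2 * π * n / w) * u := by
              funext u; ring
            rw [h2]
            exact Filter.tendsto_id.const_mul_atTop (by positivity)
          have h3 := (Real.tendsto_exp_neg_atTop_nhds_zero.comp h1).const_mul (‖c n‖ / n)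
          rw [mul_zero] at h3
          exact h3
      · exact (tendsto_rpow_neg_atTop (by norm_num : (0 : ℝ) < 1 / 2)).const_mul _
    rw [mul_zero, sub_zero] at hlim
    have h0 : H t ≤ 0 := by
      refine ge_of_tendsto hlim ?_
      filter_upwards [Filter.eventually_ge_atTop t] with u hu
      exact hmono ht (lt_of_lt_of_le ht hu) hu
    rw [hH] at h0
    simp only at h0
    linarith
  have hs : Summable (fun n : ℕ => ‖c n‖ / n * Real.exp (-(2 * π * n * t / w))) :=
    summable_of_sum_le (fun n => by positivity) (fun s => hfin s t ht)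
  exact ⟨hs, hs.tsum_le_of_sum_le (fun s => hfin s t ht)⟩

end Pool.Agent.MU1
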