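import Pool.Agent.MU1.LinkPsi
import Pool.Agent.MU1.Link

/-!
# From the ideal membership of the branches to twisted sums of period integers
-/

set_option autoImplicit false

open CongruenceSubgroup
open Pool.Agent.MZ Pool.Agent.MZ.Per
open scoped OnePoint MatrixGroups

namespace Pool.Agent.MU71

/-- the differences `S(x/q) - S(y/q)` are integral multiples of the period -/
theorem exists_V {N : ℕ} [NeZero N] {p : ℕ} [hp : Fact p.Prime] (hpN : ¬ p ∣ N)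
    {f : CuspForm (Gamma0 N) 2} {Ω : ℝ}
    (hper : {r : ℝ | ∃ γ ∈ Gamma1 N, r = (period f γ).re} = {r : ℝ | ∃ k : ℤ, r = k * Ω})
    (m : ℕ) {x y : ℤ} (hx : ¬ (p : ℤ) ∣ x) (hy : ¬ (p : ℤ) ∣ y) :
    ∃ V : ℤ, S f ((((x : ℚ) / (p : ℚ) ^ (m + 1) : ℚ)) : OnePoint ℚ) -
      S f ((((y : ℚ) / (p : ℚ) ^ (m + 1) : ℚ)) : OnePoint ℚ) = V * Ω := by
  have hper' : ∀ γ ∈ Gamma1 N, (period f γ).re ∈ AddSubgroup.zmultiples Ω := by
    intro γ hγ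
    have h1 : (period f γ).re ∈ {r : ℝ | ∃ k : ℤ, r = k * Ω} := by
      rw [← hper]
      exact ⟨γ, hγ, rfl⟩
    obtain ⟨k, hk⟩ := h1
    rw [AddSubgroup.mem_zmultiples_iff]
    exact ⟨k, by rw [hk, zsmul_eq_mul]⟩
  have hpp : Prime ((p : ℕ) : ℤ) := Nat.prime_iff_prime_int.1 hp.out
  have hcop : ∀ z : ℤ, ¬ (p : ℤ) ∣ z → IsCoprime z ((p : ℤ) ^ (m + 1)) := by
    intro z hz
    exact (((Prime.coprime_iff_not_dvd hpp).2 hz).symm).pow_right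
  have hqN : IsCoprime ((p : ℤ) ^ (m + 1)) (N : ℤ) := by
    apply IsCoprime.pow_left
    rw [Prime.coprime_iff_not_dvd hpp]
    exact_mod_cast hpN
  have hq0 : ((p : ℤ) ^ (m + 1)) ≠ 0 := pow_ne_zero _ hpp.ne_zero
  have h1 := Pool.Agent.MU1.re_same_den (f := f) hper' hq0 hqN (hcop x hx) (hcop y hy)
  rw [AddSubgroup.mem_zmultiples_iff] at h1
  obtain ⟨V, hV⟩ := h1
  refine ⟨V, ?_⟩
  rw [zsmul_eq_mul] at hV
  rw [hV]
  push_cast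
  rfl

theorem wrap {N : ℕ} [NeZero N] {p : ℕ} [hp : Fact p.Prime] (hp2 : p ≠ 2) (hpN : ¬ p ∣ N)
    (f : CuspForm (Gamma0 N) 2) {a : ℕ → ℤ}
    (ha : ∀ n, (UpperHalfPlane.qExpansion 1 f).coeff n = a n) (ha1 : a 1 = 1)
    (hH : HeckeRel N a) {Ω : ℝ} (hΩ : Ω ≠ 0)
    (hper : {r : ℝ | ∃ γ ∈ Gamma1 N, r = (period f γ).re} = {r : ℝ | ∃ k : ℤ, r = k * Ω})
    {α : ℤ_[p]ˣ} (hα : (α : ℤ_[p]) ^ 2 - (a p : ℤ_[p]) * α + p = 0)
    {ψ : DirichletCharacter ℤ_[p] p} (hψ : ψ (-1) = 1) {L : PowerSeries ℤ_[p]}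
    (hL : IsMSDBr p a Ω α ψ (L.map (algebraMap ℤ_[p] ℚ_[p]))) (e m : ℕ)
    (he : L ∈ Ideal.span {(p : PowerSeries ℤ_[p]) ^ e, (1 + PowerSeries.X) ^ (p ^ m) - 1})
    (t : (ZMod p)ˣ → ℤ) (ht : ∀ x : (ZMod p)ˣ, ((t x : ℤ) : ZMod p) = x)
    (ht1 : ∀ x, (p : ℤ) ^ (m + 1) ∣ t x ^ (p - 1) - 1) (b : ℤ) (hb : ¬ (p : ℤ) ∣ b)
    (V : (ZMod p)ˣ → ℤ)
    (hV : ∀ x, S f (((((t x * b : ℤ) : ℚ) / (p : ℚ) ^ (m + 1) : ℚ)) : OnePoint ℚ) -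
      S f ((((t x : ℤ) : ℚ) / (p : ℚ) ^ (m + 1) : ℚ) : OnePoint ℚ) = V x * Ω) :
    (p : ℤ_[p]) ^ e ∣ ∑ x : (ZMod p)ˣ, ψ (x : ZMod p) * (V x : ℤ_[p]) := by
  -- the auxiliary prime and the integral symbol
  have hf0 : ∃ τ : UpperHalfPlane, f τ ≠ 0 := by
    by_contra hcon
    push Not at hcon
    have h1 : (f : UpperHalfPlane → ℂ) = 0 := by
      ext τ
      exact hcon τ
    have h2 := ha 1
    rw [h1, UpperHalfPlane.qExpansion_zero, map_zero, ha1] at h2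
    norm_num at h2
  obtain ⟨l, hl, -, hl1, hlN, hal⟩ := exists_prime_ne f hf0 (a := fun n => ((a n : ℤ) : ℂ)) ha
    (by
      intro l hl hlN n
      have := hH l hl hlN n
      rw [← Int.cast_mul, ← this]
      push_cast
      rfl) 0
  set u : ℤ := (l : ℤ) + 1 - a l with hu
  have hu0 : u ≠ 0 := by
    intro h0
    apply hal
    have h1 : a l = (l : ℤ) + 1 := by linarith
    rw [h1]
    push_cast
    rfl
  have hl1' : (N : ℤ) ∣ (l : ℤ) - 1 := by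
    have := (Nat.modEq_iff_dvd.1 hl1.symm)
    exact_mod_cast this
  have hper' : ∀ γ ∈ Gamma1 N, (period f γ).re ∈ AddSubgroup.zmultiples Ω := by
    intro γ hγ
    have h1 : (period f γ).re ∈ {r : ℝ | ∃ k : ℤ, r = k * Ω} := by
      rw [← hper]
      exact ⟨γ, hγ, rfl⟩
    obtain ⟨k, hk⟩ := h1
    rw [AddSubgroup.mem_zmultiples_iff]
    exact ⟨k, by rw [hk, zsmul_eq_mul]⟩
  obtain ⟨φ, hφ, hsign, hhecke⟩ := exists_int_sym f ha hH hΩ hper' hl hl1'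
  set φp : ModSym N ℤ_[p] := φ.map (Int.castRingHom ℤ_[p]) with hφp
  have hHp : ∀ q : ℕ, q.Prime → ¬ q ∣ N → φp.HeckeEigen q ((a q : ℤ) : ℤ_[p]) :=
    fun q hq hqN => (hhecke q hq hqN).map _
  have hu0' : (u : ℚ_[p]) ≠ 0 := by exact_mod_cast hu0
  have hu0z : (u : ℤ_[p]) ≠ 0 := by exact_mod_cast hu0
  obtain ⟨L₀, hL₀, -⟩ := existsUnique_padicLBr hp2 φp α _ (hHp p hp.out hpN) hα ψ
  have hMSD := isMSDBr_exists hp2 f ha hα hu0 hφ (hhecke p hp.out hpN) hψ hL₀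
  have hLL := isMSDBr_unique hp2 hΩ hψ hL hMSD
  -- `L₀ = u L`
  have hLu : L₀ = (u : PowerSeries ℤ_[p]) * L := by
    ext1 i
    have h1 := congrArg (PowerSeries.coeff i) hLL
    rw [PowerSeries.coeff_mk, PowerSeries.coeff_map, eq_div_iff hu0'] at h1
    have h2 : (u : PowerSeries ℤ_[p]) = PowerSeries.C (u : ℤ_[p]) := by
      rw [map_intCast]
    rw [h2, PowerSeries.coeff_C_mul]
    apply PadicInt.ext
    rw [PadicInt.coe_mul, PadicInt.coe_intCast, mul_comm]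
    exact h1.symm
  -- `u = p^k * unit`
  set k : ℕ := ((u : ℤ) : ℤ_[p]).valuation with hk
  have huk := PadicInt.unitCoeff_spec hu0z
  rw [← hk] at huk
  have he0 : L₀ ∈ Ideal.span {(p : PowerSeries ℤ_[p]) ^ (e + k),
      (1 + PowerSeries.X) ^ (p ^ m) - 1} := by
    obtain ⟨g, r, hgr⟩ := Ideal.mem_span_pair.1 he
    rw [Ideal.mem_span_pair]
    have h2 : (u : PowerSeries ℤ_[p]) = PowerSeries.C (u : ℤ_[p]) := by
      rw [map_intCast]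
    refine ⟨PowerSeries.C ((PadicInt.unitCoeff hu0z : ℤ_[p]ˣ) : ℤ_[p]) * g, PowerSeries.C (u : ℤ_[p]) * r, ?_⟩
    rw [hLu, ← hgr, h2]
    have h3 : (PowerSeries.C (u : ℤ_[p]) : PowerSeries ℤ_[p]) =
        PowerSeries.C ((PadicInt.unitCoeff hu0z : ℤ_[p]ˣ) : ℤ_[p]) * (p : PowerSeries ℤ_[p]) ^ k := by
      have h4 := congrArg (PowerSeries.C (R := ℤ_[p])) huk
      rw [h4, map_mul, map_pow, map_natCast]
    rw [pow_add]
    linear_combination (-(g * (p : PowerSeries ℤ_[p]) ^ e)) * h3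
  have h1 := link hp2 φp α ψ L₀ hL₀ (e + k) m he0 t ht ht1 b hb
  have h2 : ∑ x : (ZMod p)ˣ, ψ (x : ZMod p) *
      (φp.val ∞ (((((t x * b : ℤ) : ℚ) / (p : ℚ) ^ (m + 1) : ℚ)) : OnePoint ℚ) -
        φp.val ∞ ((((t x : ℤ) : ℚ) / (p : ℚ) ^ (m + 1) : ℚ) : OnePoint ℚ)) =
      (u : ℤ_[p]) * ∑ x : (ZMod p)ˣ, ψ (x : ZMod p) * (V x : ℤ_[p]) := by
    rw [Finset.mul_sum]
    refine Finset.sum_congr rfl fun x _ => ?_
    have e1 := hφ ((((((t x * b : ℤ) : ℚ) / (p : ℚ) ^ (m + 1) : ℚ)) : OnePoint ℚ))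
    have e2 := hφ (((((t x : ℤ) : ℚ) / (p : ℚ) ^ (m + 1) : ℚ) : OnePoint ℚ))
    have e3 := hV x
    have h3 : φ.val ∞ ((((((t x * b : ℤ) : ℚ) / (p : ℚ) ^ (m + 1) : ℚ)) : OnePoint ℚ)) -
        φ.val ∞ (((((t x : ℤ) : ℚ) / (p : ℚ) ^ (m + 1) : ℚ) : OnePoint ℚ)) = u * V x := by
      have h4 : ((φ.val ∞ ((((((t x * b : ℤ) : ℚ) / (p : ℚ) ^ (m + 1) : ℚ)) : OnePoint ℚ)) -
        φ.val ∞ (((((t x : ℤ) : ℚ) / (p : ℚ) ^ (m + 1) : ℚ) : OnePoint ℚ)) : ℤ) : ℝ) * Ω =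
          ((u * V x : ℤ) : ℝ) * Ω := by
        have hur : (u : ℝ) = (l : ℝ) + 1 - (a l : ℝ) := by
          rw [hu]
          push_cast
          ring
        push_cast at e1 e2 e3 ⊢
        rw [← hur] at e1 e2
        linear_combination (-1 : ℝ) * e1 + e2 + (u : ℝ) * e3
      exact_mod_cast mul_right_cancel₀ hΩ h4
    have h5 := congrArg (fun z : ℤ => (z : ℤ_[p])) h3
    simp only [Int.cast_sub, Int.cast_mul] at h5
    rw [hφp]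
    simp only [ModSym.map_val, eq_intCast]
    rw [← mul_assoc, mul_comm (u : ℤ_[p]), mul_assoc, ← h5]
    push_cast
    ring
  rw [h2] at h1
  have h3 : (u : ℤ_[p]) * ∑ x : (ZMod p)ˣ, ψ (x : ZMod p) * (V x : ℤ_[p]) =
      (p : ℤ_[p]) ^ k * (((PadicInt.unitCoeff hu0z : ℤ_[p]ˣ) : ℤ_[p]) *
        ∑ x : (ZMod p)ˣ, ψ (x : ZMod p) * (V x : ℤ_[p])) := by
    have h4 : (u : ℤ_[p]) = ((PadicInt.unitCoeff hu0z : ℤ_[p]ˣ) : ℤ_[p]) * (p : ℤ_[p]) ^ k := huk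
    linear_combination (∑ x : (ZMod p)ˣ, ψ (x : ZMod p) * (V x : ℤ_[p])) * h4
  rw [h3, pow_add, mul_comm ((p : ℤ_[p]) ^ e)] at h1
  have hp0 : (p : ℤ_[p]) ≠ 0 := by exact_mod_cast hp.out.ne_zero
  have h5 := (mul_dvd_mul_iff_left (pow_ne_zero k hp0)).1 h1
  exact ((Units.isUnit (PadicInt.unitCoeff hu0z)).dvd_mul_left).1 h5

end Pool.Agent.MU71
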